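import Mathlib

/-! Complete norms given as functions: closed graph and open mapping theorems. -/

set_option linter.unusedSectionVars false
set_option linter.deprecated false
set_option linter.style.haveILetI false

namespace Q81TN
open scoped Topology
open Filter

/-- A complete norm on a complex vector space, given as a function. -/
structure IsCompNorm {V : Type} [AddCommGroup V] [Module ℂ V] (p : V → ℝ) : Prop where
  nonneg : ∀ x, 0 ≤ p x
  eq_zero : ∀ x, p x = 0 → x = 0
  add_le : ∀ x y, p (x + y) ≤ p x + p y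
  smul : ∀ (c : ℂ) x, p (c • x) = ‖c‖ * p x
  complete : ∀ u : ℕ → V, (∀ ε > 0, ∃ n₀, ∀ m ≥ n₀, ∀ n ≥ n₀, p (u m - u n) < ε) →
    ∃ a, Tendsto (fun n => p (u n - a)) atTop (𝓝 0)

section
variable {V W : Type} [AddCommGroup V] [Module ℂ V] [AddCommGroup W] [Module ℂ W]

namespace IsCompNorm
variable {p : V → ℝ} (hp : IsCompNorm p)
include hp

theorem zero : p 0 = 0 := by
  have := hp.smul 0 0
  simpa using this

theorem neg (x : V) : p (-x) = p x := by
  have := hp.smul (-1) x
  simpa using this

theorem sub_le (x y : V) : p (x - y) ≤ p x + p y := by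
  rw [sub_eq_add_neg]
  exact (hp.add_le _ _).trans (by rw [hp.neg])

theorem sub_comm (x y : V) : p (x - y) = p (y - x) := by
  rw [← hp.neg, neg_sub]

theorem le_add (x y : V) : p x ≤ p (x - y) + p y := by
  have := hp.add_le (x - y) y
  simpa using this

theorem lim_unique {u : ℕ → V} {a b : V} (ha : Tendsto (fun n => p (u n - a)) atTop (𝓝 0))
    (hb : Tendsto (fun n => p (u n - b)) atTop (𝓝 0)) : a = b := by
  have h1 : ∀ n, p (a - b) ≤ p (u n - a) + p (u n - b) := by
    intro n
    have := hp.add_le (a - u n) (u n - b)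
    rw [sub_add_sub_cancel, hp.sub_comm a (u n)] at this
    exact this
  have h2 : Tendsto (fun n => p (u n - a) + p (u n - b)) atTop (𝓝 (0 + 0)) := ha.add hb
  rw [add_zero] at h2
  have h3 : p (a - b) ≤ 0 := ge_of_tendsto' h2 h1
  exact sub_eq_zero.mp (hp.eq_zero _ (le_antisymm h3 (hp.nonneg _)))

end IsCompNorm

/-- The normed group structure given by a complete norm. -/
@[reducible] def IsCompNorm.toNACG {p : V → ℝ} (hp : IsCompNorm p) : NormedAddCommGroup V :=
  AddGroupNorm.toNormedAddCommGroup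
    { toFun := p
      map_zero' := hp.zero
      add_le' := hp.add_le
      neg' := hp.neg
      eq_zero_of_map_eq_zero' := hp.eq_zero }

/-- **Closed graph theorem** for norms given as functions. -/
theorem closed_graph {p : V → ℝ} {q : W → ℝ} (hp : IsCompNorm p) (hq : IsCompNorm q)
    (T : V →ₗ[ℂ] W)
    (h : ∀ (u : ℕ → V) (w : W), Tendsto (fun n => p (u n)) atTop (𝓝 0) →
      Tendsto (fun n => q (T (u n) - w)) atTop (𝓝 0) → w = 0) :
    ∃ C, 0 ≤ C ∧ ∀ v, q (T v) ≤ C * p v := by
  letI iV : NormedAddCommGroup V := hp.toNACG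
  letI iW : NormedAddCommGroup W := hq.toNACG
  letI : NormedSpace ℂ V := { norm_smul_le := fun c x => (hp.smul c x).le }
  letI : NormedSpace ℂ W := { norm_smul_le := fun c x => (hq.smul c x).le }
  have hpn : ∀ x : V, ‖x‖ = p x := fun x => rfl
  have hqn : ∀ x : W, ‖x‖ = q x := fun x => rfl
  haveI : CompleteSpace V := by
    refine Metric.complete_of_cauchySeq_tendsto fun u hu => ?_
    obtain ⟨a, ha⟩ := hp.complete u (by
      intro ε hε
      obtain ⟨n₀, hn₀⟩ := Metric.cauchySeq_iff.mp hu ε hε
      refine ⟨n₀, fun m hm n hn => ?_⟩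
      have := hn₀ m hm n hn
      rwa [dist_eq_norm] at this)
    exact ⟨a, tendsto_iff_norm_sub_tendsto_zero.mpr ha⟩
  haveI : CompleteSpace W := by
    refine Metric.complete_of_cauchySeq_tendsto fun u hu => ?_
    obtain ⟨a, ha⟩ := hq.complete u (by
      intro ε hε
      obtain ⟨n₀, hn₀⟩ := Metric.cauchySeq_iff.mp hu ε hε
      refine ⟨n₀, fun m hm n hn => ?_⟩
      have := hn₀ m hm n hn
      rwa [dist_eq_norm] at this)
    exact ⟨a, tendsto_iff_norm_sub_tendsto_zero.mpr ha⟩
  have hcont : Continuous T := by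
    refine LinearMap.continuous_of_seq_closed_graph T (fun u x y hx hy => ?_)
    have h1 : y - T x = 0 := by
      refine h (fun n => u n - x) (y - T x) ?_ ?_
      · exact tendsto_iff_norm_sub_tendsto_zero.mp hx
      · have h2 := tendsto_iff_norm_sub_tendsto_zero.mp hy
        refine h2.congr fun n => ?_
        simp only [Function.comp, map_sub]
        rw [hqn]
        congr 1
        abel
    exact sub_eq_zero.mp h1
  let T' : V →L[ℂ] W := ⟨T, hcont⟩
  exact ⟨‖T'‖, norm_nonneg _, fun v => T'.le_opNorm v⟩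

/-- One-sided comparison of complete norms implies equivalence. -/
theorem equiv_of_le {p q : V → ℝ} (hp : IsCompNorm p) (hq : IsCompNorm q) {C : ℝ}
    (h : ∀ v, p v ≤ C * q v) : ∃ C', 0 ≤ C' ∧ ∀ v, q v ≤ C' * p v := by
  refine closed_graph hp hq LinearMap.id (fun u w hu hw => ?_)
  have h1 : Tendsto (fun n => p (u n - w)) atTop (𝓝 0) := by
    have h2 : Tendsto (fun n => C * q (u n - w)) atTop (𝓝 0) := by
      simpa using hw.const_mul C
    exact squeeze_zero (fun n => hp.nonneg _) (fun n => h _) h2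
  have h3 : Tendsto (fun n => p (u n - 0)) atTop (𝓝 0) := by simpa using hu
  exact hp.lim_unique h1 h3

/-- **Open mapping theorem** for norms given as functions. -/
theorem open_map {p : V → ℝ} {q : W → ℝ} (hp : IsCompNorm p) (hq : IsCompNorm q)
    (T : V →ₗ[ℂ] W) (hT : Function.Surjective T) {C : ℝ} (h : ∀ v, q (T v) ≤ C * p v) :
    ∃ C', 0 ≤ C' ∧ ∀ w, ∃ v, T v = w ∧ p v ≤ C' * q w := by
  letI iV : NormedAddCommGroup V := hp.toNACG
  letI iW : NormedAddCommGroup W := hq.toNACG
  letI : NormedSpace ℂ V := { norm_smul_le := fun c x => (hp.smul c x).le }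
  letI : NormedSpace ℂ W := { norm_smul_le := fun c x => (hq.smul c x).le }
  haveI : CompleteSpace V := by
    refine Metric.complete_of_cauchySeq_tendsto fun u hu => ?_
    obtain ⟨a, ha⟩ := hp.complete u (by
      intro ε hε
      obtain ⟨n₀, hn₀⟩ := Metric.cauchySeq_iff.mp hu ε hε
      refine ⟨n₀, fun m hm n hn => ?_⟩
      have := hn₀ m hm n hn
      rwa [dist_eq_norm] at this)
    exact ⟨a, tendsto_iff_norm_sub_tendsto_zero.mpr ha⟩
  haveI : CompleteSpace W := by
    refine Metric.complete_of_cauchySeq_tendsto fun u hu => ?_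
    obtain ⟨a, ha⟩ := hq.complete u (by
      intro ε hε
      obtain ⟨n₀, hn₀⟩ := Metric.cauchySeq_iff.mp hu ε hε
      refine ⟨n₀, fun m hm n hn => ?_⟩
      have := hn₀ m hm n hn
      rwa [dist_eq_norm] at this)
    exact ⟨a, tendsto_iff_norm_sub_tendsto_zero.mpr ha⟩
  let T' : V →L[ℂ] W := LinearMap.mkContinuous T C h
  obtain ⟨C', hC', hex⟩ := T'.exists_preimage_norm_le hT
  exact ⟨C', hC'.le, fun w => hex w⟩

end

/-- The norm of a Banach space is a complete norm. -/
theorem isCompNorm_norm (V : Type) [NormedAddCommGroup V] [NormedSpace ℂ V] [CompleteSpace V] :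
    IsCompNorm (fun v : V => ‖v‖) where
  nonneg := norm_nonneg
  eq_zero := fun x h => norm_eq_zero.mp h
  add_le := norm_add_le
  smul := norm_smul
  complete := by
    intro u hu
    have hc : CauchySeq u := by
      rw [Metric.cauchySeq_iff]
      intro ε hε
      obtain ⟨n₀, hn₀⟩ := hu ε hε
      exact ⟨n₀, fun m hm n hn => by rw [dist_eq_norm]; exact hn₀ m hm n hn⟩
    obtain ⟨a, ha⟩ := cauchySeq_tendsto_of_complete hc
    exact ⟨a, tendsto_iff_norm_sub_tendsto_zero.mp ha⟩

end Q81TN
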