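import Pool.Agent.Q81.TN.Base
import Pool.Agent.Q81.TN.Norms

/-! The algebra. -/

set_option linter.unusedSectionVars false
set_option linter.deprecated false
set_option linter.unusedSimpArgs false

namespace Q81TN
open scoped ENNReal Topology
open Filter

noncomputable section

/-- The pairing `⟨a, b⟩ = ∑ a k * b k` on `ℓ¹`. -/
def pair {K : Type} : L1 K →L[ℂ] L1 K →L[ℂ] ℂ :=
  lift (fun k => coord k) 1 (by
    intro k
    exact ContinuousLinearMap.opNorm_le_bound _ zero_le_one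
      (fun a => by rw [one_mul]; exact norm_coord_le a k))

theorem pair_e_left {K : Type} (k : K) (b : L1 K) : pair (e k) b = b k := by simp [pair]

theorem pair_e_right {K : Type} (a : L1 K) (k : K) : pair a (e k) = a k := by
  classical
  have := ext_e_apply (pair.flip (e k)) (coord k) (fun i => by
    rw [ContinuousLinearMap.flip_apply, pair_e_left, coord_apply]
    by_cases h : k = i
    · subst h; rfl
    · rw [e_apply_ne h, e_apply_ne (Ne.symm h)]) a
  simpa using this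

variable {E S X K : Type} [NormedAddCommGroup E] [NormedSpace ℂ E]
  [NormedAddCommGroup S] [NormedSpace ℂ S] [NormedAddCommGroup X] [NormedSpace ℂ X]

/-- The structure maps of the algebra. -/
structure Maps (E S X K : Type) [NormedAddCommGroup E] [NormedSpace ℂ E]
    [NormedAddCommGroup S] [NormedSpace ℂ S] [NormedAddCommGroup X] [NormedSpace ℂ X] where
  B1 : E →L[ℂ] S →L[ℂ] X
  B2 : E →L[ℂ] X
  mu : L1 K →L[ℂ] L1 K →L[ℂ] X

/-- The algebra with structure maps `M`. -/
structure TA (M : Maps E S X K) where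
  rl : ℂ
  ri : ℂ
  ra : ℂ
  rf : ℂ
  rj : ℂ
  rc : ℂ
  f : E
  y : S
  yc : ℂ
  p : L1 K
  q : L1 K
  d : L1 K
  g : L1 K
  x : X
  z : ℂ
  w : ℂ

variable (M : Maps E S X K)

/-- The underlying product space. -/
abbrev PT (E S X K : Type) [NormedAddCommGroup E] [NormedSpace ℂ E]
    [NormedAddCommGroup S] [NormedSpace ℂ S] [NormedAddCommGroup X] [NormedSpace ℂ X] : Type :=
  ℂ × ℂ × ℂ × ℂ × ℂ × ℂ × E × S × ℂ × L1 K × L1 K × L1 K × L1 K × X × ℂ × ℂ

/-- The bijection with the product space. -/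
def eqv : TA M ≃ PT E S X K where
  toFun a := (a.rl, a.ri, a.ra, a.rf, a.rj, a.rc, a.f, a.y, a.yc, a.p, a.q, a.d, a.g, a.x, a.z, a.w)
  invFun t := ⟨t.1, t.2.1, t.2.2.1, t.2.2.2.1, t.2.2.2.2.1, t.2.2.2.2.2.1, t.2.2.2.2.2.2.1, t.2.2.2.2.2.2.2.1, t.2.2.2.2.2.2.2.2.1, t.2.2.2.2.2.2.2.2.2.1, t.2.2.2.2.2.2.2.2.2.2.1, t.2.2.2.2.2.2.2.2.2.2.2.1, t.2.2.2.2.2.2.2.2.2.2.2.2.1, t.2.2.2.2.2.2.2.2.2.2.2.2.2.1, t.2.2.2.2.2.2.2.2.2.2.2.2.2.2.1, t.2.2.2.2.2.2.2.2.2.2.2.2.2.2.2⟩
  left_inv _ := rfl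
  right_inv _ := rfl

instance : AddCommGroup (TA M) := (eqv M).addCommGroup
instance : Module ℂ (TA M) := (eqv M).module ℂ

instance : Mul (TA M) := ⟨fun a b =>
  ⟨a.rl * b.rl,
   a.ri * b.ri,
   a.ra * b.ra,
   a.rf * b.rf,
   a.rj * b.rj,
   a.rc * b.rc,
   a.rl • b.f + b.ri • a.f,
   a.ri • b.y + b.rj • a.y,
   a.ri * b.yc + b.rj * a.yc,
   a.rl • b.p + b.ra • a.p,
   a.ra • b.q + b.rj • a.q,
   a.ra • b.d + b.rc • a.d,
   a.rf • b.g + b.ra • a.g,
   a.rl • b.x + b.rj • a.x + M.B1 a.f b.y + b.yc • M.B2 a.f + M.mu a.p b.q,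
   a.rl * b.z + b.rc * a.z + pair a.p b.d,
   a.rf * b.w + b.rj * a.w + pair a.g b.q⟩⟩
instance : One (TA M) := ⟨⟨1, 1, 1, 1, 1, 1, 0, 0, 0, 0, 0, 0, 0, 0, 0, 0⟩⟩

variable {M}

namespace TA

@[ext] theorem ext' {a b : TA M} (hrl : a.rl = b.rl) (hri : a.ri = b.ri) (hra : a.ra = b.ra) (hrf : a.rf = b.rf) (hrj : a.rj = b.rj) (hrc : a.rc = b.rc) (hf : a.f = b.f) (hy : a.y = b.y) (hyc : a.yc = b.yc) (hp : a.p = b.p) (hq : a.q = b.q) (hd : a.d = b.d) (hg : a.g = b.g) (hx : a.x = b.x) (hz : a.z = b.z) (hw : a.w = b.w) : a = b := by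
  cases a; cases b; simp only at hrl hri hra hrf hrj hrc hf hy hyc hp hq hd hg hx hz hw
  subst hrl hri hra hrf hrj hrc hf hy hyc hp hq hd hg hx hz hw
  rfl

@[simp] theorem add_rl (a b : TA M) : (a + b).rl = a.rl + b.rl := rfl
@[simp] theorem sub_rl (a b : TA M) : (a - b).rl = a.rl - b.rl := rfl
@[simp] theorem neg_rl (a : TA M) : (-a).rl = -a.rl := rfl
@[simp] theorem zero_rl : (0 : TA M).rl = 0 := rfl
@[simp] theorem one_rl : (1 : TA M).rl = 1 := rfl
@[simp] theorem smul_rl (r : ℂ) (a : TA M) : (r • a).rl = r • a.rl := rfl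
@[simp] theorem mul_rl (a b : TA M) : (a * b).rl = a.rl * b.rl := rfl
@[simp] theorem add_ri (a b : TA M) : (a + b).ri = a.ri + b.ri := rfl
@[simp] theorem sub_ri (a b : TA M) : (a - b).ri = a.ri - b.ri := rfl
@[simp] theorem neg_ri (a : TA M) : (-a).ri = -a.ri := rfl
@[simp] theorem zero_ri : (0 : TA M).ri = 0 := rfl
@[simp] theorem one_ri : (1 : TA M).ri = 1 := rfl
@[simp] theorem smul_ri (r : ℂ) (a : TA M) : (r • a).ri = r • a.ri := rfl
@[simp] theorem mul_ri (a b : TA M) : (a * b).ri = a.ri * b.ri := rfl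
@[simp] theorem add_ra (a b : TA M) : (a + b).ra = a.ra + b.ra := rfl
@[simp] theorem sub_ra (a b : TA M) : (a - b).ra = a.ra - b.ra := rfl
@[simp] theorem neg_ra (a : TA M) : (-a).ra = -a.ra := rfl
@[simp] theorem zero_ra : (0 : TA M).ra = 0 := rfl
@[simp] theorem one_ra : (1 : TA M).ra = 1 := rfl
@[simp] theorem smul_ra (r : ℂ) (a : TA M) : (r • a).ra = r • a.ra := rfl
@[simp] theorem mul_ra (a b : TA M) : (a * b).ra = a.ra * b.ra := rfl
@[simp] theorem add_rf (a b : TA M) : (a + b).rf = a.rf + b.rf := rfl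
@[simp] theorem sub_rf (a b : TA M) : (a - b).rf = a.rf - b.rf := rfl
@[simp] theorem neg_rf (a : TA M) : (-a).rf = -a.rf := rfl
@[simp] theorem zero_rf : (0 : TA M).rf = 0 := rfl
@[simp] theorem one_rf : (1 : TA M).rf = 1 := rfl
@[simp] theorem smul_rf (r : ℂ) (a : TA M) : (r • a).rf = r • a.rf := rfl
@[simp] theorem mul_rf (a b : TA M) : (a * b).rf = a.rf * b.rf := rfl
@[simp] theorem add_rj (a b : TA M) : (a + b).rj = a.rj + b.rj := rfl
@[simp] theorem sub_rj (a b : TA M) : (a - b).rj = a.rj - b.rj := rfl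
@[simp] theorem neg_rj (a : TA M) : (-a).rj = -a.rj := rfl
@[simp] theorem zero_rj : (0 : TA M).rj = 0 := rfl
@[simp] theorem one_rj : (1 : TA M).rj = 1 := rfl
@[simp] theorem smul_rj (r : ℂ) (a : TA M) : (r • a).rj = r • a.rj := rfl
@[simp] theorem mul_rj (a b : TA M) : (a * b).rj = a.rj * b.rj := rfl
@[simp] theorem add_rc (a b : TA M) : (a + b).rc = a.rc + b.rc := rfl
@[simp] theorem sub_rc (a b : TA M) : (a - b).rc = a.rc - b.rc := rfl
@[simp] theorem neg_rc (a : TA M) : (-a).rc = -a.rc := rfl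
@[simp] theorem zero_rc : (0 : TA M).rc = 0 := rfl
@[simp] theorem one_rc : (1 : TA M).rc = 1 := rfl
@[simp] theorem smul_rc (r : ℂ) (a : TA M) : (r • a).rc = r • a.rc := rfl
@[simp] theorem mul_rc (a b : TA M) : (a * b).rc = a.rc * b.rc := rfl
@[simp] theorem add_f (a b : TA M) : (a + b).f = a.f + b.f := rfl
@[simp] theorem sub_f (a b : TA M) : (a - b).f = a.f - b.f := rfl
@[simp] theorem neg_f (a : TA M) : (-a).f = -a.f := rfl
@[simp] theorem zero_f : (0 : TA M).f = 0 := rfl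
@[simp] theorem one_f : (1 : TA M).f = 0 := rfl
@[simp] theorem smul_f (r : ℂ) (a : TA M) : (r • a).f = r • a.f := rfl
@[simp] theorem mul_f (a b : TA M) : (a * b).f = a.rl • b.f + b.ri • a.f := rfl
@[simp] theorem add_y (a b : TA M) : (a + b).y = a.y + b.y := rfl
@[simp] theorem sub_y (a b : TA M) : (a - b).y = a.y - b.y := rfl
@[simp] theorem neg_y (a : TA M) : (-a).y = -a.y := rfl
@[simp] theorem zero_y : (0 : TA M).y = 0 := rfl
@[simp] theorem one_y : (1 : TA M).y = 0 := rfl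
@[simp] theorem smul_y (r : ℂ) (a : TA M) : (r • a).y = r • a.y := rfl
@[simp] theorem mul_y (a b : TA M) : (a * b).y = a.ri • b.y + b.rj • a.y := rfl
@[simp] theorem add_yc (a b : TA M) : (a + b).yc = a.yc + b.yc := rfl
@[simp] theorem sub_yc (a b : TA M) : (a - b).yc = a.yc - b.yc := rfl
@[simp] theorem neg_yc (a : TA M) : (-a).yc = -a.yc := rfl
@[simp] theorem zero_yc : (0 : TA M).yc = 0 := rfl
@[simp] theorem one_yc : (1 : TA M).yc = 0 := rfl
@[simp] theorem smul_yc (r : ℂ) (a : TA M) : (r • a).yc = r • a.yc := rfl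
@[simp] theorem mul_yc (a b : TA M) : (a * b).yc = a.ri * b.yc + b.rj * a.yc := rfl
@[simp] theorem add_p (a b : TA M) : (a + b).p = a.p + b.p := rfl
@[simp] theorem sub_p (a b : TA M) : (a - b).p = a.p - b.p := rfl
@[simp] theorem neg_p (a : TA M) : (-a).p = -a.p := rfl
@[simp] theorem zero_p : (0 : TA M).p = 0 := rfl
@[simp] theorem one_p : (1 : TA M).p = 0 := rfl
@[simp] theorem smul_p (r : ℂ) (a : TA M) : (r • a).p = r • a.p := rfl
@[simp] theorem mul_p (a b : TA M) : (a * b).p = a.rl • b.p + b.ra • a.p := rfl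
@[simp] theorem add_q (a b : TA M) : (a + b).q = a.q + b.q := rfl
@[simp] theorem sub_q (a b : TA M) : (a - b).q = a.q - b.q := rfl
@[simp] theorem neg_q (a : TA M) : (-a).q = -a.q := rfl
@[simp] theorem zero_q : (0 : TA M).q = 0 := rfl
@[simp] theorem one_q : (1 : TA M).q = 0 := rfl
@[simp] theorem smul_q (r : ℂ) (a : TA M) : (r • a).q = r • a.q := rfl
@[simp] theorem mul_q (a b : TA M) : (a * b).q = a.ra • b.q + b.rj • a.q := rfl
@[simp] theorem add_d (a b : TA M) : (a + b).d = a.d + b.d := rfl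
@[simp] theorem sub_d (a b : TA M) : (a - b).d = a.d - b.d := rfl
@[simp] theorem neg_d (a : TA M) : (-a).d = -a.d := rfl
@[simp] theorem zero_d : (0 : TA M).d = 0 := rfl
@[simp] theorem one_d : (1 : TA M).d = 0 := rfl
@[simp] theorem smul_d (r : ℂ) (a : TA M) : (r • a).d = r • a.d := rfl
@[simp] theorem mul_d (a b : TA M) : (a * b).d = a.ra • b.d + b.rc • a.d := rfl
@[simp] theorem add_g (a b : TA M) : (a + b).g = a.g + b.g := rfl
@[simp] theorem sub_g (a b : TA M) : (a - b).g = a.g - b.g := rfl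
@[simp] theorem neg_g (a : TA M) : (-a).g = -a.g := rfl
@[simp] theorem zero_g : (0 : TA M).g = 0 := rfl
@[simp] theorem one_g : (1 : TA M).g = 0 := rfl
@[simp] theorem smul_g (r : ℂ) (a : TA M) : (r • a).g = r • a.g := rfl
@[simp] theorem mul_g (a b : TA M) : (a * b).g = a.rf • b.g + b.ra • a.g := rfl
@[simp] theorem add_x (a b : TA M) : (a + b).x = a.x + b.x := rfl
@[simp] theorem sub_x (a b : TA M) : (a - b).x = a.x - b.x := rfl
@[simp] theorem neg_x (a : TA M) : (-a).x = -a.x := rfl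
@[simp] theorem zero_x : (0 : TA M).x = 0 := rfl
@[simp] theorem one_x : (1 : TA M).x = 0 := rfl
@[simp] theorem smul_x (r : ℂ) (a : TA M) : (r • a).x = r • a.x := rfl
@[simp] theorem mul_x (a b : TA M) : (a * b).x = a.rl • b.x + b.rj • a.x + M.B1 a.f b.y + b.yc • M.B2 a.f + M.mu a.p b.q := rfl
@[simp] theorem add_z (a b : TA M) : (a + b).z = a.z + b.z := rfl
@[simp] theorem sub_z (a b : TA M) : (a - b).z = a.z - b.z := rfl
@[simp] theorem neg_z (a : TA M) : (-a).z = -a.z := rfl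
@[simp] theorem zero_z : (0 : TA M).z = 0 := rfl
@[simp] theorem one_z : (1 : TA M).z = 0 := rfl
@[simp] theorem smul_z (r : ℂ) (a : TA M) : (r • a).z = r • a.z := rfl
@[simp] theorem mul_z (a b : TA M) : (a * b).z = a.rl * b.z + b.rc * a.z + pair a.p b.d := rfl
@[simp] theorem add_w (a b : TA M) : (a + b).w = a.w + b.w := rfl
@[simp] theorem sub_w (a b : TA M) : (a - b).w = a.w - b.w := rfl
@[simp] theorem neg_w (a : TA M) : (-a).w = -a.w := rfl
@[simp] theorem zero_w : (0 : TA M).w = 0 := rfl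
@[simp] theorem one_w : (1 : TA M).w = 0 := rfl
@[simp] theorem smul_w (r : ℂ) (a : TA M) : (r • a).w = r • a.w := rfl
@[simp] theorem mul_w (a b : TA M) : (a * b).w = a.rf * b.w + b.rj * a.w + pair a.g b.q := rfl

instance : Ring (TA M) :=
  { (inferInstance : AddCommGroup (TA M)) with
    mul := (· * ·)
    one := 1
    left_distrib := fun a b c => by
      apply ext' <;> simp only [mul_rl, mul_ri, mul_ra, mul_rf, mul_rj, mul_rc, mul_f, mul_y,
        mul_yc, mul_p, mul_q, mul_d, mul_g, mul_x, mul_z, mul_w, add_rl, add_ri, add_ra, add_rf,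
        add_rj, add_rc, add_f, add_y, add_yc, add_p, add_q, add_d, add_g, add_x, add_z, add_w,
        map_add, ContinuousLinearMap.add_apply] <;> first | ring1 | module
    right_distrib := fun a b c => by
      apply ext' <;> simp only [mul_rl, mul_ri, mul_ra, mul_rf, mul_rj, mul_rc, mul_f, mul_y,
        mul_yc, mul_p, mul_q, mul_d, mul_g, mul_x, mul_z, mul_w, add_rl, add_ri, add_ra, add_rf,
        add_rj, add_rc, add_f, add_y, add_yc, add_p, add_q, add_d, add_g, add_x, add_z, add_w,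
        map_add, ContinuousLinearMap.add_apply] <;> first | ring1 | module
    zero_mul := fun a => by apply ext' <;> simp
    mul_zero := fun a => by apply ext' <;> simp
    one_mul := fun a => by apply ext' <;> simp
    mul_one := fun a => by apply ext' <;> simp
    mul_assoc := fun a b c => by
      apply ext' <;> simp only [mul_rl, mul_ri, mul_ra, mul_rf, mul_rj, mul_rc, mul_f, mul_y,
        mul_yc, mul_p, mul_q, mul_d, mul_g, mul_x, mul_z, mul_w,
        map_add, ContinuousLinearMap.add_apply, map_smul, ContinuousLinearMap.smul_apply,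
        smul_eq_mul] <;> first | ring1 | module }

instance : Algebra ℂ (TA M) :=
  Algebra.ofModule
    (fun r a b => by
      apply ext' <;> simp only [mul_rl, mul_ri, mul_ra, mul_rf, mul_rj, mul_rc, mul_f, mul_y,
        mul_yc, mul_p, mul_q, mul_d, mul_g, mul_x, mul_z, mul_w, smul_rl, smul_ri, smul_ra,
        smul_rf, smul_rj, smul_rc, smul_f, smul_y, smul_yc, smul_p, smul_q, smul_d, smul_g,
        smul_x, smul_z, smul_w,
        map_add, ContinuousLinearMap.add_apply, map_smul, ContinuousLinearMap.smul_apply,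
        smul_eq_mul] <;> first | ring1 | module)
    (fun r a b => by
      apply ext' <;> simp only [mul_rl, mul_ri, mul_ra, mul_rf, mul_rj, mul_rc, mul_f, mul_y,
        mul_yc, mul_p, mul_q, mul_d, mul_g, mul_x, mul_z, mul_w, smul_rl, smul_ri, smul_ra,
        smul_rf, smul_rj, smul_rc, smul_f, smul_y, smul_yc, smul_p, smul_q, smul_d, smul_g,
        smul_x, smul_z, smul_w,
        map_add, ContinuousLinearMap.add_apply, map_smul, ContinuousLinearMap.smul_apply,
        smul_eq_mul] <;> first | ring1 | module)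

end TA

end

end Q81TN
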