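import Pool.Agent.Q81.TN.Cover

/-! The base data. -/

set_option linter.unusedSectionVars false
set_option linter.deprecated false

namespace Q81TN
open scoped ENNReal Topology
open Filter

noncomputable section

/-- The data from which the algebra is built. -/
structure Dat (E S X K : Type) [NormedAddCommGroup E] [NormedSpace ℂ E]
    [NormedAddCommGroup S] [NormedSpace ℂ S] [NormedAddCommGroup X] [NormedSpace ℂ X] where
  L : E →L[ℂ] S
  ell : E →L[ℂ] ℂ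
  h : S →ₗ[ℂ] ℂ
  x0 : S
  m : E →L[ℂ] S →L[ℂ] X
  j : S →L[ℂ] X
  N : X →ₗ[ℂ] S
  μ : L1 K →L[ℂ] L1 K →L[ℂ] X
  ν : L1 K →L[ℂ] L1 K →L[ℂ] S
  es : E
  e0 : E
  en : ℕ → E
  hL : ∀ f, h (L f) = ell f
  L_e0 : L e0 = x0
  x0_ne : x0 ≠ 0
  ell_e0 : ell e0 = 0
  L_es : L es = 0
  es_ne : es ≠ 0
  faithful : ∀ f y, m f y = 0 → f = 0 ∨ y = 0
  N_m : ∀ f y, N (m f y) = h y • (L f + ell f • x0)
  N_j : ∀ s, N (j s) = h s • x0
  N_μ : ∀ a b, N (μ a b) = ν a b
  cov : ∀ v, ‖v‖ ≤ 1 → ‖N v‖ ≤ 1 → ∃ k, μ (e k) (e k) = v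
  j_inj : ∀ s, j s = 0 → s = 0
  en_norm : ∀ n, ‖en n‖ ≤ 1
  L_en : Tendsto (fun n => ‖L (en n)‖) atTop (𝓝 0)
  ell_en : ∀ n, ell (en n) = 1
  dense : ∀ s, ∀ ε > 0, ∃ f, ‖s - L f‖ < ε

/-- The weighted backward shift. -/
def Lop : L1 ℕ →L[ℂ] L1 ℕ :=
  lift (fun n => Nat.casesOn n 0 (fun k => ((k : ℂ) + 1)⁻¹ • e k)) 1 (by
    intro n
    cases n with
    | zero => simp
    | succ k =>
      simp only
      rw [norm_smul, norm_e, mul_one, norm_inv]
      have h1 : ‖(k : ℂ) + 1‖ = (k : ℝ) + 1 := by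
        have : ((k : ℂ) + 1) = (((k : ℝ) + 1 : ℝ) : ℂ) := by push_cast; ring
        rw [this, Complex.norm_real, Real.norm_eq_abs, abs_of_nonneg (by positivity)]
      rw [h1]
      exact inv_le_one_of_one_le₀ (by linarith [(Nat.cast_nonneg k : (0 : ℝ) ≤ k)]))

theorem Lop_zero : Lop (e 0) = 0 := by simp [Lop]

theorem Lop_succ (k : ℕ) : Lop (e (k + 1)) = ((k : ℂ) + 1)⁻¹ • e k := by simp [Lop]

theorem norm_cast_succ (k : ℕ) : ‖(k : ℂ) + 1‖ = (k : ℝ) + 1 := by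
  have : ((k : ℂ) + 1) = (((k : ℝ) + 1 : ℝ) : ℂ) := by push_cast; ring
  rw [this, Complex.norm_real, Real.norm_eq_abs, abs_of_nonneg (by positivity)]

theorem Lop_apply (f : L1 ℕ) (n : ℕ) : Lop f n = ((n : ℂ) + 1)⁻¹ * f (n + 1) := by
  have := ext_e_apply ((coord n).comp Lop) (((n : ℂ) + 1)⁻¹ • coord (n + 1)) (fun k => by
    cases k with
    | zero =>
      simp only [ContinuousLinearMap.comp_apply, Lop_zero, map_zero, ContinuousLinearMap.smul_apply,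
        coord_apply]
      rw [e_apply_ne (Nat.succ_ne_zero n), smul_zero]
    | succ k =>
      simp only [ContinuousLinearMap.comp_apply, Lop_succ, map_smul,
        ContinuousLinearMap.smul_apply, coord_apply]
      by_cases h : n = k
      · subst h; rw [e_apply_self, e_apply_self]
      · rw [e_apply_ne h, e_apply_ne (by omega), smul_zero, smul_zero]) f
  simpa using this

/-- The functional `ℓ`. -/
def ellop : L1 ℕ →L[ℂ] ℂ :=
  lift (fun n => if n < 2 then 0 else 1) 1 (by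
    intro n; split_ifs <;> simp)

theorem ker_le (f : L1 ℕ) (hf : Lop f = 0) : ellop f = 0 := by
  have h1 : ∀ n, f (n + 1) = 0 := by
    intro n
    have h2 : Lop f n = 0 := by rw [hf]; rfl
    rw [Lop_apply] at h2
    rcases mul_eq_zero.mp h2 with h3 | h3
    · exfalso
      have h4 := norm_cast_succ n
      rw [inv_eq_zero] at h3
      rw [h3, norm_zero] at h4
      have : (0 : ℝ) ≤ n := Nat.cast_nonneg n
      linarith
    · exact h3
  rw [ellop, lift_apply]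
  have : ∀ i : ℕ, f i • (if i < 2 then (0 : ℂ) else 1) = 0 := by
    intro i
    cases i with
    | zero => simp
    | succ k => rw [h1 k, zero_smul]
  exact (tsum_congr this).trans tsum_zero

theorem exists_h : ∃ h : L1 ℕ →ₗ[ℂ] ℂ, ∀ f, h (Lop f) = ellop f := by
  obtain ⟨N, hN⟩ := exists_linear_of_graph
    (LinearMap.range ((Lop : L1 ℕ →ₗ[ℂ] L1 ℕ).prod (ellop : L1 ℕ →ₗ[ℂ] ℂ))) (by
      rintro s ⟨f, hf⟩
      have h1 : Lop f = 0 := congrArg Prod.fst hf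
      have h2 : ellop f = s := congrArg Prod.snd hf
      rw [← h2, ker_le f h1])
  exact ⟨N, fun f => hN _ _ ⟨f, rfl⟩⟩

theorem Lop_dense (s : L1 ℕ) (ε : ℝ) (hε : 0 < ε) : ∃ f, ‖s - Lop f‖ < ε := by
  have h1 : s ∈ (LinearMap.range (Lop : L1 ℕ →ₗ[ℂ] L1 ℕ)).topologicalClosure := by
    apply mem_of_closed _ (Submodule.isClosed_topologicalClosure _)
    intro k
    apply Submodule.le_topologicalClosure
    refine ⟨((k : ℂ) + 1) • e (k + 1), ?_⟩
    have h0 : ((k : ℂ) + 1) ≠ 0 := by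
      intro h3
      have h4 := norm_cast_succ k
      rw [h3, norm_zero] at h4
      have : (0 : ℝ) ≤ k := Nat.cast_nonneg k
      linarith
    change Lop (((k : ℂ) + 1) • e (k + 1)) = e k
    rw [map_smul, Lop_succ, smul_smul, mul_inv_cancel₀ h0, one_smul]
  have h2 : s ∈ closure ((LinearMap.range (Lop : L1 ℕ →ₗ[ℂ] L1 ℕ) : Submodule ℂ (L1 ℕ)) : Set (L1 ℕ)) := by
    rwa [← Submodule.topologicalClosure_coe]
  obtain ⟨_, ⟨f, rfl⟩, hf⟩ := Metric.mem_closure_iff.mp h2 ε hε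
  exact ⟨f, by rwa [dist_eq_norm] at hf⟩

/-- Operators from the dual of `E` to `Y`. -/
def Tn (E Y : Type) [NormedAddCommGroup E] [NormedSpace ℂ E] [NormedAddCommGroup Y]
    [NormedSpace ℂ Y] : Type := (E →L[ℂ] ℂ) →L[ℂ] Y

section
variable (E Y : Type) [NormedAddCommGroup E] [NormedSpace ℂ E] [NormedAddCommGroup Y]
    [NormedSpace ℂ Y]

instance : NormedAddCommGroup (Tn E Y) := inferInstanceAs (NormedAddCommGroup ((E →L[ℂ] ℂ) →L[ℂ] Y))
instance : NormedSpace ℂ (Tn E Y) := inferInstanceAs (NormedSpace ℂ ((E →L[ℂ] ℂ) →L[ℂ] Y))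
instance [CompleteSpace Y] : CompleteSpace (Tn E Y) :=
  inferInstanceAs (CompleteSpace ((E →L[ℂ] ℂ) →L[ℂ] Y))

/-- The rank-one element. -/
def rk (f : E) (y : Y) : Tn E Y :=
  ((NormedSpace.inclusionInDoubleDual ℂ E f).smulRight y : (E →L[ℂ] ℂ) →L[ℂ] Y)

/-- Evaluation. -/
def Tn.ev (φ : E →L[ℂ] ℂ) : Tn E Y →ₗ[ℂ] Y where
  toFun T := (show (E →L[ℂ] ℂ) →L[ℂ] Y from T) φ
  map_add' _ _ := rfl
  map_smul' _ _ := rfl

theorem Tn.ev_rk (φ : E →L[ℂ] ℂ) (f : E) (y : Y) : Tn.ev E Y φ (rk E Y f y) = φ f • y := rfl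

theorem Tn.ext {T T' : Tn E Y} (h : ∀ φ, Tn.ev E Y φ T = Tn.ev E Y φ T') : T = T' :=
  ContinuousLinearMap.ext h

theorem norm_rk_le (f : E) (y : Y) : ‖rk E Y f y‖ ≤ ‖f‖ * ‖y‖ := by
  refine ContinuousLinearMap.opNorm_le_bound _ (by positivity) (fun φ => ?_)
  have h1 : (((NormedSpace.inclusionInDoubleDual ℂ E f).smulRight y : (E →L[ℂ] ℂ) →L[ℂ] Y)) φ =
      φ f • y := rfl
  change ‖φ f • y‖ ≤ _
  rw [norm_smul]
  have := φ.le_opNorm f
  calc ‖φ f‖ * ‖y‖ ≤ (‖φ‖ * ‖f‖) * ‖y‖ := by gcongr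
    _ = ‖f‖ * ‖y‖ * ‖φ‖ := by ring

/-- The bilinear map `(f, y) ↦ f ⊗ y`. -/
def m0 : E →L[ℂ] Y →L[ℂ] Tn E Y :=
  LinearMap.mkContinuous₂
    (LinearMap.mk₂ ℂ (rk E Y)
      (by intro f f' y; apply Tn.ext; intro φ; rw [map_add]; simp only [Tn.ev_rk, map_add, add_smul])
      (by intro c f y; apply Tn.ext; intro φ; rw [map_smul]; simp only [Tn.ev_rk, map_smul, smul_assoc])
      (by intro f y y'; apply Tn.ext; intro φ; rw [map_add]; simp only [Tn.ev_rk, smul_add])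
      (by intro c f y; apply Tn.ext; intro φ; rw [map_smul]; simp only [Tn.ev_rk]; rw [smul_comm]))
    1 (by intro f y; rw [one_mul]; exact norm_rk_le E Y f y)

theorem m0_apply (f : E) (y : Y) : m0 E Y f y = rk E Y f y := rfl

end

section tensor
variable {E S Y : Type} [NormedAddCommGroup E] [NormedSpace ℂ E]
  [NormedAddCommGroup S] [NormedSpace ℂ S] [NormedAddCommGroup Y] [NormedSpace ℂ Y]

theorem m0_faithful (f : E) (y : Y) (h : m0 E Y f y = 0) : f = 0 ∨ y = 0 := by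
  by_contra hcon
  rw [not_or] at hcon
  obtain ⟨hf, hy⟩ := hcon
  apply hf
  rw [NormedSpace.eq_zero_iff_forall_dual_eq_zero ℂ]
  intro φ
  have h1 : Tn.ev E Y φ (m0 E Y f y) = 0 := by rw [h, map_zero]
  rw [m0_apply, Tn.ev_rk] at h1
  exact (smul_eq_zero.mp h1).resolve_right hy

open TensorProduct in
/-- The linear map `τ` with `τ (f ⊗ y) = h y • Lt f`. -/
theorem exists_tau (h : Y →ₗ[ℂ] ℂ) (Lt : E →L[ℂ] S) :
    ∃ τ : Tn E Y →ₗ[ℂ] S, ∀ f y, τ (m0 E Y f y) = h y • Lt f := by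
  let B : E →ₗ[ℂ] Y →ₗ[ℂ] Tn E Y :=
    LinearMap.mk₂ ℂ (fun f y => m0 E Y f y)
      (by intro f f' y; rw [map_add]; rfl) (by intro c f y; rw [map_smul]; rfl)
      (by intro f y y'; rw [map_add]) (by intro c f y; rw [map_smul])
  let B' : E →ₗ[ℂ] Y →ₗ[ℂ] S :=
    LinearMap.mk₂ ℂ (fun f y => h y • Lt f)
      (by intro f f' y; rw [map_add, smul_add])
      (by intro c f y; rw [map_smul, smul_comm])
      (by intro f y y'; rw [map_add, add_smul])
      (by intro c f y; rw [map_smul, smul_assoc])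
  let Φ := TensorProduct.lift B
  let Ψ := TensorProduct.lift B'
  obtain ⟨τ, hτ⟩ := exists_linear_of_graph (LinearMap.range (Φ.prod Ψ)) (by
    rintro s ⟨t, ht⟩
    have h1 : Φ t = 0 := congrArg Prod.fst ht
    have h2 : Ψ t = s := congrArg Prod.snd ht
    rw [← h2, NormedSpace.eq_zero_iff_forall_dual_eq_zero ℂ]
    intro ψ
    have h3 : (ψ : S →ₗ[ℂ] ℂ).comp Ψ = (h.comp (Tn.ev E Y (ψ.comp Lt))).comp Φ := by
      apply TensorProduct.ext'
      intro f y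
      simp only [LinearMap.comp_apply, Φ, Ψ, TensorProduct.lift.tmul]
      change ψ (h y • Lt f) = h (Tn.ev E Y (ψ.comp Lt) (rk E Y f y))
      rw [Tn.ev_rk, map_smul, map_smul]
      simp only [ContinuousLinearMap.comp_apply, smul_eq_mul]
      ring
    have h4 := LinearMap.congr_fun h3 t
    simp only [LinearMap.comp_apply, h1, map_zero] at h4
    exact h4)
  exact ⟨τ, fun f y => hτ _ _ ⟨f ⊗ₜ[ℂ] y, rfl⟩⟩

end tensor

/-- The base space `X₀`. -/
abbrev X00 : Type := Tn (L1 ℕ) (L1 ℕ) × L1 ℕ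

/-- The index set. -/
abbrev K0 : Type := Ix X00

/-- The big space `X`. -/
abbrev XB : Type := X00 × L1 (K0 × K0)

theorem exists_dat : Nonempty (Dat (L1 ℕ) (L1 ℕ) XB K0) := by
  obtain ⟨h, hh⟩ := exists_h
  set x0 : L1 ℕ := Lop (e 1) with hx0
  have hx0' : x0 = e 0 := by rw [hx0, Lop_succ 0]; simp
  have hell0 : ellop (e 1) = 0 := by simp [ellop]
  obtain ⟨τ, hτ⟩ := exists_tau (Y := L1 ℕ) h (Lop + ellop.smulRight x0)
  let N₀ : X00 →ₗ[ℂ] L1 ℕ :=
    τ.comp (LinearMap.fst ℂ _ _) + (h.smulRight x0).comp (LinearMap.snd ℂ _ _)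
  obtain ⟨N, μ, ν, hN0, hNμ, hcov⟩ := cover (X₀ := X00) (S := L1 ℕ) N₀
  let inl1 : X00 →L[ℂ] XB := ContinuousLinearMap.inl ℂ X00 (L1 (K0 × K0))
  let jj : L1 ℕ →L[ℂ] XB := inl1.comp (ContinuousLinearMap.inr ℂ (Tn (L1 ℕ) (L1 ℕ)) (L1 ℕ))
  let mm : L1 ℕ →L[ℂ] L1 ℕ →L[ℂ] XB :=
    (ContinuousLinearMap.compL ℂ (L1 ℕ) (Tn (L1 ℕ) (L1 ℕ)) XB
      (inl1.comp (ContinuousLinearMap.inl ℂ (Tn (L1 ℕ) (L1 ℕ)) (L1 ℕ)))).comp
      (m0 (L1 ℕ) (L1 ℕ))
  have hmm : ∀ f y, mm f y = ((m0 (L1 ℕ) (L1 ℕ) f y, 0), 0) := fun f y => rfl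
  have hjj : ∀ s, jj s = ((0, s), 0) := fun s => rfl
  refine ⟨{
    L := Lop, ell := ellop, h := h, x0 := x0, m := mm, j := jj, N := N, μ := μ, ν := ν
    es := e 0, e0 := e 1, en := fun n => e (n + 2)
    hL := hh, L_e0 := rfl, x0_ne := ?_, ell_e0 := hell0, L_es := Lop_zero, es_ne := ?_
    faithful := ?_, N_m := ?_, N_j := ?_, N_μ := hNμ, cov := hcov, j_inj := ?_
    en_norm := fun n => (norm_e _).le, L_en := ?_, ell_en := ?_, dense := Lop_dense }⟩
  · rw [hx0']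
    intro h0
    have := norm_e (0 : ℕ)
    rw [h0, norm_zero] at this
    exact zero_ne_one this
  · intro h0
    have := norm_e (0 : ℕ)
    rw [h0, norm_zero] at this
    exact zero_ne_one this
  · intro f y hfy
    rw [hmm] at hfy
    exact m0_faithful f y (congrArg (fun t : XB => t.1.1) hfy)
  · intro f y
    rw [hmm, hN0]
    simp only [N₀, LinearMap.add_apply, LinearMap.comp_apply, LinearMap.fst_apply,
      LinearMap.snd_apply, map_zero, add_zero, hτ]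
    rfl
  · intro s
    rw [hjj, hN0]
    simp only [N₀, LinearMap.add_apply, LinearMap.comp_apply, LinearMap.fst_apply,
      LinearMap.snd_apply, map_zero, zero_add]
    rfl
  · intro s hs
    rw [hjj] at hs
    exact congrArg (fun t : XB => t.1.2) hs
  · have h1 : ∀ n : ℕ, ‖Lop (e (n + 2))‖ = 1 / ((n : ℝ) + 1 + 1) := by
      intro n
      rw [Lop_succ (n + 1), norm_smul, norm_e, mul_one, norm_inv, norm_cast_succ]
      push_cast
      rw [one_div]
    simp_rw [h1]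
    have h2 := (tendsto_one_div_add_atTop_nhds_zero_nat (𝕜 := ℝ)).comp (tendsto_add_atTop_nat 1)
    refine h2.congr (fun n => ?_)
    simp only [Function.comp]
    push_cast
    rfl
  · intro n
    simp [ellop]

end

end Q81TN
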