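import Pool.Agent.Q81.TN.NormA

/-! Classification of the Banach algebra norms. -/

set_option linter.unusedSectionVars false
set_option linter.deprecated false
set_option linter.unusedSimpArgs false

namespace Q81TN
open scoped ENNReal Topology
open Filter

/-- A Banach algebra norm on the complex algebra `A`. -/
structure IsBanachAlgebraNorm {A : Type} [Ring A] [Algebra ℂ A] (p : A → ℝ) : Prop where
  nonneg : ∀ a, 0 ≤ p a
  eq_zero_iff : ∀ a, p a = 0 ↔ a = 0
  add_le : ∀ a b, p (a + b) ≤ p a + p b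
  smul : ∀ (c : ℂ) a, p (c • a) = ‖c‖ * p a
  mul_le : ∀ a b, p (a * b) ≤ p a * p b
  complete : ∀ u : ℕ → A, (∀ ε > 0, ∃ n₀, ∀ m ≥ n₀, ∀ n ≥ n₀, p (u m - u n) < ε) →
    ∃ a, Tendsto (fun n => p (u n - a)) atTop (𝓝 0)

theorem IsBanachAlgebraNorm.comp {A : Type} [Ring A] [Algebra ℂ A] {p : A → ℝ}
    (hp : IsBanachAlgebraNorm p) : IsCompNorm p where
  nonneg := hp.nonneg
  eq_zero := fun x h => (hp.eq_zero_iff x).mp h
  add_le := hp.add_le
  smul := hp.smul
  complete := hp.complete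

noncomputable section

section general
variable {A V : Type} [Ring A] [Algebra ℂ A] {p : A → ℝ} (hp : IsBanachAlgebraNorm p)
  [NormedAddCommGroup V] [NormedSpace ℂ V] [CompleteSpace V]
include hp

theorem mul_tendsto_left (s : A) {u : ℕ → A} {w : A}
    (h : Tendsto (fun n => p (u n - w)) atTop (𝓝 0)) :
    Tendsto (fun n => p (s * u n - s * w)) atTop (𝓝 0) := by
  have h1 : Tendsto (fun n => p s * p (u n - w)) atTop (𝓝 0) := by simpa using h.const_mul (p s)
  refine squeeze_zero (fun n => hp.nonneg _) (fun n => ?_) h1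
  rw [← mul_sub]
  exact hp.mul_le _ _

theorem mul_tendsto_right (t : A) {u : ℕ → A} {w : A}
    (h : Tendsto (fun n => p (u n - w)) atTop (𝓝 0)) :
    Tendsto (fun n => p (u n * t - w * t)) atTop (𝓝 0) := by
  have h1 : Tendsto (fun n => p (u n - w) * p t) atTop (𝓝 0) := by simpa using h.mul_const (p t)
  refine squeeze_zero (fun n => hp.nonneg _) (fun n => ?_) h1
  rw [← sub_mul]
  exact hp.mul_le _ _

theorem corner_bound (T : V →ₗ[ℂ] A) (s t : A) (hT : ∀ v, s * T v * t = T v)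
    (hr : ∀ w, ∃ v, s * w * t = T v)
    (test : ∀ (u : ℕ → V) (b : V), Tendsto (fun n => ‖u n‖) atTop (𝓝 0) →
      Tendsto (fun n => p (T (u n) - T b)) atTop (𝓝 0) → T b = 0) :
    ∃ C, 0 ≤ C ∧ ∀ v, p (T v) ≤ C * ‖v‖ := by
  refine closed_graph (isCompNorm_norm V) hp.comp T (fun u w hu hw => ?_)
  have h1 := mul_tendsto_right hp t (mul_tendsto_left hp s hw)
  have h2 : Tendsto (fun n => p (T (u n) - s * w * t)) atTop (𝓝 0) := by
    refine h1.congr (fun n => ?_)
    rw [hT]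
  have h3 : w = s * w * t := hp.comp.lim_unique hw h2
  obtain ⟨v, hv⟩ := hr w
  rw [hv] at h2
  rw [h3, hv]
  exact test u v hu h2

theorem test_fn (T : V →ₗ[ℂ] A) (φ : V →L[ℂ] ℂ) (c : A) (hc : c ≠ 0) (B : ℝ)
    (h : ∀ v, p (φ v • c) ≤ B * p (T v)) {u : ℕ → V} {b : V}
    (hu : Tendsto (fun n => ‖u n‖) atTop (𝓝 0))
    (hub : Tendsto (fun n => p (T (u n) - T b)) atTop (𝓝 0)) : φ b = 0 := by
  have h1 : ∀ n, p (φ b • c) ≤ B * p (T (u n) - T b) + ‖φ‖ * ‖u n‖ * p c := by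
    intro n
    have h2 : φ b • c = φ (u n) • c - φ (u n - b) • c := by
      rw [map_sub, sub_smul]; abel
    rw [h2]
    refine (hp.comp.sub_le _ _).trans ?_
    rw [add_comm]
    refine add_le_add ?_ ?_
    · rw [← map_sub]; exact h _
    · rw [hp.smul]
      exact mul_le_mul_of_nonneg_right (φ.le_opNorm _) (hp.nonneg _)
  have h2 : Tendsto (fun n => B * p (T (u n) - T b) + ‖φ‖ * ‖u n‖ * p c) atTop (𝓝 (B * 0 + ‖φ‖ * 0 * p c)) :=
    (hub.const_mul B).add ((hu.const_mul ‖φ‖).mul_const (p c))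
  simp only [mul_zero, zero_mul, add_zero] at h2
  have h3 : p (φ b • c) ≤ 0 := ge_of_tendsto' h2 h1
  have h4 : φ b • c = 0 := (hp.eq_zero_iff _).mp (le_antisymm h3 (hp.nonneg _))
  exact (smul_eq_zero.mp h4).resolve_right hc

end general

variable {E S X K : Type} [NormedAddCommGroup E] [NormedSpace ℂ E]
  [NormedAddCommGroup S] [NormedSpace ℂ S] [NormedAddCommGroup X] [NormedSpace ℂ X]

/-- The structure maps of the algebra. -/
def M1 (D : Dat E S X K) : Maps E S X K := ⟨D.m, D.j.comp D.L, D.μ⟩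

/-- The operator `L̃`. -/
def Lt (D : Dat E S X K) : E →L[ℂ] S := D.L + D.ell.smulRight D.x0

theorem Lt_apply (D : Dat E S X K) (f : E) : Lt D f = D.L f + D.ell f • D.x0 := rfl

/-- The structure maps in the second norm. -/
def M2 (D : Dat E S X K) : Maps E S X K :=
  ⟨D.m, D.j.comp (Lt D),
    D.μ + (ContinuousLinearMap.compL ℂ (L1 K) S X D.j).comp D.ν⟩

section classify
variable [CompleteSpace E] [CompleteSpace S] [CompleteSpace X]
variable (D : Dat E S X K) {p : TA (M1 D) → ℝ} (hp : IsBanachAlgebraNorm p)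

theorem uz_ne : (u_z : TA (M1 D)) ≠ 0 := by
  intro h
  have := congrArg TA.z h
  simp [u_z] at this

theorem uw_ne : (u_w : TA (M1 D)) ≠ 0 := by
  intro h
  have := congrArg TA.w h
  simp [u_w] at this

theorem in_x_eq_zero {v : X} (h : (in_x v : TA (M1 D)) = 0) : v = 0 := by
  have := congrArg TA.x h
  simpa [in_x_apply] using this

include hp

theorem bound_p : ∃ C, 0 ≤ C ∧ ∀ v, p (in_p v) ≤ C * ‖v‖ := by
  refine corner_bound hp in_p u_rl u_ra (fun v => ?_) (fun w => ⟨w.p, cut_p w⟩)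
    (fun u b hu hub => ?_)
  · rw [cut_p]; rfl
  · have : b = 0 := by
      ext k
      refine test_fn hp in_p (coord k) u_z (uz_ne D) (p (in_d (e k))) (fun v => ?_) hu hub
      rw [coord_apply, ← pair_e_right, ← mul_pd]
      exact (hp.mul_le _ _).trans (mul_comm _ _).le
    rw [this, map_zero]

theorem bound_d : ∃ C, 0 ≤ C ∧ ∀ v, p (in_d v) ≤ C * ‖v‖ := by
  refine corner_bound hp in_d u_ra u_rc (fun v => ?_) (fun w => ⟨w.d, cut_d w⟩)
    (fun u b hu hub => ?_)
  · rw [cut_d]; rfl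
  · have : b = 0 := by
      ext k
      refine test_fn hp in_d (coord k) u_z (uz_ne D) (p (in_p (e k))) (fun v => ?_) hu hub
      rw [coord_apply, ← pair_e_left, ← mul_pd]
      exact hp.mul_le _ _
    rw [this, map_zero]

theorem bound_q : ∃ C, 0 ≤ C ∧ ∀ v, p (in_q v) ≤ C * ‖v‖ := by
  refine corner_bound hp in_q u_ra u_rj (fun v => ?_) (fun w => ⟨w.q, cut_q w⟩)
    (fun u b hu hub => ?_)
  · rw [cut_q]; rfl
  · have : b = 0 := by
      ext k
      refine test_fn hp in_q (coord k) u_w (uw_ne D) (p (in_g (e k))) (fun v => ?_) hu hub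
      rw [coord_apply, ← pair_e_left, ← mul_gq]
      exact hp.mul_le _ _
    rw [this, map_zero]

theorem bound_g : ∃ C, 0 ≤ C ∧ ∀ v, p (in_g v) ≤ C * ‖v‖ := by
  refine corner_bound hp in_g u_rf u_ra (fun v => ?_) (fun w => ⟨w.g, cut_g w⟩)
    (fun u b hu hub => ?_)
  · rw [cut_g]; rfl
  · have : b = 0 := by
      ext k
      refine test_fn hp in_g (coord k) u_w (uw_ne D) (p (in_q (e k))) (fun v => ?_) hu hub
      rw [coord_apply, ← pair_e_right, ← mul_gq]
      exact (hp.mul_le _ _).trans (mul_comm _ _).le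
    rw [this, map_zero]

/-- The key estimate from the cover. -/
theorem bound_x : ∃ C, 0 ≤ C ∧ ∀ v, p (in_x v) ≤ C * (‖v‖ + ‖D.N v‖) := by
  obtain ⟨C, hC, hP⟩ := bound_p D hp
  obtain ⟨C', hC', hQ⟩ := bound_q D hp
  refine ⟨C * C', mul_nonneg hC hC', fun v => ?_⟩
  by_cases hv : v = 0
  · subst hv
    rw [map_zero, hp.comp.zero]
    positivity
  have hnv : 0 < ‖v‖ := norm_pos_iff.mpr hv
  set R : ℝ := ‖v‖ + ‖D.N v‖ with hR
  have hRpos : 0 < R := add_pos_of_pos_of_nonneg hnv (norm_nonneg _)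
  have hRn : ‖((R⁻¹ : ℝ) : ℂ)‖ = R⁻¹ := by
    rw [Complex.norm_real, Real.norm_eq_abs, abs_of_pos (inv_pos.mpr hRpos)]
  obtain ⟨k, hk⟩ := D.cov (((R⁻¹ : ℝ) : ℂ) • v) (by
    rw [norm_smul, hRn, inv_mul_le_iff₀ hRpos, mul_one]
    exact le_add_of_nonneg_right (norm_nonneg _)) (by
    rw [map_smul, norm_smul, hRn, inv_mul_le_iff₀ hRpos, mul_one]
    exact le_add_of_nonneg_left (norm_nonneg _))
  have h1 : p (in_x (((R⁻¹ : ℝ) : ℂ) • v)) ≤ C * C' := by
    have h2 : (in_p (e k) * in_q (e k) : TA (M1 D)) = in_x (((R⁻¹ : ℝ) : ℂ) • v) := by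
      rw [mul_pq, ← hk]; rfl
    rw [← h2]
    refine (hp.mul_le _ _).trans ?_
    have h3 := hP (e k)
    have h4 := hQ (e k)
    rw [norm_e, mul_one] at h3 h4
    exact mul_le_mul h3 h4 (hp.nonneg _) hC
  rw [map_smul, hp.smul, hRn, inv_mul_le_iff₀ hRpos] at h1
  linarith [h1]

theorem bound_f : ∃ C, 0 ≤ C ∧ ∀ v, p (in_f v) ≤ C * ‖v‖ := by
  obtain ⟨C, hC, hX⟩ := bound_x D hp
  refine corner_bound hp in_f u_rl u_ri (fun v => ?_) (fun w => ⟨w.f, cut_f w⟩)
    (fun u b hu hub => ?_)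
  · rw [cut_f]; rfl
  · have hx0 : D.h D.x0 = 0 := by rw [← D.L_e0, D.hL, D.ell_e0]
    have h1 := mul_tendsto_right hp (in_y D.x0) hub
    have h2 : Tendsto (fun n => p (in_x (D.m (u n) D.x0) - (0 : TA (M1 D)))) atTop (𝓝 0) := by
      have h3 : Tendsto (fun n => C * (‖D.m‖ * ‖u n‖ * ‖D.x0‖)) atTop (𝓝 (C * (‖D.m‖ * 0 * ‖D.x0‖))) :=
        ((hu.const_mul ‖D.m‖).mul_const ‖D.x0‖).const_mul C
      simp only [mul_zero, zero_mul] at h3
      refine squeeze_zero (fun n => hp.nonneg _) (fun n => ?_) h3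
      rw [sub_zero]
      refine (hX _).trans ?_
      rw [D.N_m, hx0, zero_smul, norm_zero, add_zero]
      exact mul_le_mul_of_nonneg_left (D.m.le_opNorm₂ _ _) hC
    have h4 : Tendsto (fun n => p (in_x (D.m (u n) D.x0) - (in_x (D.m b D.x0) : TA (M1 D))))
        atTop (𝓝 0) := by
      refine h1.congr (fun n => ?_)
      rw [mul_fy, mul_fy]; rfl
    have h5 := hp.comp.lim_unique h4 h2
    have h6 := in_x_eq_zero D h5
    rcases D.faithful _ _ h6 with h7 | h7
    · rw [h7, map_zero]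
    · exact absurd h7 D.x0_ne

end classify

end

end Q81TN
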