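import Pool.Agent.Q81.TN.Sq

/-! The cover theorem: every linear map `N₀ : X₀ → S` (typically discontinuous) between Banach
spaces extends to a linear map `N` on `X₀ × ℓ¹(I × I)` for which there is a bounded bilinear map
`μ : ℓ¹(I) × ℓ¹(I) → X₀ × ℓ¹(I × I)` with `N ∘ μ` bounded, whose values `μ (e i) (e i)` exhaust all
the vectors `v` with `‖v‖ ≤ 1` and `‖N v‖ ≤ 1`. -/

set_option linter.unusedSectionVars false
set_option linter.deprecated false

namespace Q81TN
open scoped ENNReal Topology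
open Filter

/-- The index set. -/
inductive Ix (X₀ : Type) : Type
  | nil : X₀ → Ix X₀
  | mk : X₀ → (ℕ → ℂ) → (ℕ → Ix X₀) → (ℕ → Ix X₀) → Ix X₀

noncomputable section

variable {X₀ S : Type} [NormedAddCommGroup X₀] [NormedSpace ℂ X₀] [CompleteSpace X₀]
  [NormedAddCommGroup S] [NormedSpace ℂ S] [CompleteSpace S]

/-- The vector coded by an index. -/
def val : Ix X₀ → X₀ × L1 (Ix X₀ × Ix X₀)
  | .nil x => (x, 0)
  | .mk x c p q => (x, ∑' n, c n • e (p n, q n))

/-- Hereditary sets of indices. -/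
def Hered (J : Set (Ix X₀)) : Prop :=
  ∀ x c p q, Ix.mk x c p q ∈ J → ∀ n : ℕ, p n ∈ J ∧ q n ∈ J

omit [CompleteSpace X₀] [NormedSpace ℂ X₀] in
theorem val_supp {J : Set (Ix X₀)} (hJ : Hered J) {i : Ix X₀} (hi : i ∈ J) :
    rs J (val i).2 = (val i).2 := by
  cases i with
  | nil x => simp [val]
  | mk x c p q =>
    have h := hJ x c p q hi
    simp only [val]
    by_cases hs : Summable fun n => c n • e (p n, q n)
    · rw [ContinuousLinearMap.map_tsum _ hs]
      refine tsum_congr fun n => ?_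
      simp [(h n).1, (h n).2]
    · rw [tsum_eq_zero_of_not_summable hs, map_zero]

omit [CompleteSpace X₀] [NormedSpace ℂ X₀] in
theorem val_surjective (v : X₀ × L1 (Ix X₀ × Ix X₀)) : ∃ i, val i = v := by
  classical
  obtain ⟨x, f⟩ := v
  by_cases hf : ∃ p, f p ≠ 0
  · obtain ⟨p₀, hp₀⟩ := hf
    have hcount : (Function.support fun p => ‖f p‖).Countable := (summable_norm f).countable_support
    set s : Set (Ix X₀ × Ix X₀) := Function.support fun p => ‖f p‖ with hs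
    have : Countable s := hcount.to_subtype
    obtain ⟨g, hg⟩ := exists_injective_nat s
    let c : ℕ → ℂ := Function.extend g (fun p => f (p : Ix X₀ × Ix X₀)) 0
    let P : ℕ → Ix X₀ × Ix X₀ := Function.extend g (fun p => (p : Ix X₀ × Ix X₀)) (fun _ => p₀)
    have h1 : HasSum (fun n => c n • e (P n)) f := by
      rw [← hg.hasSum_iff]
      · have h2 : ((fun n => c n • e (P n)) ∘ g) =
            fun p : s => f (p : Ix X₀ × Ix X₀) • e (p : Ix X₀ × Ix X₀) := by
          funext p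
          simp only [Function.comp, c, P]
          rw [hg.extend_apply, hg.extend_apply]
        rw [h2]
        have h3 := hasSum_e f
        have h4 : Function.support (fun p => f p • e p) ⊆ s := by
          intro p hp
          rw [Function.mem_support] at hp
          rw [hs, Function.mem_support, norm_ne_zero_iff]
          intro h0
          exact hp (by rw [h0, zero_smul])
        exact (hasSum_subtype_iff_of_support_subset h4).mpr h3
      · intro n hn
        have : c n = 0 := by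
          simp only [c]
          rw [Function.extend_apply']
          · rfl
          · rintro ⟨p, hp⟩
            exact hn ⟨p, hp⟩
        rw [this, zero_smul]
    refine ⟨Ix.mk x c (fun n => (P n).1) (fun n => (P n).2), ?_⟩
    simp only [val]
    rw [h1.tsum_eq]
  · push_neg at hf
    refine ⟨Ix.nil x, ?_⟩
    simp only [val]
    congr 1
    ext p
    simp [hf p]

/-- Truncated coding. -/
def xhat (N : X₀ × L1 (Ix X₀ × Ix X₀) →ₗ[ℂ] S) (i : Ix X₀) : X₀ × L1 (Ix X₀ × Ix X₀) :=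
  open Classical in if ‖val i‖ ≤ 1 ∧ ‖N (val i)‖ ≤ 1 then val i else 0

omit [CompleteSpace X₀] [CompleteSpace S] in
theorem norm_xhat_le (N : X₀ × L1 (Ix X₀ × Ix X₀) →ₗ[ℂ] S) (i : Ix X₀) : ‖xhat N i‖ ≤ 1 := by
  classical
  unfold xhat
  split_ifs with h
  · exact h.1
  · simp

omit [CompleteSpace X₀] [CompleteSpace S] in
theorem norm_N_xhat_le (N : X₀ × L1 (Ix X₀ × Ix X₀) →ₗ[ℂ] S) (i : Ix X₀) :
    ‖N (xhat N i)‖ ≤ 1 := by
  classical
  unfold xhat
  split_ifs with h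
  · exact h.2
  · simp

omit [CompleteSpace X₀] [CompleteSpace S] in
theorem norm_xhat_snd_le (N : X₀ × L1 (Ix X₀ × Ix X₀) →ₗ[ℂ] S) (i : Ix X₀) :
    ‖(xhat N i).2‖ ≤ 1 := (norm_snd_le _).trans (norm_xhat_le N i)

omit [CompleteSpace X₀] [CompleteSpace S] in
theorem xhat_supp (N : X₀ × L1 (Ix X₀ × Ix X₀) →ₗ[ℂ] S) {J : Set (Ix X₀)} (hJ : Hered J)
    {i : Ix X₀} (hi : i ∈ J) : rs J (xhat N i).2 = (xhat N i).2 := by
  classical
  unfold xhat
  split_ifs with h
  · exact val_supp hJ hi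
  · simp

/-- The linearised product. -/
def muHat (N : X₀ × L1 (Ix X₀ × Ix X₀) →ₗ[ℂ] S) :
    L1 (Ix X₀ × Ix X₀) →L[ℂ] X₀ × L1 (Ix X₀ × Ix X₀) :=
  (ContinuousLinearMap.inr ℂ X₀ (L1 (Ix X₀ × Ix X₀))).comp off +
    (lift (xhat N) 1 (norm_xhat_le N)).comp dg

/-- The values of `N` on products. -/
def nuHat (N : X₀ × L1 (Ix X₀ × Ix X₀) →ₗ[ℂ] S) : L1 (Ix X₀ × Ix X₀) →L[ℂ] S :=
  (lift (fun i => N (xhat N i)) 1 (norm_N_xhat_le N)).comp dg

theorem muHat_snd (N : X₀ × L1 (Ix X₀ × Ix X₀) →ₗ[ℂ] S) (z : L1 (Ix X₀ × Ix X₀)) :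
    (muHat N z).2 = off z + lift (fun i => (xhat N i).2) 1 (norm_xhat_snd_le N) (dg z) := by
  have := ext_e_apply ((ContinuousLinearMap.snd ℂ X₀ (L1 (Ix X₀ × Ix X₀))).comp
    (lift (xhat N) 1 (norm_xhat_le N))) (lift (fun i => (xhat N i).2) 1 (norm_xhat_snd_le N))
    (fun i => by simp) (dg z)
  simp only [muHat, ContinuousLinearMap.add_apply, ContinuousLinearMap.comp_apply,
    ContinuousLinearMap.inr_apply, Prod.snd_add]
  rw [← this]
  rfl

/-- Projection onto the part supported in `J × J`. -/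
def pj (J : Set (Ix X₀)) :
    X₀ × L1 (Ix X₀ × Ix X₀) →L[ℂ] X₀ × L1 (Ix X₀ × Ix X₀) :=
  (ContinuousLinearMap.fst ℂ X₀ (L1 (Ix X₀ × Ix X₀))).prod
    ((rs J).comp (ContinuousLinearMap.snd ℂ X₀ (L1 (Ix X₀ × Ix X₀))))

omit [CompleteSpace X₀] in
theorem pj_apply (J : Set (Ix X₀)) (v : X₀ × L1 (Ix X₀ × Ix X₀)) :
    pj J v = (v.1, rs J v.2) := rfl

omit [CompleteSpace X₀] in
theorem pj_eq_iff (J : Set (Ix X₀)) (v : X₀ × L1 (Ix X₀ × Ix X₀)) :
    pj J v = v ↔ rs J v.2 = v.2 := by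
  rw [pj_apply, Prod.ext_iff]
  simp

omit [CompleteSpace X₀] in
theorem pj_mono {J J' : Set (Ix X₀)} (h : J ⊆ J') {v : X₀ × L1 (Ix X₀ × Ix X₀)}
    (hv : pj J v = v) : pj J' v = v := by
  rw [pj_eq_iff] at hv ⊢
  rw [← hv, rs_rs h]

theorem lift_congr {ι V : Type} [NormedAddCommGroup V] [NormedSpace ℂ V] [CompleteSpace V]
    (J : Set ι) {w w' : ι → V} (hw : ∀ i, ‖w i‖ ≤ 1) (hw' : ∀ i, ‖w' i‖ ≤ 1)
    (h : ∀ i ∈ J, w i = w' i) (d : L1 ι) (hd : rv J d = d) :
    lift w 1 hw d = lift w' 1 hw' d := by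
  rw [← hd]
  have := ext_e_apply ((lift w 1 hw).comp (rv J)) ((lift w' 1 hw').comp (rv J))
    (fun i => by
      by_cases hi : i ∈ J
      · simp [hi, h i hi]
      · simp [hi]) d
  simpa using this

theorem dg_supp {J : Set (Ix X₀)} {z : L1 (Ix X₀ × Ix X₀)} (hz : rs J z = z) :
    rv J (dg z) = dg z := by
  rw [← dg_rs, hz]

/-- Agreement of the products. -/
theorem muHat_congr {N N' : X₀ × L1 (Ix X₀ × Ix X₀) →ₗ[ℂ] S} {J : Set (Ix X₀)}
    (hJ : Hered J) (h : ∀ v, pj J v = v → N v = N' v) {z : L1 (Ix X₀ × Ix X₀)}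
    (hz : rs J z = z) : muHat N z = muHat N' z := by
  classical
  have h1 : ∀ i ∈ J, xhat N i = xhat N' i := by
    intro i hi
    unfold xhat
    rw [h (val i) ((pj_eq_iff J _).mpr (val_supp hJ hi))]
  simp only [muHat, ContinuousLinearMap.add_apply, ContinuousLinearMap.comp_apply]
  rw [lift_congr J (norm_xhat_le N) (norm_xhat_le N') h1 (dg z) (dg_supp hz)]

theorem nuHat_congr {N N' : X₀ × L1 (Ix X₀ × Ix X₀) →ₗ[ℂ] S} {J : Set (Ix X₀)}
    (hJ : Hered J) (h : ∀ v, pj J v = v → N v = N' v) {z : L1 (Ix X₀ × Ix X₀)}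
    (hz : rs J z = z) : nuHat N z = nuHat N' z := by
  classical
  have h1 : ∀ i ∈ J, N (xhat N i) = N' (xhat N' i) := by
    intro i hi
    unfold xhat
    rw [h (val i) ((pj_eq_iff J _).mpr (val_supp hJ hi))]
    split_ifs
    · exact h (val i) ((pj_eq_iff J _).mpr (val_supp hJ hi))
    · simp
  simp only [nuHat, ContinuousLinearMap.comp_apply]
  rw [lift_congr J (norm_N_xhat_le N) (norm_N_xhat_le N') h1 (dg z) (dg_supp hz)]

omit [CompleteSpace X₀] [CompleteSpace S] in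
/-- A functional graph extends to a linear map. -/
theorem exists_linear_of_graph {X S : Type} [AddCommGroup X] [Module ℂ X] [AddCommGroup S]
    [Module ℂ S] (Γ : Submodule ℂ (X × S)) (h : ∀ s, ((0 : X), s) ∈ Γ → s = 0) :
    ∃ N : X →ₗ[ℂ] S, ∀ v s, (v, s) ∈ Γ → N v = s := by
  set f : Γ →ₗ[ℂ] X := (LinearMap.fst ℂ X S).comp Γ.subtype with hf
  have hker : LinearMap.ker f = ⊥ := by
    rw [LinearMap.ker_eq_bot']
    rintro ⟨⟨v, s⟩, hvs⟩ h0
    have hv : v = 0 := h0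
    subst hv
    have := h s hvs
    subst this
    rfl
  obtain ⟨g, hg⟩ := f.exists_leftInverse_of_injective hker
  refine ⟨(LinearMap.snd ℂ X S).comp (Γ.subtype.comp g), fun v s hvs => ?_⟩
  have h1 : g (f ⟨(v, s), hvs⟩) = ⟨(v, s), hvs⟩ := LinearMap.congr_fun hg _
  have h2 : f ⟨(v, s), hvs⟩ = v := rfl
  rw [h2] at h1
  simp [h1]

/-- Good pairs. -/
structure Good (N₀ : X₀ →ₗ[ℂ] S) (a : Set (Ix X₀) × (X₀ × L1 (Ix X₀ × Ix X₀) →ₗ[ℂ] S)) : Prop where
  hered : Hered a.1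
  ext : ∀ x, a.2 (x, 0) = N₀ x
  eqn : ∀ z ∈ FR (Ix X₀), rs a.1 z = z → a.2 (muHat a.2 z) = nuHat a.2 z

/-- The order on pairs. -/
def rel (a b : Set (Ix X₀) × (X₀ × L1 (Ix X₀ × Ix X₀) →ₗ[ℂ] S)) : Prop :=
  a.1 ⊆ b.1 ∧ ∀ v, pj a.1 v = v → b.2 v = a.2 v

omit [CompleteSpace X₀] [CompleteSpace S] in
theorem rel_trans {a b c : Set (Ix X₀) × (X₀ × L1 (Ix X₀ × Ix X₀) →ₗ[ℂ] S)}
    (h1 : rel a b) (h2 : rel b c) : rel a c :=
  ⟨h1.1.trans h2.1, fun v hv => (h2.2 v (pj_mono h1.1 hv)).trans (h1.2 v hv)⟩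

omit [CompleteSpace X₀] [CompleteSpace S] in
theorem rel_refl (a : Set (Ix X₀) × (X₀ × L1 (Ix X₀ × Ix X₀) →ₗ[ℂ] S)) : rel a a :=
  ⟨le_rfl, fun _ _ => rfl⟩

/-- Finite subsets of the union of a chain are contained in a member of the chain. -/
theorem chain_finset {c : Set (Set (Ix X₀) × (X₀ × L1 (Ix X₀ × Ix X₀) →ₗ[ℂ] S))}
    (hc : ∀ a ∈ c, ∀ b ∈ c, rel a b ∨ rel b a) {a : _} (ha : a ∈ c) (F : Finset (Ix X₀)) :
    ∃ b ∈ c, rel a b ∧ ∀ k ∈ F, (∃ d ∈ c, k ∈ d.1) → k ∈ b.1 := by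
  classical
  induction F using Finset.induction_on with
  | empty => exact ⟨a, ha, rel_refl a, by simp⟩
  | insert k F _ ih =>
    obtain ⟨b, hb, hab, hF⟩ := ih
    by_cases hk : ∃ d ∈ c, k ∈ d.1
    · obtain ⟨d, hd, hkd⟩ := hk
      rcases hc b hb d hd with h | h
      · refine ⟨d, hd, rel_trans hab h, ?_⟩
        intro j hj hj'
        rcases Finset.mem_insert.mp hj with rfl | hj
        · exact hkd
        · exact h.1 (hF j hj hj')
      · refine ⟨b, hb, hab, ?_⟩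
        intro j hj hj'
        rcases Finset.mem_insert.mp hj with rfl | hj
        · exact h.1 hkd
        · exact hF j hj hj'
    · refine ⟨b, hb, hab, ?_⟩
      intro j hj hj'
      rcases Finset.mem_insert.mp hj with rfl | hj
      · exact absurd hj' hk
      · exact hF j hj hj'

/-- Localisation of a finite-rank element on a member of the chain. -/
theorem localize {c : Set (Set (Ix X₀) × (X₀ × L1 (Ix X₀ × Ix X₀) →ₗ[ℂ] S))}
    (hc : ∀ a ∈ c, ∀ b ∈ c, rel a b ∨ rel b a) (hh : ∀ a ∈ c, Hered a.1)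
    {a : _} (ha : a ∈ c) (N : X₀ × L1 (Ix X₀ × Ix X₀) →ₗ[ℂ] S)
    {z : L1 (Ix X₀ × Ix X₀)} (hz : z ∈ FR (Ix X₀)) (hzJ : rs (⋃ d ∈ c, d.1) z = z)
    (hmu : pj a.1 (muHat N z) = muHat N z) :
    ∃ b ∈ c, rel a b ∧ rs b.1 z = z := by
  classical
  obtain ⟨W, hW, hrow⟩ := hz
  obtain ⟨F, hF⟩ := small_coord W (ε := 1 / 4) (by norm_num)
  obtain ⟨b, hb, hab, hFb⟩ := chain_finset hc ha F
  refine ⟨b, hb, hab, ?_⟩
  have hmu' : rs b.1 (muHat N z).2 = (muHat N z).2 := by
    rw [← pj_eq_iff]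
    exact pj_mono hab.1 hmu
  rw [muHat_snd] at hmu'
  refine tail b.1 (fun i => (xhat N i).2) (norm_xhat_snd_le N)
    (fun i hi => xhat_supp N (hh b hb) hi) z (fun k hk => ?_) hmu'
  by_cases hkF : k ∈ F
  · have hkJ : k ∉ (⋃ d ∈ c, d.1) := by
      intro hcon
      simp only [Set.mem_iUnion, exists_prop] at hcon
      exact hk (hFb k hkF hcon)
    have : dg z k = 0 := by
      rw [dg_apply, ← hzJ]
      exact rs_apply _ _ _ _ (fun h => hkJ h.1)
    rw [this]
    simp only [norm_zero]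
    positivity
  · rw [dg_apply, ← row_apply]
    exact hF k hkF _ (hrow k)

/-- Upper bounds of chains. -/
theorem chain_bound (N₀ : X₀ →ₗ[ℂ] S)
    {c : Set (Set (Ix X₀) × (X₀ × L1 (Ix X₀ × Ix X₀) →ₗ[ℂ] S))}
    (hg : ∀ a ∈ c, Good N₀ a) (hc : ∀ a ∈ c, ∀ b ∈ c, rel a b ∨ rel b a) (hne : c.Nonempty) :
    ∃ u, Good N₀ u ∧ ∀ a ∈ c, rel a u := by
  classical
  obtain ⟨a₀, ha₀⟩ := hne
  set J : Set (Ix X₀) := ⋃ d ∈ c, d.1 with hJ
  have hJmem : ∀ {k}, k ∈ J ↔ ∃ d ∈ c, k ∈ d.1 := by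
    intro k
    simp [hJ]
  -- the preliminary map
  let Γ₁ : Submodule ℂ ((X₀ × L1 (Ix X₀ × Ix X₀)) × S) :=
    { carrier := {t | ∃ a ∈ c, pj a.1 t.1 = t.1 ∧ t.2 = a.2 t.1}
      add_mem' := by
        rintro ⟨v, s⟩ ⟨v', s'⟩ ⟨a, ha, hv, hs⟩ ⟨b, hb, hv', hs'⟩
        simp only at hv hs hv' hs'
        rcases hc a ha b hb with h | h
        · refine ⟨b, hb, ?_, ?_⟩
          · simp only [Prod.fst_add, map_add, pj_mono h.1 hv, hv']
          · simp only [Prod.snd_add, Prod.fst_add, map_add, hs', hs, h.2 v hv]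
        · refine ⟨a, ha, ?_, ?_⟩
          · simp only [Prod.fst_add, map_add, pj_mono h.1 hv', hv]
          · simp only [Prod.snd_add, Prod.fst_add, map_add, hs', hs, h.2 v' hv']
      zero_mem' := ⟨a₀, ha₀, by simp, by simp⟩
      smul_mem' := by
        rintro r ⟨v, s⟩ ⟨a, ha, hv, hs⟩
        simp only at hv hs
        exact ⟨a, ha, by simp only [Prod.smul_fst, map_smul, hv],
          by simp only [Prod.smul_snd, Prod.smul_fst, map_smul, hs]⟩ }
  have hΓ₁ : ∀ {v s}, (v, s) ∈ Γ₁ ↔ ∃ a ∈ c, pj a.1 v = v ∧ s = a.2 v := Iff.rfl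
  obtain ⟨N', hN'⟩ := exists_linear_of_graph Γ₁ (by
    rintro s ⟨a, _, _, hs⟩
    simpa using hs)
  have hN'a : ∀ a ∈ c, ∀ v, pj a.1 v = v → N' v = a.2 v := fun a ha v hv =>
    hN' v (a.2 v) ⟨a, ha, hv, rfl⟩
  -- the second graph
  let D : Submodule ℂ (L1 (Ix X₀ × Ix X₀)) :=
    FR (Ix X₀) ⊓ LinearMap.ker ((rs J : L1 (Ix X₀ × Ix X₀) →ₗ[ℂ] _) - LinearMap.id)
  have hD : ∀ {z}, z ∈ D ↔ z ∈ FR (Ix X₀) ∧ rs J z = z := by
    intro z
    simp only [D, Submodule.mem_inf, LinearMap.mem_ker, LinearMap.sub_apply, LinearMap.id_apply,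
      sub_eq_zero]
    rfl
  let T : L1 (Ix X₀ × Ix X₀) →ₗ[ℂ] (X₀ × L1 (Ix X₀ × Ix X₀)) × S :=
    ((muHat N' : _ →ₗ[ℂ] _)).prod (nuHat N' : _ →ₗ[ℂ] _)
  have hT : ∀ z, T z = (muHat N' z, nuHat N' z) := fun z => rfl
  obtain ⟨N, hN⟩ := exists_linear_of_graph (Γ₁ ⊔ D.map T) (by
    intro s hs
    obtain ⟨⟨v, s₁⟩, hv, t, ht, hsum⟩ := Submodule.mem_sup.mp hs
    obtain ⟨z, hz, rfl⟩ := ht
    obtain ⟨a, ha, hva, hsa⟩ := hΓ₁.mp hv
    obtain ⟨hzF, hzJ⟩ := hD.mp hz
    rw [hT] at hsum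
    have h1 : v + muHat N' z = 0 := congrArg Prod.fst hsum
    have h2 : s₁ + nuHat N' z = s := congrArg Prod.snd hsum
    have h3 : muHat N' z = -v := (neg_eq_of_add_eq_zero_right h1).symm
    obtain ⟨b, hb, hab, hzb⟩ := localize hc (fun a ha => (hg a ha).hered) ha N' hzF hzJ
      (by rw [h3, map_neg, hva])
    have h4 := (hg b hb).eqn z hzF hzb
    have h5 : muHat b.2 z = muHat N' z :=
      muHat_congr (hg b hb).hered (fun v hv => (hN'a b hb v hv).symm) hzb
    have h6 : nuHat b.2 z = nuHat N' z :=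
      nuHat_congr (hg b hb).hered (fun v hv => (hN'a b hb v hv).symm) hzb
    rw [h5, h6, h3, map_neg, hab.2 v hva, ← hsa] at h4
    rw [← h2, ← h4, add_neg_cancel])
  have hNa : ∀ a ∈ c, ∀ v, pj a.1 v = v → N v = a.2 v := fun a ha v hv =>
    hN v (a.2 v) (Submodule.mem_sup_left ⟨a, ha, hv, rfl⟩)
  have hher : Hered J := by
    intro x cc p q hm n
    obtain ⟨d, hd, hm⟩ := hJmem.mp hm
    have := (hg d hd).hered x cc p q hm n
    exact ⟨hJmem.mpr ⟨d, hd, this.1⟩, hJmem.mpr ⟨d, hd, this.2⟩⟩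
  refine ⟨(J, N), ⟨hher, ?_, ?_⟩, ?_⟩
  · intro x
    have h1 : pj a₀.1 ((x, 0) : X₀ × L1 (Ix X₀ × Ix X₀)) = (x, 0) := by
      rw [pj_eq_iff]; simp
    have := hNa a₀ ha₀ (x, 0) h1
    simp only
    rw [this, (hg a₀ ha₀).ext]
  · intro z hz hzJ
    simp only at hzJ ⊢
    have h1 : N (muHat N' z) = nuHat N' z :=
      hN _ _ (Submodule.mem_sup_right ⟨z, hD.mpr ⟨hz, hzJ⟩, rfl⟩)
    -- `N` and `N'` agree on the values `val i`, `i ∈ J`
    have hval : ∀ i ∈ J, N (val i) = N' (val i) := by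
      intro i hi
      obtain ⟨d, hd, hid⟩ := hJmem.mp hi
      have h2 : pj d.1 (val i) = val i := (pj_eq_iff _ _).mpr (val_supp (hg d hd).hered hid)
      rw [hNa d hd _ h2, hN'a d hd _ h2]
    have hx : ∀ i ∈ J, xhat N i = xhat N' i := by
      intro i hi
      unfold xhat
      rw [hval i hi]
    have hx' : ∀ i ∈ J, N (xhat N i) = N' (xhat N' i) := by
      intro i hi
      unfold xhat
      rw [hval i hi]
      split_ifs
      · exact hval i hi
      · simp
    have h2 : muHat N z = muHat N' z := by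
      simp only [muHat, ContinuousLinearMap.add_apply, ContinuousLinearMap.comp_apply]
      rw [lift_congr J (norm_xhat_le N) (norm_xhat_le N') hx (dg z) (dg_supp hzJ)]
    have h3 : nuHat N z = nuHat N' z := by
      simp only [nuHat, ContinuousLinearMap.comp_apply]
      rw [lift_congr J (norm_N_xhat_le N) (norm_N_xhat_le N') hx' (dg z) (dg_supp hzJ)]
    rw [h2, h3, h1]
  · intro a ha
    exact ⟨fun k hk => hJmem.mpr ⟨a, ha, hk⟩, hNa a ha⟩

/-- The one-point extension step. -/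
theorem step (N₀ : X₀ →ₗ[ℂ] S) {J : Set (Ix X₀)}
    {N : X₀ × L1 (Ix X₀ × Ix X₀) →ₗ[ℂ] S} (hg : Good N₀ (J, N)) {i : Ix X₀} (hi : i ∉ J)
    (hher : Hered (insert i J)) (hvi : rs J (val i).2 = (val i).2) :
    Good N₀ (insert i J, N.comp (pj J : _ →ₗ[ℂ] _)) ∧
      rel (J, N) (insert i J, N.comp (pj J : _ →ₗ[ℂ] _)) := by
  classical
  have hJ : Hered J := hg.hered
  set N' : X₀ × L1 (Ix X₀ × Ix X₀) →ₗ[ℂ] S := N.comp (pj J : _ →ₗ[ℂ] _) with hN'
  have hN'v : ∀ v, N' v = N (pj J v) := fun v => rfl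
  have hval : ∀ k ∈ insert i J, pj J (val k) = val k := by
    intro k hk
    rw [pj_eq_iff]
    rcases Set.mem_insert_iff.mp hk with rfl | hk
    · exact hvi
    · exact val_supp hJ hk
  have hNval : ∀ k ∈ insert i J, N' (val k) = N (val k) := fun k hk => by
    rw [hN'v, hval k hk]
  have hx : ∀ k ∈ insert i J, xhat N' k = xhat N k := by
    intro k hk
    unfold xhat
    rw [hNval k hk]
  have hxJ : ∀ k ∈ insert i J, pj J (xhat N k) = xhat N k := by
    intro k hk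
    unfold xhat
    split_ifs
    · exact hval k hk
    · simp
  have hNx : ∀ k ∈ insert i J, N' (xhat N' k) = N (xhat N k) := by
    intro k hk
    rw [hx k hk, hN'v, hxJ k hk]
  refine ⟨⟨hher, ?_, ?_⟩, ⟨Set.subset_insert _ _, ?_⟩⟩
  · intro x
    simp only
    rw [hN'v]
    have : pj J ((x, 0) : X₀ × L1 (Ix X₀ × Ix X₀)) = (x, 0) := by
      rw [pj_eq_iff]; simp
    rw [this]
    exact hg.ext x
  · intro z hz hzJ
    simp only at hzJ ⊢
    have hd : rv (insert i J) (dg z) = dg z := dg_supp hzJ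
    have hsplit : dg z = rv J (dg z) + (dg z i) • e i := by
      conv_lhs => rw [← hd]
      have := ext_e_apply (rv (insert i J)) (rv J + (coord i).smulRight (e i)) (by
        intro k
        by_cases hk : k ∈ J
        · have hki : i ≠ k := fun h => hi (h ▸ hk)
          simp [hk, e_apply_ne hki]
        · by_cases hki : k = i
          · subst hki; simp [hk, e_apply_self]
          · simp [hk, hki, e_apply_ne (Ne.symm hki)]) (dg z)
      simpa using this
    have h1 : muHat N' z =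
        ContinuousLinearMap.inr ℂ X₀ (L1 (Ix X₀ × Ix X₀)) (off z) +
          lift (xhat N) 1 (norm_xhat_le N) (dg z) := by
      simp only [muHat, ContinuousLinearMap.add_apply, ContinuousLinearMap.comp_apply]
      rw [lift_congr (insert i J) (norm_xhat_le N') (norm_xhat_le N) hx (dg z) hd]
    have h2 : nuHat N' z = lift (fun k => N (xhat N k)) 1 (norm_N_xhat_le N) (dg z) := by
      simp only [nuHat, ContinuousLinearMap.comp_apply]
      rw [lift_congr (insert i J) (norm_N_xhat_le N') (norm_N_xhat_le N) hNx (dg z) hd]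
    have h3 : pj J (lift (xhat N) 1 (norm_xhat_le N) (dg z)) =
        lift (xhat N) 1 (norm_xhat_le N) (dg z) := by
      rw [← hd]
      have := ext_e_apply ((pj J).comp ((lift (xhat N) 1 (norm_xhat_le N)).comp (rv (insert i J))))
        ((lift (xhat N) 1 (norm_xhat_le N)).comp (rv (insert i J))) (by
        intro k
        by_cases hk : k ∈ insert i J
        · simp only [ContinuousLinearMap.comp_apply, rv_e, hk, if_true, lift_e]
          exact hxJ k hk
        · simp only [ContinuousLinearMap.comp_apply, rv_e, hk, if_false, map_zero]) (dg z)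
      simpa using this
    have h4 : pj J (ContinuousLinearMap.inr ℂ X₀ (L1 (Ix X₀ × Ix X₀)) (off z)) =
        ContinuousLinearMap.inr ℂ X₀ (L1 (Ix X₀ × Ix X₀)) (off (rs J z)) := by
      rw [pj_apply]
      simp [rs_off]
    have h5 : pj J (muHat N' z) = muHat N (rs J z) + (dg z i) • xhat N i := by
      rw [h1, map_add, h3, h4]
      conv_lhs => rw [hsplit]
      simp only [muHat, ContinuousLinearMap.add_apply, ContinuousLinearMap.comp_apply, map_add,
        map_smul, lift_e, dg_rs]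
      rw [add_assoc]
    have h6 := hg.eqn (rs J z) (FR_rs J hz) (rs_rs le_rfl z)
    simp only at h6
    rw [hN'v, h5, map_add, map_smul, h6, h2]
    conv_rhs => rw [hsplit]
    simp only [nuHat, ContinuousLinearMap.comp_apply, map_add, map_smul, lift_e, dg_rs]
  · intro v hv
    simp only at hv ⊢
    rw [hN'v, hv]

theorem exists_good (N₀ : X₀ →ₗ[ℂ] S) :
    ∃ N : X₀ × L1 (Ix X₀ × Ix X₀) →ₗ[ℂ] S, Good N₀ (Set.univ, N) := by
  classical
  obtain ⟨⟨⟨J, N⟩, hg⟩, hmax⟩ := exists_maximal_of_chains_bounded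
    (α := {a // Good (X₀ := X₀) (S := S) N₀ a}) (r := fun a b => rel a.1 b.1) (by
      intro c hc
      by_cases hne : c.Nonempty
      · obtain ⟨u, hu, hub⟩ := chain_bound N₀ (c := Subtype.val '' c) (by
          rintro _ ⟨a, _, rfl⟩; exact a.2) (by
          rintro _ ⟨a, ha, rfl⟩ _ ⟨b, hb, rfl⟩
          by_cases hab : a = b
          · subst hab; exact Or.inl (rel_refl _)
          · exact hc ha hb hab) (hne.image _)
        exact ⟨⟨u, hu⟩, fun a ha => hub _ ⟨a, ha, rfl⟩⟩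
      · have hg0 : Good N₀ ((∅ : Set (Ix X₀)),
            (N₀.comp (LinearMap.fst ℂ X₀ (L1 (Ix X₀ × Ix X₀))))) := by
          refine ⟨?_, ?_, ?_⟩
          · intro x c p q h
            exact absurd h (Set.notMem_empty _)
          · intro x; rfl
          · intro z _ hz
            have h0 : rs (∅ : Set (Ix X₀)) z = 0 := by
              have := ext_e_apply (rs (∅ : Set (Ix X₀))) 0 (fun p => by simp) z
              simpa using this
            simp only at hz ⊢
            rw [h0] at hz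
            subst hz
            simp
        refine ⟨⟨_, hg0⟩, fun a ha => absurd ⟨a, ha⟩ hne⟩)
    (fun h1 h2 => rel_trans h1 h2)
  have hgJ : Good N₀ (J, N) := hg
  have hJ : Hered J := hgJ.hered
  have key : ∀ i, Hered (insert i J) → rs J (val i).2 = (val i).2 → i ∈ J := by
    intro i hher hvi
    by_contra hi
    obtain ⟨h1, h2⟩ := step N₀ hgJ hi hher hvi
    have h3 := hmax ⟨_, h1⟩ h2
    exact hi (h3.1 (Set.mem_insert i J))
  have hall : ∀ i, i ∈ J := by
    intro i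
    induction i with
    | nil x =>
      apply key
      · intro x' c p q h n
        rcases Set.mem_insert_iff.mp h with h | h
        · cases h
        · exact ⟨Set.mem_insert_of_mem _ (hJ x' c p q h n).1,
            Set.mem_insert_of_mem _ (hJ x' c p q h n).2⟩
      · simp [val]
    | mk x c p q ihp ihq =>
      apply key
      · intro x' c' p' q' h n
        rcases Set.mem_insert_iff.mp h with h | h
        · rw [Ix.mk.injEq] at h
          obtain ⟨_, _, rfl, rfl⟩ := h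
          exact ⟨Set.mem_insert_of_mem _ (ihp n), Set.mem_insert_of_mem _ (ihq n)⟩
        · exact ⟨Set.mem_insert_of_mem _ (hJ x' c' p' q' h n).1,
            Set.mem_insert_of_mem _ (hJ x' c' p' q' h n).2⟩
      · simp only [val]
        by_cases hs : Summable fun n => c n • e (p n, q n)
        · rw [ContinuousLinearMap.map_tsum _ hs]
          refine tsum_congr fun n => ?_
          simp [ihp n, ihq n]
        · rw [tsum_eq_zero_of_not_summable hs, map_zero]
  have hJu : J = Set.univ := Set.eq_univ_of_forall hall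
  subst hJu
  exact ⟨N, hgJ⟩

/-- **Cover theorem.** -/
theorem cover (N₀ : X₀ →ₗ[ℂ] S) :
    ∃ (N : X₀ × L1 (Ix X₀ × Ix X₀) →ₗ[ℂ] S)
      (μ : L1 (Ix X₀) →L[ℂ] L1 (Ix X₀) →L[ℂ] X₀ × L1 (Ix X₀ × Ix X₀))
      (ν : L1 (Ix X₀) →L[ℂ] L1 (Ix X₀) →L[ℂ] S),
      (∀ x, N (x, 0) = N₀ x) ∧ (∀ a b, N (μ a b) = ν a b) ∧
      ∀ v, ‖v‖ ≤ 1 → ‖N v‖ ≤ 1 → ∃ i, μ (e i) (e i) = v := by
  classical
  obtain ⟨N, hN⟩ := exists_good N₀
  refine ⟨N, (ContinuousLinearMap.compL ℂ (L1 (Ix X₀)) (L1 (Ix X₀ × Ix X₀))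
      (X₀ × L1 (Ix X₀ × Ix X₀)) (muHat N)).comp tens,
    (ContinuousLinearMap.compL ℂ (L1 (Ix X₀)) (L1 (Ix X₀ × Ix X₀)) S (nuHat N)).comp tens,
    hN.ext, ?_, ?_⟩
  · intro a b
    have huniv : rs (Set.univ : Set (Ix X₀)) (tens a b) = tens a b := by
      have := ext_e_apply (rs (Set.univ : Set (Ix X₀)))
        (ContinuousLinearMap.id ℂ (L1 (Ix X₀ × Ix X₀))) (fun p => by simp) (tens a b)
      simpa using this
    exact hN.eqn (tens a b) (tens_mem_FR a b) huniv
  · intro v hv hNv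
    obtain ⟨i, hi⟩ := val_surjective v
    refine ⟨i, ?_⟩
    have h1 : muHat N (tens (e i) (e i)) = v := by
      simp only [muHat, ContinuousLinearMap.add_apply, ContinuousLinearMap.comp_apply, tens_e,
        off_e, dg_e, if_true, map_zero, zero_add, lift_e]
      unfold xhat
      rw [hi, if_pos ⟨hv, hNv⟩]
    exact h1

end

end Q81TN
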