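import Pool.Agent.Q81.TN.Sigma

/-! The dichotomy and the main theorem. -/

set_option linter.unusedSectionVars false
set_option linter.deprecated false
set_option linter.unusedSimpArgs false

namespace Q81TN
open scoped ENNReal Topology
open Filter

noncomputable section

variable {E S X K : Type} [NormedAddCommGroup E] [NormedSpace ℂ E]
  [NormedAddCommGroup S] [NormedSpace ℂ S] [NormedAddCommGroup X] [NormedSpace ℂ X]
variable [CompleteSpace E] [CompleteSpace S] [CompleteSpace X]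
variable (D : Dat E S X K) {p : TA (M1 D) → ℝ}

/-- The vectors `r n`. -/
def rr (n : ℕ) : S := D.L (D.en n)

theorem h_rr (n : ℕ) : D.h (rr D n) = 1 := by rw [rr, D.hL, D.ell_en]

theorem rr_lim : Tendsto (fun n => ‖rr D n‖) atTop (𝓝 0) := D.L_en

section
variable (hp : IsBanachAlgebraNorm p)
include hp

/-- The estimate relating `m f y` and `σ`. -/
theorem key_est {σ : ℂ} {C₂ : ℝ} (hσ : ∀ y : S, p (in_y y - (D.h y * σ) • u_yc) ≤ C₂ * ‖y‖) :
    ∃ B, 0 ≤ B ∧ ∀ (f : E) (y : S),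
      p (in_x (D.m f y) - (D.h y * σ) • in_x (D.j (D.L f))) ≤ B * ‖f‖ * ‖y‖ := by
  obtain ⟨C, hC, hF⟩ := bound_f D hp
  have hC₂ : 0 ≤ |C₂| := abs_nonneg _
  refine ⟨C * |C₂|, mul_nonneg hC hC₂, fun f y => ?_⟩
  have h1 : in_f f * (in_y y - (D.h y * σ) • u_yc) =
      in_x (D.m f y) - (D.h y * σ) • (in_x (D.j (D.L f)) : TA (M1 D)) := by
    rw [mul_sub, mul_fy, mul_smul_comm, mul_fyc]; rfl
  rw [← h1]
  refine (hp.mul_le _ _).trans ?_
  have h2 : p (in_y y - (D.h y * σ) • u_yc) ≤ |C₂| * ‖y‖ :=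
    (hσ y).trans (mul_le_mul_of_nonneg_right (le_abs_self _) (norm_nonneg _))
  calc p (in_f f) * p (in_y y - (D.h y * σ) • u_yc) ≤ (C * ‖f‖) * (|C₂| * ‖y‖) :=
        mul_le_mul (hF f) h2 (hp.nonneg _) (mul_nonneg hC (norm_nonneg _))
    _ = C * |C₂| * ‖f‖ * ‖y‖ := by ring

theorem sigma_cases {σ : ℂ} {B : ℝ} (hB : 0 ≤ B)
    (hk : ∀ (f : E) (y : S),
      p (in_x (D.m f y) - (D.h y * σ) • in_x (D.j (D.L f))) ≤ B * ‖f‖ * ‖y‖) :
    σ = 0 ∨ σ = 1 := by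
  obtain ⟨C, hC, hX⟩ := bound_x D hp
  have hm : ∀ (f : E) (k : ℕ), ‖D.m f (rr D k)‖ ≤ ‖D.m‖ * ‖f‖ * ‖rr D k‖ := fun f k =>
    D.m.le_opNorm₂ _ _
  -- (i)
  have hi : ∀ n, p (σ • in_x (D.j (rr D n)) - σ • in_x (D.j D.x0)) ≤ C * ‖rr D n‖ := by
    intro n
    have h1 : ∀ k, p (σ • in_x (D.j (rr D n)) - σ • in_x (D.j D.x0)) ≤
        C * (‖D.m‖ * (1 + ‖D.e0‖) * ‖rr D k‖ + ‖rr D n‖) + B * (1 + ‖D.e0‖) * ‖rr D k‖ := by
      intro k
      set v : X := D.m (D.en n) (rr D k) - D.m D.e0 (rr D k) with hv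
      have hNv : D.N v = rr D n := by
        rw [hv, map_sub, N_m', N_m', h_rr, one_smul, one_smul, Lt_e0, Lt_apply, D.ell_en, one_smul]
        rw [rr]; abel
      have hnv : ‖v‖ ≤ ‖D.m‖ * (1 + ‖D.e0‖) * ‖rr D k‖ := by
        refine (norm_sub_le _ _).trans ?_
        have h2 := hm (D.en n) k
        have h3 := hm D.e0 k
        have h4 : ‖D.m‖ * ‖D.en n‖ * ‖rr D k‖ ≤ ‖D.m‖ * 1 * ‖rr D k‖ := by
          have := D.en_norm n
          gcongr
        calc _ ≤ ‖D.m‖ * 1 * ‖rr D k‖ + ‖D.m‖ * ‖D.e0‖ * ‖rr D k‖ := add_le_add (h2.trans h4) h3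
          _ = _ := by ring
      have h5 := hk (D.en n) (rr D k)
      have h6 := hk D.e0 (rr D k)
      rw [h_rr, one_mul] at h5 h6
      have h7 : σ • in_x (D.j (rr D n)) - σ • in_x (D.j D.x0) =
          (in_x v : TA (M1 D)) - ((in_x (D.m (D.en n) (rr D k)) - σ • in_x (D.j (D.L (D.en n)))) -
            (in_x (D.m D.e0 (rr D k)) - σ • in_x (D.j (D.L D.e0)))) := by
        rw [hv, map_sub, D.L_e0]
        change _ = (in_x (D.m (D.en n) (rr D k)) - in_x (D.m D.e0 (rr D k)) : TA (M1 D)) -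
          ((in_x (D.m (D.en n) (rr D k)) - σ • in_x (D.j (rr D n))) - _)
        abel
      rw [h7]
      refine (hp.comp.sub_le _ _).trans (add_le_add ?_ ?_)
      · refine (hX _).trans ?_
        rw [hNv]
        exact mul_le_mul_of_nonneg_left (add_le_add hnv le_rfl) hC
      · refine (hp.comp.sub_le _ _).trans ((add_le_add h5 h6).trans ?_)
        have h8 : B * ‖D.en n‖ * ‖rr D k‖ ≤ B * 1 * ‖rr D k‖ := by
          have := D.en_norm n
          gcongr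
        calc _ ≤ B * 1 * ‖rr D k‖ + B * ‖D.e0‖ * ‖rr D k‖ := add_le_add h8 le_rfl
          _ = _ := by ring
    have h2 : Tendsto (fun k => C * (‖D.m‖ * (1 + ‖D.e0‖) * ‖rr D k‖ + ‖rr D n‖) +
        B * (1 + ‖D.e0‖) * ‖rr D k‖) atTop
        (𝓝 (C * (‖D.m‖ * (1 + ‖D.e0‖) * 0 + ‖rr D n‖) + B * (1 + ‖D.e0‖) * 0)) :=
      ((((rr_lim D).const_mul _).add_const _).const_mul _).add ((rr_lim D).const_mul _)
    simp only [mul_zero, zero_add, add_zero] at h2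
    exact ge_of_tendsto' h2 h1
  -- (ii)
  have hii : ∀ n, p (in_x (D.j (rr D n)) - σ • in_x (D.j D.x0)) ≤ C * (‖D.j‖ * ‖rr D n‖) := by
    intro n
    have h1 : ∀ k, p (in_x (D.j (rr D n)) - σ • in_x (D.j D.x0)) ≤
        C * (‖D.j‖ * ‖rr D n‖ + ‖D.m‖ * ‖D.e0‖ * ‖rr D k‖) + B * ‖D.e0‖ * ‖rr D k‖ := by
      intro k
      set v : X := D.j (rr D n) - D.m D.e0 (rr D k) with hv
      have hNv : D.N v = 0 := by
        rw [hv, map_sub, N_m', h_rr, one_smul, Lt_e0, D.N_j, h_rr, one_smul, sub_self]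
      have hnv : ‖v‖ ≤ ‖D.j‖ * ‖rr D n‖ + ‖D.m‖ * ‖D.e0‖ * ‖rr D k‖ :=
        (norm_sub_le _ _).trans (add_le_add (D.j.le_opNorm _) (hm _ _))
      have h6 := hk D.e0 (rr D k)
      rw [h_rr, one_mul, D.L_e0] at h6
      have h7 : in_x (D.j (rr D n)) - σ • in_x (D.j D.x0) =
          (in_x v : TA (M1 D)) + (in_x (D.m D.e0 (rr D k)) - σ • in_x (D.j D.x0)) := by
        rw [hv, map_sub]; abel
      rw [h7]
      refine (hp.add_le _ _).trans (add_le_add ?_ h6)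
      refine (hX _).trans ?_
      rw [hNv, norm_zero, add_zero]
      exact mul_le_mul_of_nonneg_left hnv hC
    have h2 : Tendsto (fun k => C * (‖D.j‖ * ‖rr D n‖ + ‖D.m‖ * ‖D.e0‖ * ‖rr D k‖) +
        B * ‖D.e0‖ * ‖rr D k‖) atTop
        (𝓝 (C * (‖D.j‖ * ‖rr D n‖ + ‖D.m‖ * ‖D.e0‖ * 0) + B * ‖D.e0‖ * 0)) :=
      ((((rr_lim D).const_mul _).const_add _).const_mul _).add ((rr_lim D).const_mul _)
    simp only [mul_zero, add_zero] at h2
    exact ge_of_tendsto' h2 h1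
  have h1 : Tendsto (fun n => p (σ • in_x (D.j (rr D n)) - σ • in_x (D.j D.x0))) atTop (𝓝 0) := by
    have : Tendsto (fun n => C * ‖rr D n‖) atTop (𝓝 0) := by simpa using (rr_lim D).const_mul C
    exact squeeze_zero (fun n => hp.nonneg _) hi this
  have h2 : Tendsto (fun n => p (σ • in_x (D.j (rr D n)) - σ • σ • in_x (D.j D.x0))) atTop
      (𝓝 0) := by
    have : Tendsto (fun n => ‖σ‖ * (C * (‖D.j‖ * ‖rr D n‖))) atTop (𝓝 0) := by
      simpa using (((rr_lim D).const_mul ‖D.j‖).const_mul C).const_mul ‖σ‖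
    refine squeeze_zero (fun n => hp.nonneg _) (fun n => ?_) this
    rw [← smul_sub, hp.smul]
    exact mul_le_mul_of_nonneg_left (hii n) (norm_nonneg _)
  have h3 := hp.comp.lim_unique h1 h2
  have hz : (in_x (D.j D.x0) : TA (M1 D)) ≠ 0 := by
    intro h
    exact D.x0_ne (D.j_inj _ (in_x_eq_zero D h))
  have h4 : (σ - σ * σ) • (in_x (D.j D.x0) : TA (M1 D)) = 0 := by
    rw [sub_smul, mul_smul]
    exact sub_eq_zero.mpr h3
  have h5 := (smul_eq_zero.mp h4).resolve_right hz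
  have h6 : σ * (1 - σ) = 0 := by rw [← h5]; ring
  rcases mul_eq_zero.mp h6 with h7 | h7
  · exact Or.inl h7
  · exact Or.inr (sub_eq_zero.mp h7).symm

theorem bound_x_zero {B : ℝ}
    (hk : ∀ (f : E) (y : S), p (in_x (D.m f y)) ≤ B * ‖f‖ * ‖y‖) :
    ∃ C, 0 ≤ C ∧ ∀ v, p (in_x v) ≤ C * ‖v‖ := by
  obtain ⟨C, hC, hX⟩ := bound_x D hp
  refine ⟨C, hC, fun v => ?_⟩
  have h1 : ∀ η > 0, p (in_x v) ≤ C * (‖v‖ + η) := by
    intro η hη
    obtain ⟨f, hf⟩ := D.dense (D.N v) η hη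
    set f' : E := f - D.ell f • D.e0 with hf'
    have hLt : Lt D f' = D.L f := by
      rw [hf', Lt_apply, map_sub, map_smul, map_sub, map_smul, D.ell_e0, D.L_e0]
      simp
    have h2 : ∀ k, p (in_x v) ≤
        C * (‖v‖ + ‖D.m‖ * ‖f'‖ * ‖rr D k‖ + η) + B * ‖f'‖ * ‖rr D k‖ := by
      intro k
      have h3 : (in_x v : TA (M1 D)) = in_x (v - D.m f' (rr D k)) + in_x (D.m f' (rr D k)) := by
        rw [map_sub]; abel
      rw [h3]
      refine (hp.add_le _ _).trans (add_le_add ?_ (hk _ _))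
      refine (hX _).trans (mul_le_mul_of_nonneg_left (add_le_add ?_ ?_) hC)
      · exact (norm_sub_le _ _).trans (add_le_add le_rfl (D.m.le_opNorm₂ _ _))
      · rw [map_sub, N_m', h_rr, one_smul, hLt]
        exact hf.le
    have h4 : Tendsto (fun k => C * (‖v‖ + ‖D.m‖ * ‖f'‖ * ‖rr D k‖ + η) + B * ‖f'‖ * ‖rr D k‖)
        atTop (𝓝 (C * (‖v‖ + ‖D.m‖ * ‖f'‖ * 0 + η) + B * ‖f'‖ * 0)) :=
      (((((rr_lim D).const_mul _).const_add _).add_const _).const_mul _).add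
        ((rr_lim D).const_mul _)
    simp only [mul_zero, add_zero] at h4
    exact ge_of_tendsto' h4 h2
  have h2 : Tendsto (fun n : ℕ => C * (‖v‖ + 1 / ((n : ℝ) + 1))) atTop (𝓝 (C * (‖v‖ + 0))) :=
    (tendsto_one_div_add_atTop_nhds_zero_nat.const_add _).const_mul _
  rw [add_zero] at h2
  exact ge_of_tendsto' h2 (fun n => h1 _ (by positivity))

theorem bound_x_one {B : ℝ}
    (hk : ∀ (f : E) (y : S),
      p (in_x (D.m f y) - D.h y • in_x (D.j (D.L f))) ≤ B * ‖f‖ * ‖y‖) :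
    ∃ C, 0 ≤ C ∧ ∀ v, p (in_x v) ≤ C * ‖v + D.j (D.N v)‖ := by
  obtain ⟨C, hC, hX⟩ := bound_x D hp
  refine ⟨C, hC, fun v => ?_⟩
  have h1 : ∀ η > 0, p (in_x v) ≤ C * (‖v + D.j (D.N v)‖ + ‖D.j‖ * η + η) := by
    intro η hη
    obtain ⟨f, hf⟩ := D.dense (D.N v) η hη
    have h2 : ∀ k, p (in_x v) ≤
        C * (‖v + D.j (D.N v)‖ + ‖D.j‖ * η + ‖D.m‖ * ‖f‖ * ‖rr D k‖ + η) +
          B * ‖f‖ * ‖rr D k‖ := by
      intro k
      have h3 : (in_x v : TA (M1 D)) = in_x (v - (D.m f (rr D k) - D.j (D.L f))) +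
          (in_x (D.m f (rr D k)) - D.h (rr D k) • in_x (D.j (D.L f))) := by
        rw [h_rr, one_smul, map_sub, map_sub]; abel
      rw [h3]
      refine (hp.add_le _ _).trans (add_le_add ?_ (hk _ _))
      refine (hX _).trans (mul_le_mul_of_nonneg_left (add_le_add ?_ ?_) hC)
      · have h4 : v - (D.m f (rr D k) - D.j (D.L f)) =
            (v + D.j (D.N v)) - D.j (D.N v - D.L f) - D.m f (rr D k) := by
          rw [map_sub]; abel
        rw [h4]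
        refine (norm_sub_le _ _).trans (add_le_add ?_ (D.m.le_opNorm₂ _ _))
        refine (norm_sub_le _ _).trans (add_le_add le_rfl ?_)
        exact (D.j.le_opNorm _).trans (mul_le_mul_of_nonneg_left hf.le (norm_nonneg _))
      · rw [map_sub, map_sub, N_m', h_rr, one_smul, D.N_j, D.hL, Lt_apply]
        have : D.N v - (D.L f + D.ell f • D.x0 - D.ell f • D.x0) = D.N v - D.L f := by abel
        rw [this]
        exact hf.le
    have h4 : Tendsto (fun k => C * (‖v + D.j (D.N v)‖ + ‖D.j‖ * η + ‖D.m‖ * ‖f‖ * ‖rr D k‖ + η) +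
          B * ‖f‖ * ‖rr D k‖)
        atTop (𝓝 (C * (‖v + D.j (D.N v)‖ + ‖D.j‖ * η + ‖D.m‖ * ‖f‖ * 0 + η) + B * ‖f‖ * 0)) :=
      (((((rr_lim D).const_mul _).const_add _).add_const _).const_mul _).add
        ((rr_lim D).const_mul _)
    simp only [mul_zero, add_zero] at h4
    exact ge_of_tendsto' h4 h2
  have h2 : Tendsto (fun n : ℕ => C * (‖v + D.j (D.N v)‖ + ‖D.j‖ * (1 / ((n : ℝ) + 1)) +
      1 / ((n : ℝ) + 1))) atTop (𝓝 (C * (‖v + D.j (D.N v)‖ + ‖D.j‖ * 0 + 0))) :=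
    (((tendsto_one_div_add_atTop_nhds_zero_nat.const_mul _).const_add _).add
      tendsto_one_div_add_atTop_nhds_zero_nat).const_mul _
  rw [mul_zero, add_zero, add_zero] at h2
  exact ge_of_tendsto' h2 (fun n => h1 _ (by positivity))

/-- Assembling the estimates on the components. -/
theorem assemble (q : TA (M1 D) → ℝ) (h1 : ∀ a, ‖a.rl‖ ≤ q a) (h2 : ∀ a, ‖a.ri‖ ≤ q a)
    (h3 : ∀ a, ‖a.ra‖ ≤ q a) (h4 : ∀ a, ‖a.rf‖ ≤ q a) (h5 : ∀ a, ‖a.rj‖ ≤ q a)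
    (h6 : ∀ a, ‖a.rc‖ ≤ q a) (h7 : ∀ a, ‖a.f‖ ≤ q a) (h8 : ∀ a, ‖a.p‖ ≤ q a)
    (h9 : ∀ a, ‖a.q‖ ≤ q a) (h10 : ∀ a, ‖a.d‖ ≤ q a) (h11 : ∀ a, ‖a.g‖ ≤ q a)
    (h12 : ∀ a, ‖a.z‖ ≤ q a) (h13 : ∀ a, ‖a.w‖ ≤ q a)
    {Cy Cx : ℝ} (hy : ∀ a, p (in_y a.y + a.yc • u_yc) ≤ Cy * q a)
    (hx : ∀ a, p (in_x a.x) ≤ Cx * q a) : ∃ C, ∀ a, p a ≤ C * q a := by
  obtain ⟨Cf, hCf, hf⟩ := bound_f D hp
  obtain ⟨Cp, hCp, hpp⟩ := bound_p D hp
  obtain ⟨Cq, hCq, hq⟩ := bound_q D hp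
  obtain ⟨Cd, hCd, hd⟩ := bound_d D hp
  obtain ⟨Cg, hCg, hg⟩ := bound_g D hp
  refine ⟨p u_rl + p u_ri + p u_ra + p u_rf + p u_rj + p u_rc + Cf + Cy + Cp + Cq + Cd + Cg + Cx +
    p u_z + p u_w, fun a => ?_⟩
  have hdec : a = a.rl • u_rl + a.ri • u_ri + a.ra • u_ra + a.rf • u_rf + a.rj • u_rj +
      a.rc • u_rc + in_f a.f + (in_y a.y + a.yc • u_yc) + in_p a.p + in_q a.q + in_d a.d +
      in_g a.g + in_x a.x + a.z • u_z + a.w • u_w := by
    conv_lhs => rw [decomp a]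
    abel
  have hs : ∀ (c : ℂ) (u : TA (M1 D)), ‖c‖ ≤ q a → p (c • u) ≤ p u * q a := by
    intro c u hc
    rw [hp.smul, mul_comm]
    exact mul_le_mul_of_nonneg_left hc (hp.nonneg _)
  conv_lhs => rw [hdec]
  have key : p (a.rl • u_rl + a.ri • u_ri + a.ra • u_ra + a.rf • u_rf + a.rj • u_rj +
      a.rc • u_rc + in_f a.f + (in_y a.y + a.yc • u_yc) + in_p a.p + in_q a.q + in_d a.d +
      in_g a.g + in_x a.x + a.z • u_z + a.w • u_w) ≤
      p u_rl * q a + p u_ri * q a + p u_ra * q a + p u_rf * q a + p u_rj * q a + p u_rc * q a +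
      Cf * q a + Cy * q a + Cp * q a + Cq * q a + Cd * q a + Cg * q a + Cx * q a +
      p u_z * q a + p u_w * q a := by
    refine (hp.add_le _ _).trans (add_le_add ?_ (hs _ _ (h13 a)))
    refine (hp.add_le _ _).trans (add_le_add ?_ (hs _ _ (h12 a)))
    refine (hp.add_le _ _).trans (add_le_add ?_ (hx a))
    refine (hp.add_le _ _).trans (add_le_add ?_
      ((hg _).trans (mul_le_mul_of_nonneg_left (h11 a) hCg)))
    refine (hp.add_le _ _).trans (add_le_add ?_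
      ((hd _).trans (mul_le_mul_of_nonneg_left (h10 a) hCd)))
    refine (hp.add_le _ _).trans (add_le_add ?_
      ((hq _).trans (mul_le_mul_of_nonneg_left (h9 a) hCq)))
    refine (hp.add_le _ _).trans (add_le_add ?_
      ((hpp _).trans (mul_le_mul_of_nonneg_left (h8 a) hCp)))
    refine (hp.add_le _ _).trans (add_le_add ?_ (hy a))
    refine (hp.add_le _ _).trans (add_le_add ?_
      ((hf _).trans (mul_le_mul_of_nonneg_left (h7 a) hCf)))
    refine (hp.add_le _ _).trans (add_le_add ?_ (hs _ _ (h6 a)))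
    refine (hp.add_le _ _).trans (add_le_add ?_ (hs _ _ (h5 a)))
    refine (hp.add_le _ _).trans (add_le_add ?_ (hs _ _ (h4 a)))
    refine (hp.add_le _ _).trans (add_le_add ?_ (hs _ _ (h3 a)))
    exact (hp.add_le _ _).trans (add_le_add (hs _ _ (h1 a)) (hs _ _ (h2 a)))
  refine key.trans (le_of_eq ?_)
  ring

end

end

end Q81TN
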