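import Mathlib

/-! A small toolbox for `ℓ¹(ι)` (complex scalars). -/

namespace Q81TN
open scoped ENNReal Topology
open Filter

/-- `ℓ¹(ι)`. -/
abbrev L1 (ι : Type) : Type := lp (fun _ : ι => ℂ) 1

noncomputable section

variable {ι κ : Type} {V : Type} [NormedAddCommGroup V] [NormedSpace ℂ V] [CompleteSpace V]

open Classical in
/-- The unit vector `e i` of `ℓ¹(ι)`. -/
def e (i : ι) : L1 ι := lp.single 1 i 1

theorem e_apply_self (i : ι) : e i i = 1 := by
  classical
  simp [e]

theorem e_apply_ne {i j : ι} (h : j ≠ i) : e i j = 0 := by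
  classical
  simp only [e]
  rw [lp.single_apply_ne]
  exact h

open Classical in
theorem e_apply (i j : ι) : e i j = if j = i then 1 else 0 := by
  split_ifs with h
  · subst h; exact e_apply_self j
  · exact e_apply_ne h

theorem norm_e (i : ι) : ‖e i‖ = 1 := by
  classical
  simp only [e]
  rw [lp.norm_single (by norm_num)]
  simp

theorem summable_norm (a : L1 ι) : Summable fun i => ‖a i‖ := by
  have := (lp.memℓp a).summable (by norm_num)
  simpa using this

theorem norm_eq (a : L1 ι) : ‖a‖ = ∑' i, ‖a i‖ := by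
  rw [lp.norm_eq_tsum_rpow (by norm_num)]
  simp

theorem norm_coord_le (a : L1 ι) (i : ι) : ‖a i‖ ≤ ‖a‖ := by
  rw [norm_eq]
  exact (summable_norm a).le_tsum i (fun j _ => norm_nonneg _)

theorem hasSum_e (a : L1 ι) : HasSum (fun i => a i • e i) a := by
  classical
  have h := lp.hasSum_single (p := 1) (by norm_num) a
  refine h.congr_fun ?_ |> fun h' => h'
  intro i
  simp only [e]
  rw [← lp.single_smul]
  simp

/-- The coordinate functional. -/
def coord (i : ι) : L1 ι →L[ℂ] ℂ :=
  LinearMap.mkContinuous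
    { toFun := fun a => a i
      map_add' := fun a b => by simp
      map_smul' := fun c a => by simp } 1 (fun a => by rw [one_mul]; exact norm_coord_le a i)

@[simp] theorem coord_apply (i : ι) (a : L1 ι) : coord i a = a i := rfl

theorem summable_smul (v : ι → V) {C : ℝ} (hC : ∀ i, ‖v i‖ ≤ C) (a : L1 ι) :
    Summable fun i => a i • v i := by
  apply Summable.of_norm_bounded (g := fun i => ‖a i‖ * C) ((summable_norm a).mul_right C)
  intro i
  rw [norm_smul]
  exact mul_le_mul_of_nonneg_left (hC i) (norm_nonneg _)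

omit [CompleteSpace V] in
theorem norm_tsum_smul_le (v : ι → V) {C : ℝ} (hC : ∀ i, ‖v i‖ ≤ C) (a : L1 ι) :
    ‖∑' i, a i • v i‖ ≤ C * ‖a‖ := by
  have h1 : Summable fun i => ‖a i • v i‖ := by
    apply Summable.of_nonneg_of_le (fun i => norm_nonneg _) _ ((summable_norm a).mul_right C)
    intro i
    rw [norm_smul]
    exact mul_le_mul_of_nonneg_left (hC i) (norm_nonneg _)
  refine (norm_tsum_le_tsum_norm h1).trans ?_
  rw [norm_eq, mul_comm, ← tsum_mul_right]
  refine h1.tsum_le_tsum (fun i => ?_) ((summable_norm a).mul_right C)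
  rw [norm_smul]
  exact mul_le_mul_of_nonneg_left (hC i) (norm_nonneg _)

/-- The bounded operator on `ℓ¹(ι)` with prescribed values on the unit vectors. -/
def lift (v : ι → V) (C : ℝ) (hC : ∀ i, ‖v i‖ ≤ C) : L1 ι →L[ℂ] V :=
  LinearMap.mkContinuous
    { toFun := fun a => ∑' i, a i • v i
      map_add' := fun a b => by
        rw [← (summable_smul v hC a).tsum_add (summable_smul v hC b)]
        simp [add_smul]
      map_smul' := fun c a => by
        simp only [RingHom.id_apply]
        rw [← (summable_smul v hC a).tsum_const_smul c]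
        simp [smul_smul] } C (fun a => norm_tsum_smul_le v hC a)

theorem lift_apply (v : ι → V) (C : ℝ) (hC : ∀ i, ‖v i‖ ≤ C) (a : L1 ι) :
    lift v C hC a = ∑' i, a i • v i := rfl

theorem norm_lift_le (v : ι → V) (C : ℝ) (hC : ∀ i, ‖v i‖ ≤ C) (a : L1 ι) :
    ‖lift v C hC a‖ ≤ C * ‖a‖ := norm_tsum_smul_le v hC a

@[simp] theorem lift_e (v : ι → V) (C : ℝ) (hC : ∀ i, ‖v i‖ ≤ C) (i : ι) :
    lift v C hC (e i) = v i := by
  classical
  rw [lift_apply, tsum_eq_single i]
  · rw [e_apply_self, one_smul]
  · intro j hj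
    rw [e_apply_ne hj, zero_smul]

/-- Two bounded operators on `ℓ¹(ι)` agreeing on the unit vectors are equal. -/
theorem ext_e {W : Type} [AddCommGroup W] [Module ℂ W] [TopologicalSpace W] [T2Space W]
    {f g : L1 ι →L[ℂ] W} (h : ∀ i, f (e i) = g (e i)) : f = g := by
  ext a
  have hf := (hasSum_e a).map f f.continuous
  have hg := (hasSum_e a).map g g.continuous
  have : (f ∘ fun i => a i • e i) = (g ∘ fun i => a i • e i) := by
    funext i
    simp [h i]
  rw [this] at hf
  exact hf.unique hg

theorem ext_e_apply {W : Type} [AddCommGroup W] [Module ℂ W] [TopologicalSpace W] [T2Space W]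
    (f g : L1 ι →L[ℂ] W) (h : ∀ i, f (e i) = g (e i)) (a : L1 ι) : f a = g a := by
  rw [ext_e h]

/-- Finitely supported vectors are dense: a closed submodule containing all `e i` is everything. -/
theorem mem_of_closed (W : Submodule ℂ (L1 ι)) (hW : IsClosed (W : Set (L1 ι)))
    (h : ∀ i, e i ∈ W) (a : L1 ι) : a ∈ W := by
  refine hW.mem_of_tendsto (hasSum_e a) (Eventually.of_forall fun s => ?_)
  exact W.sum_mem fun i _ => W.smul_mem _ (h i)

end

end Q81TN
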