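import Pool.Agent.Q81.TN.Final

/-! The two norms and the main theorem. -/

set_option linter.unusedSectionVars false
set_option linter.deprecated false
set_option linter.unusedSimpArgs false

namespace Q81TN
open scoped ENNReal Topology
open Filter

/-- Equivalence of norms. -/
def NormEquiv {A : Type} (p q : A → ℝ) : Prop :=
  ∃ c C : ℝ, 0 < c ∧ ∀ x, c * p x ≤ q x ∧ q x ≤ C * p x

/-- The setoid of equivalent Banach algebra norms on `A`. -/
def normSetoid (A : Type) [Ring A] [Algebra ℂ A] :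
    Setoid {p : A → ℝ // IsBanachAlgebraNorm p} where
  r p q := NormEquiv p.1 q.1
  iseqv :=
    { refl := fun p => ⟨1, 1, one_pos, fun x => by simp⟩
      symm := by
        rintro p q ⟨c, C, hc, h⟩
        have hC : ∀ x, q.1 x ≤ max C 1 * p.1 x := fun x =>
          (h x).2.trans (mul_le_mul_of_nonneg_right (le_max_left _ _) (p.2.nonneg _))
        have hC0 : 0 < max C 1 := lt_of_lt_of_le one_pos (le_max_right _ _)
        refine ⟨(max C 1)⁻¹, c⁻¹, inv_pos.mpr hC0, fun x => ⟨?_, ?_⟩⟩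
        · rw [inv_mul_le_iff₀ hC0]; exact hC x
        · rw [← div_eq_inv_mul, le_div_iff₀ hc, mul_comm]; exact (h x).1
      trans := by
        rintro p q r ⟨c, C, hc, h⟩ ⟨c', C', hc', h'⟩
        have hC : ∀ x, r.1 x ≤ max C' 0 * q.1 x := fun x =>
          (h' x).2.trans (mul_le_mul_of_nonneg_right (le_max_left _ _) (q.2.nonneg _))
        refine ⟨c' * c, max C' 0 * C, mul_pos hc' hc, fun x => ⟨?_, ?_⟩⟩
        · rw [mul_assoc]
          exact (mul_le_mul_of_nonneg_left (h x).1 hc'.le).trans (h' x).1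
        · rw [mul_assoc]
          exact (hC x).trans (mul_le_mul_of_nonneg_left (h x).2 (le_max_right _ _)) }

noncomputable section

section
variable {A : Type} [Ring A] [Algebra ℂ A]

theorem isBAN_of {q : A → ℝ} (hq : IsCompNorm q) {C : ℝ} (hC : 0 < C)
    (h : ∀ a b, q (a * b) ≤ C * q a * q b) : IsBanachAlgebraNorm (fun a => C * q a) where
  nonneg a := mul_nonneg hC.le (hq.nonneg a)
  eq_zero_iff a := by
    constructor
    · intro h0
      exact hq.eq_zero a ((mul_eq_zero.mp h0).resolve_left hC.ne')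
    · rintro rfl
      rw [hq.zero, mul_zero]
  add_le a b := by
    rw [← mul_add]
    exact mul_le_mul_of_nonneg_left (hq.add_le a b) hC.le
  smul c a := by
    rw [hq.smul]; ring
  mul_le a b := by
    calc C * q (a * b) ≤ C * (C * q a * q b) := mul_le_mul_of_nonneg_left (h a b) hC.le
      _ = C * q a * (C * q b) := by ring
  complete u hu := by
    obtain ⟨a, ha⟩ := hq.complete u (by
      intro ε hε
      obtain ⟨n₀, hn₀⟩ := hu (C * ε) (mul_pos hC hε)
      exact ⟨n₀, fun m hm n hn => lt_of_mul_lt_mul_left (hn₀ m hm n hn) hC.le⟩)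
    exact ⟨a, by simpa using ha.const_mul C⟩

theorem IsCompNorm.comp_equiv {V W : Type} [AddCommGroup V] [Module ℂ V] [AddCommGroup W]
    [Module ℂ W] {q : W → ℝ} (hq : IsCompNorm q) (T : V →ₗ[ℂ] W)
    (hinj : Function.Injective T) (hsurj : Function.Surjective T) :
    IsCompNorm (fun v => q (T v)) where
  nonneg v := hq.nonneg _
  eq_zero v h := hinj (by rw [hq.eq_zero _ h, map_zero])
  add_le v w := by rw [map_add]; exact hq.add_le _ _
  smul c v := by rw [map_smul]; exact hq.smul _ _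
  complete u hu := by
    obtain ⟨a, ha⟩ := hq.complete (fun n => T (u n)) (by
      intro ε hε
      obtain ⟨n₀, hn₀⟩ := hu ε hε
      refine ⟨n₀, fun m hm n hn => ?_⟩
      have := hn₀ m hm n hn
      rwa [map_sub] at this)
    obtain ⟨b, rfl⟩ := hsurj a
    refine ⟨b, ha.congr fun n => ?_⟩
    rw [map_sub]

end

variable {E S X K : Type} [NormedAddCommGroup E] [NormedSpace ℂ E]
  [NormedAddCommGroup S] [NormedSpace ℂ S] [NormedAddCommGroup X] [NormedSpace ℂ X]
variable (D : Dat E S X K)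

/-- The twist. -/
def Th : TA (M1 D) →ₗ[ℂ] TA (M2 D) where
  toFun a := ⟨a.rl, a.ri, a.ra, a.rf, a.rj, a.rc, a.f, a.y, a.yc + D.h a.y, a.p, a.q, a.d, a.g,
    a.x + D.j (D.N a.x), a.z, a.w⟩
  map_add' a b := by
    apply TA.ext' <;> simp only [TA.add_rl, TA.add_ri, TA.add_ra, TA.add_rf, TA.add_rj, TA.add_rc,
      TA.add_f, TA.add_y, TA.add_yc, TA.add_p, TA.add_q, TA.add_d, TA.add_g, TA.add_x, TA.add_z,
      TA.add_w, map_add] <;> abel
  map_smul' c a := by
    apply TA.ext' <;> simp only [TA.smul_rl, TA.smul_ri, TA.smul_ra, TA.smul_rf, TA.smul_rj,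
      TA.smul_rc, TA.smul_f, TA.smul_y, TA.smul_yc, TA.smul_p, TA.smul_q, TA.smul_d, TA.smul_g,
      TA.smul_x, TA.smul_z, TA.smul_w, map_smul, RingHom.id_apply, smul_add]

theorem Th_apply (a : TA (M1 D)) : Th D a = ⟨a.rl, a.ri, a.ra, a.rf, a.rj, a.rc, a.f, a.y,
    a.yc + D.h a.y, a.p, a.q, a.d, a.g, a.x + D.j (D.N a.x), a.z, a.w⟩ := rfl

theorem NjN (s : S) : D.N (D.j (D.N (D.j s))) = 0 := by
  have : D.h D.x0 = 0 := by rw [← D.L_e0, D.hL, D.ell_e0]
  rw [D.N_j (D.N (D.j s)), D.N_j s, map_smul, this, smul_zero, zero_smul]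

theorem Th_inj : Function.Injective (Th D) := by
  rw [injective_iff_map_eq_zero]
  intro a ha
  have hx : a.x + D.j (D.N a.x) = 0 := congrArg TA.x ha
  have hy : a.y = 0 := congrArg TA.y ha
  have hyc : a.yc + D.h a.y = 0 := congrArg TA.yc ha
  rw [hy, map_zero, add_zero] at hyc
  have h1 : D.N a.x + D.N (D.j (D.N a.x)) = 0 := by rw [← map_add, hx, map_zero]
  have h2 : D.N (D.j (D.N a.x)) = 0 := by
    have h3 : D.N (D.j (D.N a.x + D.N (D.j (D.N a.x)))) = 0 := by rw [h1, map_zero, map_zero]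
    rw [map_add, map_add, NjN, add_zero] at h3
    exact h3
  have h4 : D.N a.x = 0 := by rw [h2, add_zero] at h1; exact h1
  have h5 : a.x = 0 := by rw [h4, map_zero, add_zero] at hx; exact hx
  have hrl' : a.rl = 0 := congrArg TA.rl ha
  have hri' : a.ri = 0 := congrArg TA.ri ha
  have hra' : a.ra = 0 := congrArg TA.ra ha
  have hrf' : a.rf = 0 := congrArg TA.rf ha
  have hrj' : a.rj = 0 := congrArg TA.rj ha
  have hrc' : a.rc = 0 := congrArg TA.rc ha
  have hf' : a.f = 0 := congrArg TA.f ha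
  have hp' : a.p = 0 := congrArg TA.p ha
  have hq' : a.q = 0 := congrArg TA.q ha
  have hd' : a.d = 0 := congrArg TA.d ha
  have hg' : a.g = 0 := congrArg TA.g ha
  have hz' : a.z = 0 := congrArg TA.z ha
  have hw' : a.w = 0 := congrArg TA.w ha
  exact TA.ext' hrl' hri' hra' hrf' hrj' hrc' hf' hy hyc hp' hq' hd' hg' h5 hz' hw'

theorem Th_surj : Function.Surjective (Th D) := by
  intro b
  refine ⟨⟨b.rl, b.ri, b.ra, b.rf, b.rj, b.rc, b.f, b.y, b.yc - D.h b.y, b.p, b.q, b.d, b.g,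
    b.x - D.j (D.N b.x) + D.j (D.N (D.j (D.N b.x))), b.z, b.w⟩, ?_⟩
  rw [Th_apply]
  apply TA.ext'
  any_goals rfl
  · simp
  · simp only [map_sub, map_add, NjN, map_zero, add_zero]
    abel

theorem Th_mul (a b : TA (M1 D)) : Th D (a * b) = Th D a * Th D b := by
  rw [Th_apply, Th_apply, Th_apply]
  apply TA.ext' <;> simp only [TA.mul_rl, TA.mul_ri, TA.mul_ra, TA.mul_rf, TA.mul_rj, TA.mul_rc,
    TA.mul_f, TA.mul_y, TA.mul_yc, TA.mul_p, TA.mul_q, TA.mul_d, TA.mul_g, TA.mul_x, TA.mul_z,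
    TA.mul_w]
  · simp only [map_add, map_smul, smul_eq_mul]; ring
  · simp only [M1, M2, map_add, map_smul, D.N_m, D.N_μ, D.N_j, D.hL, Lt_apply, smul_add,
      ContinuousLinearMap.comp_apply, ContinuousLinearMap.add_apply,
      ContinuousLinearMap.compL_apply]
    module

section
variable [CompleteSpace E] [CompleteSpace S] [CompleteSpace X]

/-- Every component is dominated by the norm. -/
theorem comp_le {M : Maps E S X K} (a : TA M) :
    (‖a.rl‖ ≤ nrm a ∧ ‖a.ri‖ ≤ nrm a ∧ ‖a.ra‖ ≤ nrm a ∧ ‖a.rf‖ ≤ nrm a ∧ ‖a.rj‖ ≤ nrm a ∧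
      ‖a.rc‖ ≤ nrm a) ∧ (‖a.f‖ ≤ nrm a ∧ ‖a.y‖ ≤ nrm a ∧ ‖a.yc‖ ≤ nrm a ∧ ‖a.p‖ ≤ nrm a ∧
      ‖a.q‖ ≤ nrm a ∧ ‖a.d‖ ≤ nrm a ∧ ‖a.g‖ ≤ nrm a) ∧ (‖a.x‖ ≤ nrm a ∧ ‖a.z‖ ≤ nrm a ∧
      ‖a.w‖ ≤ nrm a) := by
  have h : nrm a = ‖((a.rl, a.ri, a.ra, a.rf, a.rj, a.rc, a.f, a.y, a.yc, a.p, a.q, a.d, a.g,
    a.x, a.z, a.w) : PT E S X K)‖ := rfl
  rw [h]
  simp only [Prod.norm_def, le_max_iff, le_refl, true_or, or_true, and_self]

theorem nrm_in_y {M : Maps E S X K} (v : S) : nrm (in_y v : TA M) = ‖v‖ := by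
  have h : nrm (in_y v : TA M) = ‖((0, 0, 0, 0, 0, 0, 0, v, 0, 0, 0, 0, 0, 0, 0, 0) :
    PT E S X K)‖ := rfl
  rw [h]
  simp [Prod.norm_def]

/-- **The dichotomy.** -/
theorem dichotomy {p : TA (M1 D) → ℝ} (hp : IsBanachAlgebraNorm p) :
    (∃ C, ∀ a, p a ≤ C * nrm a) ∨ (∃ C, ∀ a, p a ≤ C * nrm (Th D a)) := by
  obtain ⟨σ, C₂, hC₂, hσ⟩ := exists_sigma D hp
  obtain ⟨B, hB, hk⟩ := key_est D hp hσ
  rcases sigma_cases D hp hB hk with h0 | h1
  · left
    subst h0
    obtain ⟨C, hC, hX⟩ := bound_x_zero D hp (B := B) (by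
      intro f y
      have := hk f y
      rwa [mul_zero, zero_smul, sub_zero] at this)
    refine assemble D hp nrm (fun a => (comp_le a).1.1) (fun a => (comp_le a).1.2.1)
      (fun a => (comp_le a).1.2.2.1) (fun a => (comp_le a).1.2.2.2.1)
      (fun a => (comp_le a).1.2.2.2.2.1) (fun a => (comp_le a).1.2.2.2.2.2)
      (fun a => (comp_le a).2.1.1) (fun a => (comp_le a).2.1.2.2.2.1)
      (fun a => (comp_le a).2.1.2.2.2.2.1) (fun a => (comp_le a).2.1.2.2.2.2.2.1)
      (fun a => (comp_le a).2.1.2.2.2.2.2.2) (fun a => (comp_le a).2.2.2.1)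
      (fun a => (comp_le a).2.2.2.2) (Cy := C₂ + p u_yc) (Cx := C) (fun a => ?_) (fun a => ?_)
    · have h1 := hσ a.y
      rw [mul_zero, zero_smul, sub_zero] at h1
      refine (hp.add_le _ _).trans ?_
      rw [add_mul, hp.smul, mul_comm ‖a.yc‖]
      exact add_le_add (h1.trans (mul_le_mul_of_nonneg_left (comp_le a).2.1.2.1 hC₂))
        (mul_le_mul_of_nonneg_left (comp_le a).2.1.2.2.1 (hp.nonneg _))
    · exact (hX _).trans (mul_le_mul_of_nonneg_left (comp_le a).2.2.1 hC)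
  · right
    subst h1
    obtain ⟨C, hC, hX⟩ := bound_x_one D hp (B := B) (by
      intro f y
      have := hk f y
      rwa [mul_one] at this)
    refine assemble D hp (fun a => nrm (Th D a)) (fun a => (comp_le (Th D a)).1.1)
      (fun a => (comp_le (Th D a)).1.2.1)
      (fun a => (comp_le (Th D a)).1.2.2.1) (fun a => (comp_le (Th D a)).1.2.2.2.1)
      (fun a => (comp_le (Th D a)).1.2.2.2.2.1) (fun a => (comp_le (Th D a)).1.2.2.2.2.2)
      (fun a => (comp_le (Th D a)).2.1.1) (fun a => (comp_le (Th D a)).2.1.2.2.2.1)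
      (fun a => (comp_le (Th D a)).2.1.2.2.2.2.1) (fun a => (comp_le (Th D a)).2.1.2.2.2.2.2.1)
      (fun a => (comp_le (Th D a)).2.1.2.2.2.2.2.2) (fun a => (comp_le (Th D a)).2.2.2.1)
      (fun a => (comp_le (Th D a)).2.2.2.2) (Cy := C₂ + p u_yc) (Cx := C)
      (fun a => ?_) (fun a => ?_)
    · have h1 := hσ a.y
      rw [mul_one] at h1
      have h2 : in_y a.y + a.yc • u_yc =
          (in_y a.y - D.h a.y • u_yc) + (a.yc + D.h a.y) • (u_yc : TA (M1 D)) := by
        rw [add_smul]; abel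
      rw [h2]
      refine (hp.add_le _ _).trans ?_
      rw [add_mul, hp.smul, mul_comm ‖a.yc + D.h a.y‖]
      exact add_le_add (h1.trans (mul_le_mul_of_nonneg_left (comp_le (Th D a)).2.1.2.1 hC₂))
        (mul_le_mul_of_nonneg_left (comp_le (Th D a)).2.1.2.2.1 (hp.nonneg _))
    · exact (hX _).trans (mul_le_mul_of_nonneg_left (comp_le (Th D a)).2.2.1 hC)

theorem equiv_of_bound {A : Type} [AddCommGroup A] [Module ℂ A] {p q : A → ℝ}
    (hp : IsCompNorm p) (hq : IsCompNorm q) {C : ℝ} (h : ∀ v, p v ≤ C * q v) :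
    ∃ c C' : ℝ, 0 < c ∧ ∀ x, c * q x ≤ p x ∧ p x ≤ C' * q x := by
  obtain ⟨C', hC', h'⟩ := equiv_of_le hp hq h
  have h0 : 0 < C' + 1 := by linarith
  refine ⟨(C' + 1)⁻¹, C, inv_pos.mpr h0, fun x => ⟨?_, h x⟩⟩
  rw [inv_mul_le_iff₀ h0]
  refine (h' x).trans (mul_le_mul_of_nonneg_right (by linarith) (hp.nonneg _))

/-- The main theorem for given data. -/
theorem main_dat : Nat.card (Quotient (normSetoid (TA (M1 D)))) = 2 := by
  obtain ⟨C1, hC1, h1⟩ := nrm_mul_bound (M := M1 D)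
  obtain ⟨C2, hC2, h2⟩ := nrm_mul_bound (M := M2 D)
  have hc1 : IsCompNorm (nrm : TA (M1 D) → ℝ) := nrm_isComp
  have hc2 : IsCompNorm (fun a : TA (M1 D) => nrm (Th D a)) :=
    (nrm_isComp (M := M2 D)).comp_equiv (Th D) (Th_inj D) (Th_surj D)
  have hb1 : IsBanachAlgebraNorm (fun a : TA (M1 D) => C1 * nrm a) := isBAN_of hc1 hC1 h1
  have hb2 : IsBanachAlgebraNorm (fun a : TA (M1 D) => C2 * nrm (Th D a)) :=
    isBAN_of hc2 hC2 (fun a b => by rw [Th_mul]; exact h2 _ _)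
  let _ := normSetoid (TA (M1 D))
  set P1 : {p : TA (M1 D) → ℝ // IsBanachAlgebraNorm p} := ⟨_, hb1⟩ with hP1
  set P2 : {p : TA (M1 D) → ℝ // IsBanachAlgebraNorm p} := ⟨_, hb2⟩ with hP2
  rw [Nat.card_eq_two_iff]
  refine ⟨Quotient.mk _ P1, Quotient.mk _ P2, ?_, ?_⟩
  · intro heq
    have hr : NormEquiv P1.1 P2.1 := Quotient.exact heq
    obtain ⟨c, C, hc, h⟩ := hr
    have h3 : ∀ n, C2 ≤ C * (C1 * ‖rr D n‖) := by
      intro n
      have h4 := (h (in_y (rr D n))).2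
      simp only [hP1, hP2] at h4
      rw [nrm_in_y] at h4
      refine le_trans ?_ h4
      have h5 := (comp_le (Th D (in_y (rr D n)))).2.1.2.2.1
      have h6 : (Th D (in_y (rr D n))).yc = 1 := by
        rw [Th_apply, in_y_apply]
        simp [h_rr]
      rw [h6, norm_one] at h5
      nlinarith
    have h4 : Tendsto (fun n => C * (C1 * ‖rr D n‖)) atTop (𝓝 0) := by
      simpa using ((rr_lim D).const_mul C1).const_mul C
    have h5 : C2 ≤ 0 := ge_of_tendsto' h4 h3
    linarith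
  · rw [Set.eq_univ_iff_forall]
    intro z
    obtain ⟨P, rfl⟩ := Quotient.exists_rep z
    rcases dichotomy D P.2 with ⟨C, hC⟩ | ⟨C, hC⟩
    · left
      apply Quotient.sound
      obtain ⟨c, C', hc, h⟩ := equiv_of_bound P.2.comp hb1.comp (C := C / C1) (fun a => by
        have h3 : C / C1 * (C1 * nrm a) = C * nrm a := by field_simp
        rw [h3]; exact hC a)
      exact Setoid.symm' _ ⟨c, C', hc, h⟩
    · right
      apply Quotient.sound
      obtain ⟨c, C', hc, h⟩ := equiv_of_bound P.2.comp hb2.comp (C := C / C2) (fun a => by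
        have h3 : C / C2 * (C2 * nrm (Th D a)) = C * nrm (Th D a) := by field_simp
        rw [h3]; exact hC a)
      exact Setoid.symm' _ ⟨c, C', hc, h⟩

end

/-- There is a complex algebra with exactly two classes of Banach algebra norms. -/
theorem exists_two_norms : ∃ (A : Type) (_ : Ring A) (_ : Algebra ℂ A),
    Nat.card (Quotient (normSetoid A)) = 2 := by
  obtain ⟨D⟩ := exists_dat
  exact ⟨TA (M1 D), inferInstance, inferInstance, main_dat D⟩

end

end Q81TN
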