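import Pool.Agent.Q81.TN.Alg

/-! Norms on the algebra, inclusions of the corners. -/

set_option linter.unusedSectionVars false
set_option linter.deprecated false
set_option linter.unusedSimpArgs false

namespace Q81TN
open scoped ENNReal Topology
open Filter

noncomputable section

/-- Continuous bilinear maps are bounded. -/
theorem bilin_bound {P : Type} [NormedAddCommGroup P] [NormedSpace ℂ P] (f : P → P → P)
    (hs : ∀ (c : ℂ) x y, f (c • x) y = c • f x y) (hs' : ∀ (c : ℂ) x y, f x (c • y) = c • f x y)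
    (hc : Continuous fun p : P × P => f p.1 p.2) :
    ∃ C, 0 < C ∧ ∀ x y, ‖f x y‖ ≤ C * ‖x‖ * ‖y‖ := by
  have h0 : f 0 0 = 0 := by
    have := hs 0 0 0
    simpa using this
  have hcont := hc.tendsto (0, 0)
  rw [Metric.tendsto_nhds_nhds] at hcont
  obtain ⟨δ, hδ, hd⟩ := hcont 1 one_pos
  have hd' : ∀ x y, ‖x‖ < δ → ‖y‖ < δ → ‖f x y‖ < 1 := by
    intro x y hx hy
    have h1 : dist ((x, y) : P × P) (0, 0) < δ := by
      rw [Prod.dist_eq, dist_zero_right, dist_zero_right]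
      exact max_lt hx hy
    have := hd h1
    simp only [h0, dist_zero_right] at this
    exact this
  refine ⟨4 / δ ^ 2, by positivity, fun x y => ?_⟩
  by_cases hx : x = 0
  · subst hx
    have : f 0 y = 0 := by simpa using hs 0 0 y
    rw [this]; simp
  by_cases hy : y = 0
  · subst hy
    have : f x 0 = 0 := by simpa using hs' 0 x 0
    rw [this]; simp
  have hnx : 0 < ‖x‖ := norm_pos_iff.mpr hx
  have hny : 0 < ‖y‖ := norm_pos_iff.mpr hy
  have h1 := hd' (((δ / 2 / ‖x‖ : ℝ) : ℂ) • x) (((δ / 2 / ‖y‖ : ℝ) : ℂ) • y) (by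
    rw [norm_smul, Complex.norm_real, Real.norm_eq_abs, abs_of_pos (by positivity),
      div_mul_cancel₀ _ hnx.ne']
    linarith) (by
    rw [norm_smul, Complex.norm_real, Real.norm_eq_abs, abs_of_pos (by positivity),
      div_mul_cancel₀ _ hny.ne']
    linarith)
  rw [hs, hs', norm_smul, norm_smul, Complex.norm_real, Complex.norm_real, Real.norm_eq_abs,
    Real.norm_eq_abs, abs_of_pos (by positivity), abs_of_pos (by positivity)] at h1
  have h2 : ‖f x y‖ < 4 / δ ^ 2 * ‖x‖ * ‖y‖ := by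
    have h3 : ‖f x y‖ = (δ / 2 / ‖x‖ * (δ / 2 / ‖y‖ * ‖f x y‖)) * (4 / δ ^ 2 * ‖x‖ * ‖y‖) := by
      field_simp
      ring
    rw [h3]
    calc (δ / 2 / ‖x‖ * (δ / 2 / ‖y‖ * ‖f x y‖)) * (4 / δ ^ 2 * ‖x‖ * ‖y‖)
        < 1 * (4 / δ ^ 2 * ‖x‖ * ‖y‖) := by
          apply mul_lt_mul_of_pos_right h1; positivity
      _ = 4 / δ ^ 2 * ‖x‖ * ‖y‖ := one_mul _
  exact h2.le

variable {E S X K : Type} [NormedAddCommGroup E] [NormedSpace ℂ E]
  [NormedAddCommGroup S] [NormedSpace ℂ S] [NormedAddCommGroup X] [NormedSpace ℂ X]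
  {M : Maps E S X K}

/-- The basic norm. -/
def nrm (a : TA M) : ℝ := ‖eqv M a‖

theorem eqv_add (a b : TA M) : eqv M (a + b) = eqv M a + eqv M b := rfl
theorem eqv_smul (c : ℂ) (a : TA M) : eqv M (c • a) = c • eqv M a := rfl
theorem eqv_sub (a b : TA M) : eqv M (a - b) = eqv M a - eqv M b := rfl

theorem nrm_isComp [CompleteSpace E] [CompleteSpace S] [CompleteSpace X] :
    IsCompNorm (nrm : TA M → ℝ) where
  nonneg _ := norm_nonneg _
  eq_zero := fun a h => by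
    have h1 : eqv M a = 0 := norm_eq_zero.mp h
    exact (eqv M).injective h1
  add_le := fun a b => by
    unfold nrm; rw [eqv_add]; exact norm_add_le _ _
  smul := fun c a => by
    unfold nrm; rw [eqv_smul]; exact norm_smul _ _
  complete := by
    intro u hu
    obtain ⟨t, ht⟩ := (isCompNorm_norm (PT E S X K)).complete (fun n => eqv M (u n)) (by
      intro ε hε
      obtain ⟨n₀, hn₀⟩ := hu ε hε
      exact ⟨n₀, fun m hm n hn => hn₀ m hm n hn⟩)
    exact ⟨(eqv M).symm t, ht⟩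

set_option maxRecDepth 20000 in
theorem nrm_mul_bound : ∃ C, 0 < C ∧ ∀ a b : TA M, nrm (a * b) ≤ C * nrm a * nrm b := by
  obtain ⟨C, hC, h⟩ := bilin_bound (P := PT E S X K)
    (fun s t => eqv M ((eqv M).symm s * (eqv M).symm t))
    (fun c s t => by
      have : (eqv M).symm (c • s) = c • (eqv M).symm s := rfl
      simp only [this]
      rw [smul_mul_assoc]
      rfl)
    (fun c s t => by
      have : (eqv M).symm (c • t) = c • (eqv M).symm t := rfl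
      simp only [this]
      rw [mul_smul_comm]
      rfl)
    (by
      simp only [eqv, Equiv.coe_fn_mk, Equiv.coe_fn_symm_mk, TA.mul_rl, TA.mul_ri, TA.mul_ra,
        TA.mul_rf, TA.mul_rj, TA.mul_rc, TA.mul_f, TA.mul_y, TA.mul_yc, TA.mul_p, TA.mul_q,
        TA.mul_d, TA.mul_g, TA.mul_x, TA.mul_z, TA.mul_w]
      fun_prop)
  exact ⟨C, hC, fun a b => h (eqv M a) (eqv M b)⟩

/-- Unit vector of the component `rl`. -/
def u_rl : TA M := ⟨1, 0, 0, 0, 0, 0, 0, 0, 0, 0, 0, 0, 0, 0, 0, 0⟩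

/-- Unit vector of the component `ri`. -/
def u_ri : TA M := ⟨0, 1, 0, 0, 0, 0, 0, 0, 0, 0, 0, 0, 0, 0, 0, 0⟩

/-- Unit vector of the component `ra`. -/
def u_ra : TA M := ⟨0, 0, 1, 0, 0, 0, 0, 0, 0, 0, 0, 0, 0, 0, 0, 0⟩

/-- Unit vector of the component `rf`. -/
def u_rf : TA M := ⟨0, 0, 0, 1, 0, 0, 0, 0, 0, 0, 0, 0, 0, 0, 0, 0⟩

/-- Unit vector of the component `rj`. -/
def u_rj : TA M := ⟨0, 0, 0, 0, 1, 0, 0, 0, 0, 0, 0, 0, 0, 0, 0, 0⟩

/-- Unit vector of the component `rc`. -/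
def u_rc : TA M := ⟨0, 0, 0, 0, 0, 1, 0, 0, 0, 0, 0, 0, 0, 0, 0, 0⟩

/-- Inclusion of the component `f`. -/
def in_f : E →ₗ[ℂ] TA M where
  toFun v := ⟨0, 0, 0, 0, 0, 0, v, 0, 0, 0, 0, 0, 0, 0, 0, 0⟩
  map_add' a b := by apply TA.ext' <;> simp
  map_smul' a b := by apply TA.ext' <;> simp

theorem in_f_apply (v : E) : (in_f v : TA M) = ⟨0, 0, 0, 0, 0, 0, v, 0, 0, 0, 0, 0, 0, 0, 0, 0⟩ := rfl

/-- Inclusion of the component `y`. -/
def in_y : S →ₗ[ℂ] TA M where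
  toFun v := ⟨0, 0, 0, 0, 0, 0, 0, v, 0, 0, 0, 0, 0, 0, 0, 0⟩
  map_add' a b := by apply TA.ext' <;> simp
  map_smul' a b := by apply TA.ext' <;> simp

theorem in_y_apply (v : S) : (in_y v : TA M) = ⟨0, 0, 0, 0, 0, 0, 0, v, 0, 0, 0, 0, 0, 0, 0, 0⟩ := rfl

/-- Unit vector of the component `yc`. -/
def u_yc : TA M := ⟨0, 0, 0, 0, 0, 0, 0, 0, 1, 0, 0, 0, 0, 0, 0, 0⟩

/-- Inclusion of the component `p`. -/
def in_p : L1 K →ₗ[ℂ] TA M where
  toFun v := ⟨0, 0, 0, 0, 0, 0, 0, 0, 0, v, 0, 0, 0, 0, 0, 0⟩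
  map_add' a b := by apply TA.ext' <;> simp
  map_smul' a b := by apply TA.ext' <;> simp

theorem in_p_apply (v : L1 K) : (in_p v : TA M) = ⟨0, 0, 0, 0, 0, 0, 0, 0, 0, v, 0, 0, 0, 0, 0, 0⟩ := rfl

/-- Inclusion of the component `q`. -/
def in_q : L1 K →ₗ[ℂ] TA M where
  toFun v := ⟨0, 0, 0, 0, 0, 0, 0, 0, 0, 0, v, 0, 0, 0, 0, 0⟩
  map_add' a b := by apply TA.ext' <;> simp
  map_smul' a b := by apply TA.ext' <;> simp

theorem in_q_apply (v : L1 K) : (in_q v : TA M) = ⟨0, 0, 0, 0, 0, 0, 0, 0, 0, 0, v, 0, 0, 0, 0, 0⟩ := rfl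

/-- Inclusion of the component `d`. -/
def in_d : L1 K →ₗ[ℂ] TA M where
  toFun v := ⟨0, 0, 0, 0, 0, 0, 0, 0, 0, 0, 0, v, 0, 0, 0, 0⟩
  map_add' a b := by apply TA.ext' <;> simp
  map_smul' a b := by apply TA.ext' <;> simp

theorem in_d_apply (v : L1 K) : (in_d v : TA M) = ⟨0, 0, 0, 0, 0, 0, 0, 0, 0, 0, 0, v, 0, 0, 0, 0⟩ := rfl

/-- Inclusion of the component `g`. -/
def in_g : L1 K →ₗ[ℂ] TA M where
  toFun v := ⟨0, 0, 0, 0, 0, 0, 0, 0, 0, 0, 0, 0, v, 0, 0, 0⟩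
  map_add' a b := by apply TA.ext' <;> simp
  map_smul' a b := by apply TA.ext' <;> simp

theorem in_g_apply (v : L1 K) : (in_g v : TA M) = ⟨0, 0, 0, 0, 0, 0, 0, 0, 0, 0, 0, 0, v, 0, 0, 0⟩ := rfl

/-- Inclusion of the component `x`. -/
def in_x : X →ₗ[ℂ] TA M where
  toFun v := ⟨0, 0, 0, 0, 0, 0, 0, 0, 0, 0, 0, 0, 0, v, 0, 0⟩
  map_add' a b := by apply TA.ext' <;> simp
  map_smul' a b := by apply TA.ext' <;> simp

theorem in_x_apply (v : X) : (in_x v : TA M) = ⟨0, 0, 0, 0, 0, 0, 0, 0, 0, 0, 0, 0, 0, v, 0, 0⟩ := rfl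

/-- Unit vector of the component `z`. -/
def u_z : TA M := ⟨0, 0, 0, 0, 0, 0, 0, 0, 0, 0, 0, 0, 0, 0, 1, 0⟩

/-- Unit vector of the component `w`. -/
def u_w : TA M := ⟨0, 0, 0, 0, 0, 0, 0, 0, 0, 0, 0, 0, 0, 0, 0, 1⟩

theorem decomp (a : TA M) : a = a.rl • u_rl + a.ri • u_ri + a.ra • u_ra + a.rf • u_rf + a.rj • u_rj + a.rc • u_rc + in_f a.f + in_y a.y + a.yc • u_yc + in_p a.p + in_q a.q + in_d a.d + in_g a.g + in_x a.x + a.z • u_z + a.w • u_w := by
  apply TA.ext' <;> simp [u_rl, u_ri, u_ra, u_rf, u_rj, u_rc, in_f_apply, in_y_apply, u_yc, in_p_apply, in_q_apply, in_d_apply, in_g_apply, in_x_apply, u_z, u_w]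

theorem cut_f (a : TA M) : u_rl * a * u_ri = in_f a.f := by
  apply TA.ext' <;> simp [u_rl, u_ri, u_ra, u_rf, u_rj, u_rc, in_f_apply, in_y_apply, u_yc, in_p_apply, in_q_apply, in_d_apply, in_g_apply, in_x_apply, u_z, u_w]

theorem cut_y (a : TA M) : u_ri * a * u_rj = in_y a.y + a.yc • u_yc := by
  apply TA.ext' <;> simp [u_rl, u_ri, u_ra, u_rf, u_rj, u_rc, in_f_apply, in_y_apply, u_yc, in_p_apply, in_q_apply, in_d_apply, in_g_apply, in_x_apply, u_z, u_w]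

theorem cut_p (a : TA M) : u_rl * a * u_ra = in_p a.p := by
  apply TA.ext' <;> simp [u_rl, u_ri, u_ra, u_rf, u_rj, u_rc, in_f_apply, in_y_apply, u_yc, in_p_apply, in_q_apply, in_d_apply, in_g_apply, in_x_apply, u_z, u_w]

theorem cut_q (a : TA M) : u_ra * a * u_rj = in_q a.q := by
  apply TA.ext' <;> simp [u_rl, u_ri, u_ra, u_rf, u_rj, u_rc, in_f_apply, in_y_apply, u_yc, in_p_apply, in_q_apply, in_d_apply, in_g_apply, in_x_apply, u_z, u_w]

theorem cut_d (a : TA M) : u_ra * a * u_rc = in_d a.d := by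
  apply TA.ext' <;> simp [u_rl, u_ri, u_ra, u_rf, u_rj, u_rc, in_f_apply, in_y_apply, u_yc, in_p_apply, in_q_apply, in_d_apply, in_g_apply, in_x_apply, u_z, u_w]

theorem cut_g (a : TA M) : u_rf * a * u_ra = in_g a.g := by
  apply TA.ext' <;> simp [u_rl, u_ri, u_ra, u_rf, u_rj, u_rc, in_f_apply, in_y_apply, u_yc, in_p_apply, in_q_apply, in_d_apply, in_g_apply, in_x_apply, u_z, u_w]

theorem cut_x (a : TA M) : u_rl * a * u_rj = in_x a.x := by
  apply TA.ext' <;> simp [u_rl, u_ri, u_ra, u_rf, u_rj, u_rc, in_f_apply, in_y_apply, u_yc, in_p_apply, in_q_apply, in_d_apply, in_g_apply, in_x_apply, u_z, u_w]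

theorem mul_pd (a b : L1 K) : (in_p a * in_d b : TA M) = pair a b • u_z := by
  apply TA.ext' <;> simp [u_rl, u_ri, u_ra, u_rf, u_rj, u_rc, in_f_apply, in_y_apply, u_yc, in_p_apply, in_q_apply, in_d_apply, in_g_apply, in_x_apply, u_z, u_w]

theorem mul_gq (a b : L1 K) : (in_g a * in_q b : TA M) = pair a b • u_w := by
  apply TA.ext' <;> simp [u_rl, u_ri, u_ra, u_rf, u_rj, u_rc, in_f_apply, in_y_apply, u_yc, in_p_apply, in_q_apply, in_d_apply, in_g_apply, in_x_apply, u_z, u_w]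

theorem mul_pq (a b : L1 K) : (in_p a * in_q b : TA M) = in_x (M.mu a b) := by
  apply TA.ext' <;> simp [u_rl, u_ri, u_ra, u_rf, u_rj, u_rc, in_f_apply, in_y_apply, u_yc, in_p_apply, in_q_apply, in_d_apply, in_g_apply, in_x_apply, u_z, u_w]

theorem mul_fy (a : E) (b : S) : (in_f a * in_y b : TA M) = in_x (M.B1 a b) := by
  apply TA.ext' <;> simp [u_rl, u_ri, u_ra, u_rf, u_rj, u_rc, in_f_apply, in_y_apply, u_yc, in_p_apply, in_q_apply, in_d_apply, in_g_apply, in_x_apply, u_z, u_w]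

theorem mul_fyc (a : E) : (in_f a * u_yc : TA M) = in_x (M.B2 a) := by
  apply TA.ext' <;> simp [u_rl, u_ri, u_ra, u_rf, u_rj, u_rc, in_f_apply, in_y_apply, u_yc, in_p_apply, in_q_apply, in_d_apply, in_g_apply, in_x_apply, u_z, u_w]

end

end Q81TN
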