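import Pool.Agent.Q81.TN.Classify

/-! The corner `Y` and the parameter `σ`. -/

set_option linter.unusedSectionVars false
set_option linter.deprecated false
set_option linter.unusedSimpArgs false

namespace Q81TN
open scoped ENNReal Topology
open Filter

noncomputable section

variable {E S X K : Type} [NormedAddCommGroup E] [NormedSpace ℂ E]
  [NormedAddCommGroup S] [NormedSpace ℂ S] [NormedAddCommGroup X] [NormedSpace ℂ X]
variable [CompleteSpace E] [CompleteSpace S] [CompleteSpace X]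
variable (D : Dat E S X K) {p : TA (M1 D) → ℝ}

/-- The inclusion of `Y = S × ℂ`. -/
def TY : (S × ℂ) →ₗ[ℂ] TA (M1 D) where
  toFun v := in_y v.1 + v.2 • u_yc
  map_add' a b := by
    rw [Prod.fst_add, Prod.snd_add, map_add, add_smul]; abel
  map_smul' c a := by
    rw [Prod.smul_fst, Prod.smul_snd, map_smul, RingHom.id_apply, smul_add, smul_assoc]

theorem TY_apply (v : S × ℂ) : TY D v = in_y v.1 + v.2 • u_yc := rfl

theorem TY_y (v : S × ℂ) : (TY D v).y = v.1 := by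
  simp [TY_apply, in_y_apply, u_yc]

theorem TY_yc (v : S × ℂ) : (TY D v).yc = v.2 := by
  simp [TY_apply, in_y_apply, u_yc]

theorem cut_TY (w : TA (M1 D)) : u_ri * w * u_rj = TY D (w.y, w.yc) := by
  rw [cut_y, TY_apply]

theorem cut_TY' (v : S × ℂ) : u_ri * TY D v * u_rj = TY D v := by
  rw [cut_TY, TY_y, TY_yc]

theorem mul_TY (f : E) (v : S × ℂ) :
    in_f f * TY D v = in_x (D.m f v.1 + v.2 • D.j (D.L f)) := by
  rw [TY_apply, mul_add, mul_fy, mul_smul_comm, mul_fyc, map_add, map_smul]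
  rfl

theorem Lt_es : Lt D D.es = 0 := by
  rw [Lt_apply, D.L_es, ← D.hL, D.L_es, map_zero, zero_smul, add_zero]

theorem Lt_e0 : Lt D D.e0 = D.x0 := by
  rw [Lt_apply, D.L_e0, D.ell_e0, zero_smul, add_zero]

theorem h_x0 : D.h D.x0 = 0 := by rw [← D.L_e0, D.hL, D.ell_e0]

theorem N_m' (f : E) (y : S) : D.N (D.m f y) = D.h y • Lt D f := D.N_m f y

section
variable (hp : IsBanachAlgebraNorm p)
include hp

theorem lim_Y {u : ℕ → S × ℂ} {w : TA (M1 D)}
    (h : Tendsto (fun n => p (TY D (u n) - w)) atTop (𝓝 0)) : w = TY D (w.y, w.yc) := by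
  have h1 := mul_tendsto_right hp u_rj (mul_tendsto_left hp u_ri h)
  have h2 : Tendsto (fun n => p (TY D (u n) - TY D (w.y, w.yc))) atTop (𝓝 0) := by
    refine h1.congr (fun n => ?_)
    rw [cut_TY', cut_TY]
  exact hp.comp.lim_unique h h2

theorem lim_y {u : ℕ → S × ℂ} {w : TA (M1 D)} {y : S}
    (h : Tendsto (fun n => p (TY D (u n) - w)) atTop (𝓝 0))
    (hy : Tendsto (fun n => ‖(u n).1 - y‖) atTop (𝓝 0)) : w.y = y := by
  obtain ⟨C, hC, hX⟩ := bound_x D hp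
  have h0 := lim_Y D hp h
  have h1 := mul_tendsto_left hp (in_f D.es) h
  rw [h0] at h1
  have h2 : Tendsto (fun n => p (in_x (D.m D.es (u n).1) - in_x (D.m D.es w.y))) atTop (𝓝 0) := by
    refine h1.congr (fun n => ?_)
    rw [mul_TY, mul_TY, D.L_es, map_zero, smul_zero, add_zero, smul_zero, add_zero]
  have h3 : Tendsto (fun n => p (in_x (D.m D.es (u n).1) - in_x (D.m D.es y))) atTop (𝓝 0) := by
    have h4 : Tendsto (fun n => C * (‖D.m D.es‖ * ‖(u n).1 - y‖)) atTop (𝓝 0) := by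
      simpa using (hy.const_mul ‖D.m D.es‖).const_mul C
    refine squeeze_zero (fun n => hp.nonneg _) (fun n => ?_) h4
    rw [← map_sub, ← map_sub]
    refine (hX _).trans ?_
    rw [N_m', Lt_es, smul_zero, norm_zero, add_zero]
    exact mul_le_mul_of_nonneg_left ((D.m D.es).le_opNorm _) hC
  have h5 := hp.comp.lim_unique h2 h3
  have h6 : (in_x (D.m D.es (w.y - y)) : TA (M1 D)) = 0 := by
    rw [map_sub, map_sub, h5, sub_self]
  rcases D.faithful _ _ (in_x_eq_zero D h6) with h7 | h7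
  · exact absurd h7 D.es_ne
  · exact sub_eq_zero.mp h7

theorem exists_c : ∃ C, 0 ≤ C ∧ ∀ y : S, ∃ c : ℂ, p (TY D (y, c)) ≤ C * ‖y‖ := by
  have hr : IsCompNorm (fun v : S × ℂ => ‖v.1‖ + p (TY D v)) := by
    refine ⟨fun x => add_nonneg (norm_nonneg _) (hp.nonneg _), fun x hx => ?_, fun x y => ?_,
      fun c x => ?_, fun u hu => ?_⟩
    · have h1 : p (TY D x) = 0 :=
        le_antisymm (by linarith [norm_nonneg x.1]) (hp.nonneg _)
      have h2 := (hp.eq_zero_iff _).mp h1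
      have h3 : x.1 = 0 := by rw [← TY_y D x, h2]; rfl
      have h4 : x.2 = 0 := by rw [← TY_yc D x, h2]; rfl
      exact Prod.ext h3 h4
    · rw [map_add, Prod.fst_add]
      linarith [norm_add_le x.1 y.1, hp.add_le (TY D x) (TY D y)]
    · rw [map_smul, hp.smul, Prod.smul_fst, norm_smul, mul_add]
    · obtain ⟨y, hy⟩ := (isCompNorm_norm S).complete (fun n => (u n).1) (by
        intro ε hε
        obtain ⟨n₀, hn₀⟩ := hu ε hε
        refine ⟨n₀, fun m hm n hn => ?_⟩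
        have h1 := hn₀ m hm n hn
        simp only [Prod.fst_sub] at h1
        linarith [hp.nonneg (TY D (u m - u n))])
      obtain ⟨w, hw⟩ := hp.complete (fun n => TY D (u n)) (by
        intro ε hε
        obtain ⟨n₀, hn₀⟩ := hu ε hε
        refine ⟨n₀, fun m hm n hn => ?_⟩
        have h1 := hn₀ m hm n hn
        rw [map_sub] at h1
        linarith [norm_nonneg (u m - u n).1])
      have h1 := lim_Y D hp hw
      have h2 := lim_y D hp hw hy
      refine ⟨(w.y, w.yc), ?_⟩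
      have h3 := hy.add hw
      rw [add_zero] at h3
      refine h3.congr (fun n => ?_)
      rw [map_sub, ← h1, Prod.fst_sub]
      simp only [h2]
  obtain ⟨C, hC, hex⟩ := open_map hr (isCompNorm_norm S) (LinearMap.fst ℂ S ℂ)
    (fun y => ⟨(y, 0), rfl⟩) (C := 1) (fun v => by
      rw [one_mul]
      exact le_add_of_nonneg_right (hp.nonneg _))
  refine ⟨C, hC, fun y => ?_⟩
  obtain ⟨v, hv, hle⟩ := hex y
  refine ⟨v.2, ?_⟩
  have h1 : v = (y, v.2) := Prod.ext hv rfl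
  rw [← h1]
  linarith [norm_nonneg v.1]

theorem bound_y : ∃ C, 0 ≤ C ∧ ∀ y : S, p (in_y y) ≤ C * (‖y‖ + ‖D.h y‖) := by
  obtain ⟨C, hC, hX⟩ := bound_x D hp
  obtain ⟨C', hC', hc⟩ := exists_c D hp
  have hz : (in_x (D.j D.x0) : TA (M1 D)) ≠ 0 := by
    intro h
    exact D.x0_ne (D.j_inj _ (in_x_eq_zero D h))
  have hzpos : 0 < p (in_x (D.j D.x0)) :=
    lt_of_le_of_ne (hp.nonneg _) (fun h => hz ((hp.eq_zero_iff _).mp h.symm))
  set A : ℝ := p (in_f D.e0) * C' + C * (‖D.m D.e0‖ + ‖D.x0‖) with hA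
  have hA0 : 0 ≤ A := add_nonneg (mul_nonneg (hp.nonneg _) hC') (by positivity)
  refine ⟨C' + A / p (in_x (D.j D.x0)) * p u_yc,
    add_nonneg hC' (mul_nonneg (div_nonneg hA0 hzpos.le) (hp.nonneg _)), fun y => ?_⟩
  obtain ⟨c, hcy⟩ := hc y
  have h1 : ‖c‖ * p (in_x (D.j D.x0)) ≤ A * (‖y‖ + ‖D.h y‖) := by
    have h2 : in_f D.e0 * TY D (y, c) = in_x (D.m D.e0 y) + c • in_x (D.j D.x0) := by
      rw [mul_TY, map_add, map_smul, D.L_e0]
    have h3 : c • (in_x (D.j D.x0) : TA (M1 D)) = in_f D.e0 * TY D (y, c) - in_x (D.m D.e0 y) := by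
      rw [h2]; abel
    rw [← hp.smul, h3]
    refine (hp.comp.sub_le _ _).trans ?_
    have h4 : p (in_f D.e0 * TY D (y, c)) ≤ p (in_f D.e0) * C' * ‖y‖ := by
      refine (hp.mul_le _ _).trans ?_
      rw [mul_assoc]
      exact mul_le_mul_of_nonneg_left hcy (hp.nonneg _)
    have h5 : p (in_x (D.m D.e0 y)) ≤ C * (‖D.m D.e0‖ * ‖y‖ + ‖D.h y‖ * ‖D.x0‖) := by
      refine (hX _).trans ?_
      rw [N_m', Lt_e0, norm_smul]
      exact mul_le_mul_of_nonneg_left (add_le_add ((D.m D.e0).le_opNorm _) le_rfl) hC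
    have h6 : (0 : ℝ) ≤ ‖y‖ := norm_nonneg _
    have h7 : (0 : ℝ) ≤ ‖D.h y‖ := norm_nonneg _
    have h8 : p (in_f D.e0) * C' * ‖y‖ ≤ p (in_f D.e0) * C' * (‖y‖ + ‖D.h y‖) :=
      mul_le_mul_of_nonneg_left (by linarith) (mul_nonneg (hp.nonneg _) hC')
    have h9 : C * (‖D.m D.e0‖ * ‖y‖ + ‖D.h y‖ * ‖D.x0‖) ≤
        C * (‖D.m D.e0‖ + ‖D.x0‖) * (‖y‖ + ‖D.h y‖) := by
      rw [mul_assoc]
      refine mul_le_mul_of_nonneg_left ?_ hC
      nlinarith [mul_nonneg (norm_nonneg (D.m D.e0)) h7, mul_nonneg (norm_nonneg D.x0) h6]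
    calc _ ≤ p (in_f D.e0) * C' * (‖y‖ + ‖D.h y‖) + C * (‖D.m D.e0‖ + ‖D.x0‖) * (‖y‖ + ‖D.h y‖) :=
          add_le_add (h4.trans h8) (h5.trans h9)
      _ = A * (‖y‖ + ‖D.h y‖) := by rw [hA]; ring
  have h2 : ‖c‖ ≤ A / p (in_x (D.j D.x0)) * (‖y‖ + ‖D.h y‖) := by
    rw [div_mul_eq_mul_div, le_div_iff₀ hzpos]
    exact h1
  have h3 : (in_y y : TA (M1 D)) = TY D (y, c) - c • u_yc := by
    rw [TY_apply]; simp
  rw [h3]
  refine (hp.comp.sub_le _ _).trans ?_
  rw [hp.smul]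
  have h4 : ‖c‖ * p u_yc ≤ A / p (in_x (D.j D.x0)) * (‖y‖ + ‖D.h y‖) * p u_yc :=
    mul_le_mul_of_nonneg_right h2 (hp.nonneg _)
  have h5 : C' * ‖y‖ ≤ C' * (‖y‖ + ‖D.h y‖) :=
    mul_le_mul_of_nonneg_left (by linarith [norm_nonneg (D.h y)]) hC'
  calc _ ≤ C' * (‖y‖ + ‖D.h y‖) + A / p (in_x (D.j D.x0)) * (‖y‖ + ‖D.h y‖) * p u_yc :=
        add_le_add (hcy.trans h5) h4
    _ = _ := by ring

/-- The parameter `σ`. -/
theorem exists_sigma : ∃ σ : ℂ, ∃ C, 0 ≤ C ∧ ∀ y : S,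
    p (in_y y - (D.h y * σ) • u_yc) ≤ C * ‖y‖ := by
  obtain ⟨C, hC, hY⟩ := bound_y D hp
  have hr1 : ∀ n, D.h (D.L (D.en n)) = 1 := fun n => by rw [D.hL, D.ell_en]
  set r : ℕ → S := fun n => D.L (D.en n) with hr
  have hr0 : Tendsto (fun n => ‖r n‖) atTop (𝓝 0) := D.L_en
  obtain ⟨w, hw⟩ := hp.complete (fun n => TY D (r n, 0)) (by
    intro ε hε
    have h1 : Tendsto (fun n => C * ‖r n‖) atTop (𝓝 0) := by simpa using hr0.const_mul C
    obtain ⟨n₀, hn₀⟩ := (Metric.tendsto_atTop.mp h1) (ε / 2) (half_pos hε)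
    refine ⟨n₀, fun m hm n hn => ?_⟩
    have h2 := hn₀ m hm
    have h3 := hn₀ n hn
    rw [dist_zero_right, Real.norm_eq_abs, abs_of_nonneg (mul_nonneg hC (norm_nonneg _))] at h2 h3
    have h4 : TY D (r m, 0) - TY D (r n, 0) = in_y (r m - r n) := by
      rw [TY_apply, TY_apply]; simp
    rw [h4]
    refine (hY _).trans_lt ?_
    have h5 : D.h (r m - r n) = 0 := by rw [map_sub, hr1, hr1, sub_self]
    rw [h5, norm_zero, add_zero]
    have h6 := mul_le_mul_of_nonneg_left (norm_sub_le (r m) (r n)) hC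
    linarith)
  have h1 := lim_Y D hp hw
  have h2 : w.y = 0 := lim_y D hp hw (y := 0) (by simpa using hr0)
  refine ⟨w.yc, C, hC, fun y => ?_⟩
  have h3 : ∀ n, p (in_y y - (D.h y * w.yc) • u_yc) ≤
      C * (‖y‖ + ‖D.h y‖ * ‖r n‖) + ‖D.h y‖ * p (TY D (r n, 0) - w) := by
    intro n
    have hw' : TY D (r n, 0) - w = in_y (r n) - w.yc • u_yc := by
      rw [TY_apply]
      simp only [zero_smul, add_zero]
      congr 1
      conv_lhs => rw [h1, h2, TY_apply]
      simp only [map_zero, zero_add]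
    have h4 : in_y y - (D.h y * w.yc) • u_yc =
        in_y (y - D.h y • r n) + D.h y • (TY D (r n, 0) - w) := by
      rw [hw', map_sub, map_smul, smul_sub, smul_smul]
      abel
    rw [h4]
    refine (hp.add_le _ _).trans (add_le_add ?_ ?_)
    · refine (hY _).trans ?_
      have h5 : D.h (y - D.h y • r n) = 0 := by
        rw [map_sub, map_smul, hr1, smul_eq_mul, mul_one, sub_self]
      rw [h5, norm_zero, add_zero]
      refine mul_le_mul_of_nonneg_left ?_ hC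
      refine (norm_sub_le _ _).trans ?_
      rw [norm_smul]
    · rw [hp.smul]
  have h4 : Tendsto (fun n => C * (‖y‖ + ‖D.h y‖ * ‖r n‖) + ‖D.h y‖ * p (TY D (r n, 0) - w)) atTop
      (𝓝 (C * (‖y‖ + ‖D.h y‖ * 0) + ‖D.h y‖ * 0)) :=
    (((hr0.const_mul _).const_add _).const_mul _).add (hw.const_mul _)
  simp only [mul_zero, add_zero] at h4
  exact ge_of_tendsto' h4 h3

end

end

end Q81TN
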