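import Pool.Agent.Q81.TN.L1

/-! Operators on `ℓ¹(I × I)`, tensors, and the tail lemma. -/

namespace Q81TN
open scoped ENNReal Topology
open Filter

noncomputable section

variable {I : Type}

open Classical in
/-- Kill the diagonal. -/
def off : L1 (I × I) →L[ℂ] L1 (I × I) :=
  lift (fun p => if p.1 = p.2 then 0 else e p) 1 (by
    intro p; split_ifs <;> simp [norm_e])

open Classical in
/-- The diagonal. -/
def dg : L1 (I × I) →L[ℂ] L1 I :=
  lift (fun p => if p.1 = p.2 then e p.1 else 0) 1 (by
    intro p; split_ifs <;> simp [norm_e])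

/-- Embedding on the diagonal. -/
def emb : L1 I →L[ℂ] L1 (I × I) :=
  lift (fun i => e (i, i)) 1 (by intro p; simp [norm_e])

open Classical in
/-- Restriction to `J × J`. -/
def rs (J : Set I) : L1 (I × I) →L[ℂ] L1 (I × I) :=
  lift (fun p => if p.1 ∈ J ∧ p.2 ∈ J then e p else 0) 1 (by
    intro p; split_ifs <;> simp [norm_e])

open Classical in
/-- Restriction to the rows outside `J`. -/
def ro (J : Set I) : L1 (I × I) →L[ℂ] L1 (I × I) :=
  lift (fun p => if p.1 ∈ J then 0 else e p) 1 (by
    intro p; split_ifs <;> simp [norm_e])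

open Classical in
/-- Restriction of a vector to `J`. -/
def rv (J : Set I) : L1 I →L[ℂ] L1 I :=
  lift (fun i => if i ∈ J then e i else 0) 1 (by
    intro p; split_ifs <;> simp [norm_e])

open Classical in
/-- The row `k`. -/
def row (k : I) : L1 (I × I) →L[ℂ] L1 I :=
  lift (fun p => if p.1 = k then e p.2 else 0) 1 (by
    intro p; split_ifs <;> simp [norm_e])

open Classical in
@[simp] theorem off_e (p : I × I) : off (e p) = if p.1 = p.2 then 0 else e p := by simp [off]
open Classical in
@[simp] theorem dg_e (p : I × I) : dg (e p) = if p.1 = p.2 then e p.1 else 0 := by simp [dg]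
@[simp] theorem emb_e (i : I) : emb (e i) = e (i, i) := by simp [emb]
open Classical in
@[simp] theorem rs_e (J : Set I) (p : I × I) :
    rs J (e p) = if p.1 ∈ J ∧ p.2 ∈ J then e p else 0 := by simp [rs]
open Classical in
@[simp] theorem ro_e (J : Set I) (p : I × I) :
    ro J (e p) = if p.1 ∈ J then 0 else e p := by simp [ro]
open Classical in
@[simp] theorem rv_e (J : Set I) (i : I) : rv J (e i) = if i ∈ J then e i else 0 := by simp [rv]
open Classical in
@[simp] theorem row_e (k : I) (p : I × I) :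
    row k (e p) = if p.1 = k then e p.2 else 0 := by simp [row]

theorem off_add_emb (z : L1 (I × I)) : off z + emb (dg z) = z := by
  have := ext_e_apply (off + emb.comp dg) (ContinuousLinearMap.id ℂ (L1 (I × I))) (by
    rintro ⟨i, j⟩
    by_cases h : i = j
    · subst h; simp
    · simp [h]) z
  simpa using this

theorem rs_rs {J J' : Set I} (h : J ⊆ J') (z : L1 (I × I)) : rs J' (rs J z) = rs J z := by
  have := ext_e_apply ((rs J').comp (rs J)) (rs J) (by
    rintro ⟨i, j⟩
    by_cases hp : i ∈ J ∧ j ∈ J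
    · simp [hp.1, hp.2, h hp.1, h hp.2]
    · simp [hp]) z
  simpa using this

theorem rs_rs' {J J' : Set I} (h : J ⊆ J') (z : L1 (I × I)) : rs J (rs J' z) = rs J z := by
  have := ext_e_apply ((rs J).comp (rs J')) (rs J) (by
    rintro ⟨i, j⟩
    by_cases hp : i ∈ J ∧ j ∈ J
    · simp [hp.1, hp.2, h hp.1, h hp.2]
    · by_cases hq : i ∈ J' ∧ j ∈ J'
      · simp [hp, hq.1, hq.2]
      · simp [hp, hq]) z
  simpa using this

theorem rs_off (J : Set I) (z : L1 (I × I)) : rs J (off z) = off (rs J z) := by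
  have := ext_e_apply ((rs J).comp off) (off.comp (rs J)) (by
    rintro ⟨i, j⟩
    by_cases hp : i ∈ J ∧ j ∈ J <;> by_cases h : i = j
    · subst h; simp [hp]
    · simp [h, hp.1, hp.2]
    · subst h; simp at hp; simp [hp]
    · simp [h, hp]) z
  simpa using this

theorem rs_emb (J : Set I) (d : L1 I) : rs J (emb d) = emb (rv J d) := by
  have := ext_e_apply ((rs J).comp emb) (emb.comp (rv J)) (by
    intro i
    by_cases hp : i ∈ J <;> simp [hp]) d
  simpa using this

theorem dg_rs (J : Set I) (z : L1 (I × I)) : dg (rs J z) = rv J (dg z) := by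
  have := ext_e_apply (dg.comp (rs J)) ((rv J).comp dg) (by
    rintro ⟨i, j⟩
    by_cases hp : i ∈ J ∧ j ∈ J <;> by_cases h : i = j
    · subst h; simp [hp.1]
    · simp [h, hp.1, hp.2]
    · subst h; simp at hp; simp [hp]
    · simp [h, hp]) z
  simpa using this

theorem ro_rs (J : Set I) (z : L1 (I × I)) : ro J (rs J z) = 0 := by
  have := ext_e_apply ((ro J).comp (rs J)) 0 (by
    rintro ⟨i, j⟩
    by_cases hp : i ∈ J ∧ j ∈ J
    · simp [hp.1, hp.2]
    · simp [hp]) z
  simpa using this

theorem ro_off (J : Set I) (z : L1 (I × I)) : ro J (off z) = off (ro J z) := by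
  have := ext_e_apply ((ro J).comp off) (off.comp (ro J)) (by
    rintro ⟨i, j⟩
    by_cases hp : i ∈ J <;> by_cases h : i = j
    · subst h; simp [hp]
    · simp [h, hp]
    · subst h; simp [hp]
    · simp [h, hp]) z
  simpa using this

theorem dg_ro (J : Set I) (z : L1 (I × I)) : dg (ro J z) = dg z - rv J (dg z) := by
  have := ext_e_apply (dg.comp (ro J)) (dg - (rv J).comp dg) (by
    rintro ⟨i, j⟩
    by_cases hp : i ∈ J <;> by_cases h : i = j
    · subst h; simp [hp]
    · simp [h, hp]
    · subst h; simp [hp]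
    · simp [h, hp]) z
  simpa using this

theorem rs_apply (J : Set I) (z : L1 (I × I)) (i j : I) (h : ¬ (i ∈ J ∧ j ∈ J)) :
    rs J z (i, j) = 0 := by
  have := ext_e_apply ((coord (i, j)).comp (rs J)) 0 (by
    rintro ⟨i', j'⟩
    by_cases hp : i' ∈ J ∧ j' ∈ J
    · have hne : ((i, j) : I × I) ≠ (i', j') := by
        rintro heq
        rw [Prod.mk.injEq] at heq
        rw [heq.1, heq.2] at h
        exact h hp
      simp only [ContinuousLinearMap.comp_apply, rs_e, hp.1, hp.2, and_self, if_true,
        zero_apply, coord_apply]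
      exact e_apply_ne hne
    · simp [hp]) z
  simpa using this

theorem row_apply (k : I) (z : L1 (I × I)) (j : I) : row k z j = z (k, j) := by
  classical
  have := ext_e_apply ((coord j).comp (row k)) (coord (k, j)) (by
    rintro ⟨i', j'⟩
    by_cases h : i' = k
    · subst h
      simp only [ContinuousLinearMap.comp_apply, row_e, if_true, coord_apply]
      by_cases hj : j = j'
      · subst hj; rw [e_apply_self, e_apply_self]
      · rw [e_apply_ne hj, e_apply_ne]
        intro heq; exact hj (by rw [Prod.mk.injEq] at heq; exact heq.2)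
    · simp only [ContinuousLinearMap.comp_apply, row_e, h, if_false, coord_apply]
      rw [e_apply_ne]
      · simp
      · intro heq; exact h (by rw [Prod.mk.injEq] at heq; exact heq.1.symm)) z
  simpa using this

theorem dg_apply (k : I) (z : L1 (I × I)) : dg z k = z (k, k) := by
  classical
  have := ext_e_apply ((coord k).comp dg) (coord (k, k)) (by
    rintro ⟨i', j'⟩
    by_cases h : i' = j'
    · subst h
      simp only [ContinuousLinearMap.comp_apply, dg_e, if_true, coord_apply]
      by_cases hj : k = i'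
      · subst hj; rw [e_apply_self, e_apply_self]
      · rw [e_apply_ne hj, e_apply_ne]
        intro heq; exact hj (by rw [Prod.mk.injEq] at heq; exact heq.2)
    · simp only [ContinuousLinearMap.comp_apply, dg_e, h, if_false, coord_apply]
      rw [e_apply_ne]
      · simp
      · intro heq; exact h (by rw [Prod.mk.injEq] at heq; exact heq.1.symm.trans heq.2)) z
  simpa using this

theorem row_ro (J : Set I) (k : I) (z : L1 (I × I)) :
    row k (ro J z) = (open Classical in if k ∈ J then 0 else row k z) := by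
  classical
  by_cases hk : k ∈ J
  · have := ext_e_apply ((row k).comp (ro J)) 0 (by
      rintro ⟨i, j⟩
      by_cases hp : i ∈ J
      · simp [hp]
      · have : i ≠ k := fun h => hp (h ▸ hk)
        simp [hp, this]) z
    simpa [hk] using this
  · have := ext_e_apply ((row k).comp (ro J)) (row k) (by
      rintro ⟨i, j⟩
      by_cases hp : i ∈ J
      · have : i ≠ k := fun h => hk (h ▸ hp)
        simp [hp, this]
      · simp [hp]) z
    simpa [hk] using this

theorem norm_off_le (z : L1 (I × I)) : ‖off z‖ ≤ ‖z‖ := by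
  have h : ‖off z‖ ≤ 1 * ‖z‖ := norm_lift_le _ 1 _ z
  rwa [one_mul] at h

theorem norm_emb_le (z : L1 I) : ‖emb z‖ ≤ ‖z‖ := by
  have h : ‖emb z‖ ≤ 1 * ‖z‖ := norm_lift_le _ 1 _ z
  rwa [one_mul] at h

theorem summable_row (z : L1 (I × I)) : Summable fun k => ‖row k z‖ := by
  have h1 := summable_norm z
  have h2 := h1.prod
  refine h2.congr (fun k => ?_)
  rw [norm_eq]
  exact tsum_congr fun j => by rw [row_apply]

theorem tsum_row (z : L1 (I × I)) : ∑' k, ‖row k z‖ = ‖z‖ := by
  have h1 := summable_norm z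
  rw [norm_eq z, h1.tsum_prod]
  refine tsum_congr fun k => ?_
  rw [norm_eq]
  exact tsum_congr fun j => by rw [row_apply]

/-- If every diagonal entry is small compared with its row, the diagonal is small. -/
theorem norm_dg_le {ε : ℝ} (z : L1 (I × I)) (h : ∀ k, ‖dg z k‖ ≤ ε * ‖row k z‖) :
    ‖dg z‖ ≤ ε * ‖z‖ := by
  rw [norm_eq, ← tsum_row z, ← tsum_mul_left]
  exact (summable_norm (dg z)).tsum_le_tsum h ((summable_row z).mul_left ε)

/-- Tail lemma. -/
theorem tail (J : Set I) (w : I → L1 (I × I)) (hw : ∀ i, ‖w i‖ ≤ 1)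
    (hwJ : ∀ i ∈ J, rs J (w i) = w i) (z : L1 (I × I))
    (hz : ∀ k, k ∉ J → ‖dg z k‖ ≤ (1 / 4) * ‖row k z‖)
    (hy : rs J (off z + lift w 1 hw (dg z)) = off z + lift w 1 hw (dg z)) :
    rs J z = z := by
  classical
  have hro : ro J (off z) = - ro J (lift w 1 hw (dg z)) := by
    have h1 : ro J (off z + lift w 1 hw (dg z)) = 0 := by
      rw [← hy, ro_rs]
    rw [map_add] at h1
    exact eq_neg_of_add_eq_zero_left h1
  have hw' : ∀ i, ‖ro J (w i)‖ ≤ 1 := fun i => by
    have : ‖ro J (w i)‖ ≤ 1 * ‖w i‖ := norm_lift_le _ 1 _ _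
    linarith [hw i]
  have h2 : ro J (lift w 1 hw (dg z)) = lift (fun i => ro J (w i)) 1 hw' (dg (ro J z)) := by
    have h3 : ro J (lift w 1 hw (dg z)) = lift (fun i => ro J (w i)) 1 hw' (dg z) := by
      have := ext_e_apply ((ro J).comp (lift w 1 hw)) (lift (fun i => ro J (w i)) 1 hw')
        (fun i => by simp) (dg z)
      simpa using this
    have h4 : lift (fun i => ro J (w i)) 1 hw' (rv J (dg z)) = 0 := by
      have := ext_e_apply ((lift (fun i => ro J (w i)) 1 hw').comp (rv J)) 0
        (fun i => by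
          by_cases hi : i ∈ J
          · simp only [ContinuousLinearMap.comp_apply, rv_e, hi, if_true, lift_e,
              zero_apply]
            rw [← hwJ i hi, ro_rs]
          · simp [hi]) (dg z)
      simpa using this
    rw [h3, dg_ro, map_sub, h4, sub_zero]
  set zz := ro J z with hzz
  have h5 : ‖dg zz‖ ≤ (1 / 4) * ‖zz‖ := by
    apply norm_dg_le
    intro k
    rw [hzz, dg_apply, ← row_apply, row_ro]
    split_ifs with hk
    · simp
    · rw [row_apply, ← dg_apply]
      exact hz k hk
  have h6 : ‖off zz‖ ≤ ‖dg zz‖ := by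
    rw [hzz, ← ro_off, hro, norm_neg, h2]
    simpa using norm_lift_le _ 1 hw' (dg (ro J z))
  have h7 : ‖zz‖ ≤ ‖off zz‖ + ‖dg zz‖ := by
    conv_lhs => rw [← off_add_emb zz]
    exact (norm_add_le _ _).trans (add_le_add le_rfl (norm_emb_le _))
  have h8 : ‖zz‖ = 0 := by
    have := norm_nonneg zz
    linarith
  have h9 : zz = 0 := norm_eq_zero.mp h8
  have h10 : dg z = rv J (dg z) := by
    have := dg_ro J z
    rw [← hzz, h9, map_zero] at this
    exact (sub_eq_zero.mp this.symm)
  have h11 : rs J (lift w 1 hw (dg z)) = lift w 1 hw (dg z) := by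
    rw [h10]
    have := ext_e_apply ((rs J).comp ((lift w 1 hw).comp (rv J))) ((lift w 1 hw).comp (rv J))
      (fun i => by
        by_cases hi : i ∈ J
        · simp [hi, hwJ i hi]
        · simp [hi]) (dg z)
    simpa using this
  have h12 : rs J (off z) = off z := by
    rw [map_add, h11] at hy
    exact add_right_cancel hy
  calc rs J z = rs J (off z + emb (dg z)) := by rw [off_add_emb]
    _ = off z + emb (dg z) := by rw [map_add, h12, rs_emb, ← h10]
    _ = z := off_add_emb z

/-- Finite-rank elements: all rows lie in one finite-dimensional space. -/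
def FR (I : Type) : Submodule ℂ (L1 (I × I)) where
  carrier := {z | ∃ W : Submodule ℂ (L1 I), FiniteDimensional ℂ W ∧ ∀ k, row k z ∈ W}
  add_mem' := by
    rintro a b ⟨W, hW, ha⟩ ⟨W', hW', hb⟩
    refine ⟨W ⊔ W', inferInstance, fun k => ?_⟩
    rw [map_add]
    exact Submodule.add_mem_sup (ha k) (hb k)
  zero_mem' := ⟨⊥, inferInstance, fun k => by simp⟩
  smul_mem' := by
    rintro c a ⟨W, hW, ha⟩
    exact ⟨W, hW, fun k => by rw [map_smul]; exact W.smul_mem _ (ha k)⟩

theorem FR_rs (J : Set I) {z : L1 (I × I)} (hz : z ∈ FR I) : rs J z ∈ FR I := by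
  classical
  obtain ⟨W, hW, ha⟩ := hz
  refine ⟨W.map (rv J : L1 I →ₗ[ℂ] L1 I), inferInstance, fun k => ?_⟩
  have h1 : row k (rs J z) = if k ∈ J then rv J (row k z) else 0 := by
    by_cases hk : k ∈ J
    · have := ext_e_apply ((row k).comp (rs J)) ((rv J).comp (row k)) (by
        rintro ⟨i, j⟩
        by_cases h : i = k
        · subst h
          by_cases hj : j ∈ J <;> simp [hk, hj]
        · by_cases hp : i ∈ J ∧ j ∈ J
          · simp [hp.1, hp.2, h]
          · simp [hp, h]) z
      simpa [hk] using this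
    · have := ext_e_apply ((row k).comp (rs J)) 0 (by
        rintro ⟨i, j⟩
        by_cases hp : i ∈ J ∧ j ∈ J
        · have : i ≠ k := fun h => hk (h ▸ hp.1)
          simp [hp.1, hp.2, this]
        · simp [hp]) z
      simpa [hk] using this
  rw [h1]
  split_ifs
  · exact Submodule.mem_map_of_mem (ha k)
  · exact Submodule.zero_mem _

/-- Uniform smallness of the coordinates on a finite-dimensional subspace of `ℓ¹`. -/
theorem small_coord (W : Submodule ℂ (L1 I)) [FiniteDimensional ℂ W] {ε : ℝ} (hε : 0 < ε) :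
    ∃ F : Finset I, ∀ k, k ∉ F → ∀ v ∈ W, ‖v k‖ ≤ ε * ‖v‖ := by
  classical
  have hprop : ProperSpace W := FiniteDimensional.proper ℂ W
  have hcomp : IsCompact (Metric.closedBall (0 : W) 1) := isCompact_closedBall _ _
  obtain ⟨t, ht, hcov⟩ := hcomp.finite_cover_balls (half_pos hε)
  obtain ⟨htf, hcov⟩ := hcov
  have hfin : ∀ v : W, ∃ F : Finset I, ∀ k, k ∉ F → ‖(v : L1 I) k‖ ≤ ε / 2 := by
    intro v
    have h0 : Tendsto (fun k => ‖(v : L1 I) k‖) cofinite (𝓝 0) :=
      (summable_norm (v : L1 I)).tendsto_cofinite_zero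
    have h1 : ∀ᶠ k in cofinite, ‖(v : L1 I) k‖ ≤ ε / 2 :=
      (h0.eventually_lt_const (half_pos hε)).mono fun k hk => hk.le
    rw [eventually_cofinite] at h1
    refine ⟨h1.toFinset, fun k hk => ?_⟩
    by_contra hcon
    exact hk (h1.mem_toFinset.mpr hcon)
  choose F hF using hfin
  refine ⟨htf.toFinset.biUnion F, fun k hk v hv => ?_⟩
  by_cases hv0 : v = 0
  · subst hv0; simp
  have hnv : 0 < ‖v‖ := norm_pos_iff.mpr hv0
  set u : W := ((‖v‖ : ℂ)⁻¹) • (⟨v, hv⟩ : W) with hu
  have hun : ‖u‖ ≤ 1 := by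
    rw [hu, norm_smul, norm_inv, Complex.norm_real, Real.norm_eq_abs, abs_of_pos hnv]
    have : ‖(⟨v, hv⟩ : W)‖ = ‖v‖ := rfl
    rw [this, inv_mul_cancel₀ hnv.ne']
  have hmem : u ∈ Metric.closedBall (0 : W) 1 := by simpa using hun
  obtain ⟨x, hx, hux⟩ := Set.mem_iUnion₂.mp (hcov hmem)
  have h1 : ‖((x : W) : L1 I) k‖ ≤ ε / 2 := by
    apply hF
    intro hkF
    exact hk (Finset.mem_biUnion.mpr ⟨x, htf.mem_toFinset.mpr hx, hkF⟩)
  have h2 : ‖(u : L1 I) k‖ ≤ ε := by
    have h3 : ‖((u - x : W) : L1 I) k‖ ≤ ε / 2 := by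
      refine (norm_coord_le _ k).trans ?_
      have : ‖((u - x : W) : L1 I)‖ = dist u x := by rw [dist_eq_norm]; rfl
      rw [this]
      exact (Metric.mem_ball.mp hux).le
    have h4 : (u : L1 I) k = ((u - x : W) : L1 I) k + ((x : W) : L1 I) k := by simp
    rw [h4]
    exact (norm_add_le _ _).trans (by linarith)
  have h5 : (u : L1 I) k = (‖v‖ : ℂ)⁻¹ * v k := by
    rw [hu]; simp
  rw [h5, norm_mul, norm_inv, Complex.norm_real, Real.norm_eq_abs, abs_of_pos hnv,
    inv_mul_le_iff₀ hnv] at h2
  linarith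

/-- The tensor `a ⊗ b ∈ ℓ¹(I × I)`. -/
def tens : L1 I →L[ℂ] L1 I →L[ℂ] L1 (I × I) :=
  lift (fun i => lift (fun j => e (i, j)) 1 (by intro p; simp [norm_e])) 1 (by
    intro i
    refine ContinuousLinearMap.opNorm_le_bound _ zero_le_one fun a => ?_
    exact norm_lift_le _ 1 _ a)

@[simp] theorem tens_e (i j : I) : tens (e i) (e j) = e (i, j) := by simp [tens]

theorem row_tens (k : I) (a b : L1 I) : row k (tens a b) = a k • b := by
  classical
  have h1 : ∀ i j : I, row k (tens (e i) (e j)) = (e i : L1 I) k • (e j : L1 I) := by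
    intro i j
    rw [tens_e, row_e]
    by_cases h : i = k
    · subst h; simp [e_apply_self]
    · rw [e_apply_ne (Ne.symm h)]; simp [h]
  have h2 : ∀ i : I, ∀ b : L1 I, row k (tens (e i) b) = (e i : L1 I) k • b := by
    intro i b
    have := ext_e_apply ((row k).comp (tens (e i)))
      (((e i : L1 I) k) • ContinuousLinearMap.id ℂ (L1 I)) (fun j => by simpa using h1 i j) b
    simpa using this
  have := ext_e_apply ((row k).comp (tens.flip b)) ((coord k).smulRight b)
    (fun i => by simpa using h2 i b) a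
  simpa using this

theorem tens_mem_FR (a b : L1 I) : tens a b ∈ FR I := by
  refine ⟨Submodule.span ℂ {b}, inferInstance, fun k => ?_⟩
  rw [row_tens]
  exact Submodule.smul_mem _ _ (Submodule.mem_span_singleton_self b)

theorem dg_tens_e (i : I) : dg (tens (e i) (e i)) = e i := by simp

end

end Q81TN
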